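import Mathlib

set_option autoImplicit false

open MeasureTheory Real

namespace Pool.Agent.H706R2

/-- distance of a real number to the nearest integer -/
noncomputable def dZ (x : ℝ) : ℝ := |x - round x|

lemma dZ_le_of_int (x : ℝ) (k : ℤ) : dZ x ≤ |x - k| := by
  unfold dZ; exact round_le x k

/-- rounding step: if `x` and `p x` are both within `r` of integers, `(p+1) r ≤ 1`, then
`round (p x) = p * round x`. -/
lemma round_step {r : ℝ} {p : ℕ} {x : ℝ} (hr : ((p : ℝ) + 1) * r ≤ 1) (h1 : dZ x < r)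
    (h2 : dZ (p * x) < r) : round ((p : ℝ) * x) = (p : ℤ) * round x := by
  unfold dZ at h1 h2
  have hp : (0 : ℝ) ≤ p := Nat.cast_nonneg p
  have h3 : |(((p : ℤ) * round x - round ((p : ℝ) * x) : ℤ) : ℝ)| < 1 := by
    have e : (((p : ℤ) * round x - round ((p : ℝ) * x) : ℤ) : ℝ)
        = ((p : ℝ) * x - round ((p : ℝ) * x)) - (p : ℝ) * (x - round x) := by
      push_cast; ring
    rw [e]
    have h4 : |(p : ℝ) * (x - round x)| ≤ p * r := by
      rw [abs_mul, abs_of_nonneg hp]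
      exact mul_le_mul_of_nonneg_left h1.le hp
    calc |((p : ℝ) * x - round ((p : ℝ) * x)) - (p : ℝ) * (x - round x)|
        ≤ |(p : ℝ) * x - round ((p : ℝ) * x)| + |(p : ℝ) * (x - round x)| := abs_sub _ _
      _ < r + p * r := by linarith
      _ ≤ 1 := by linarith
  have h5 : |(p : ℤ) * round x - round ((p : ℝ) * x)| < 1 := by
    exact_mod_cast h3
  have h6 := Int.abs_lt_one_iff.mp h5
  omega

/-- along a run of near points the rounded values are multiplied. -/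
lemma round_run {r : ℝ} {p : ℕ} {x : ℝ} (hr : ((p : ℝ) + 1) * r ≤ 1) (k : ℕ)
    (h : ∀ i ≤ k, dZ ((p : ℝ) ^ i * x) < r) :
    round ((p : ℝ) ^ k * x) = (p : ℤ) ^ k * round x := by
  induction k with
  | zero => simp
  | succ k ih =>
    have h1 := ih (fun i hi => h i (hi.trans (Nat.le_succ k)))
    have h2 := round_step (p := p) (x := (p : ℝ) ^ k * x) hr (h k (Nat.le_succ k))
      (by
        have := h (k + 1) le_rfl
        rwa [pow_succ', mul_assoc] at this)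
    rw [pow_succ', mul_assoc, h2, h1]
    ring

/-- left (or bottom) arc. -/
lemma arc_side {r θ : ℝ} {p q : ℕ} (hp : 0 < p) (hq : 0 < q) (hr : ((q : ℝ) + 1) * r ≤ 1)
    (hfar : r ≤ dZ θ) (a b : ℕ) (hab : p ^ a ≤ q ^ b) :
    ∃ i ≤ b, r ≤ dZ ((q : ℝ) ^ i * (θ / (p : ℝ) ^ a)) := by
  by_contra hcon
  push Not at hcon
  have h1 := round_run (x := θ / (p : ℝ) ^ a) hr b hcon
  have h2 := hcon b le_rfl
  have hpa : (0 : ℝ) < (p : ℝ) ^ a := by positivity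
  have hqb : (0 : ℝ) < (q : ℝ) ^ b := by positivity
  unfold dZ at h2
  rw [h1] at h2
  have h3 : |θ - (((p : ℤ) ^ a * round (θ / (p : ℝ) ^ a) : ℤ) : ℝ)| < r := by
    have e : θ - (((p : ℤ) ^ a * round (θ / (p : ℝ) ^ a) : ℤ) : ℝ)
        = (p : ℝ) ^ a / (q : ℝ) ^ b *
          ((q : ℝ) ^ b * (θ / (p : ℝ) ^ a) - (((q : ℤ) ^ b * round (θ / (p : ℝ) ^ a) : ℤ) : ℝ)) := by
      push_cast
      field_simp
    rw [e, abs_mul, abs_of_pos (by positivity)]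
    have h4 : (p : ℝ) ^ a / (q : ℝ) ^ b ≤ 1 := by
      rw [div_le_one hqb]; exact_mod_cast hab
    have h5 : 0 < (p : ℝ) ^ a / (q : ℝ) ^ b := by positivity
    calc _ < (p : ℝ) ^ a / (q : ℝ) ^ b * r := by
            exact mul_lt_mul_of_pos_left h2 h5
      _ ≤ 1 * r := by
            apply mul_le_mul_of_nonneg_right h4
            exact (abs_nonneg _).trans h2.le
      _ = r := one_mul r
  have := dZ_le_of_int θ ((p : ℤ) ^ a * round (θ / (p : ℝ) ^ a))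
  linarith

/-- upper right arc. -/
lemma arc_corner {r θ : ℝ} {p q : ℕ} (hp : 0 < p) (hq : 0 < q) (hrp : ((p : ℝ) + 1) * r ≤ 1)
    (hrq : ((q : ℝ) + 1) * r ≤ 1)
    (hfar : r ≤ dZ θ) (a b a2 b2 : ℕ) (hqa : q ^ a2 ≤ p ^ a)
    (hdiv : p ^ a * q ^ b ∣ Nat.lcm (p ^ (b2 + a)) (q ^ (a2 + b))) :
    (∃ i ≤ a2 + b, r ≤ dZ ((q : ℝ) ^ i * (θ * (p : ℝ) ^ a / (q : ℝ) ^ a2))) ∨
    (∃ i ≤ b2 + a, r ≤ dZ ((p : ℝ) ^ i * (θ * (q : ℝ) ^ b / (p : ℝ) ^ b2))) := by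
  by_contra hcon
  rw [not_or] at hcon
  obtain ⟨hA, hB⟩ := hcon
  push Not at hA hB
  have h1 := round_run (x := θ * (p : ℝ) ^ a / (q : ℝ) ^ a2) hrq (a2 + b) hA
  have h2 := round_run (x := θ * (q : ℝ) ^ b / (p : ℝ) ^ b2) hrp (b2 + a) hB
  have hpR : (0 : ℝ) < p := by exact_mod_cast hp
  have hqR : (0 : ℝ) < q := by exact_mod_cast hq
  have e1 : (q : ℝ) ^ (a2 + b) * (θ * (p : ℝ) ^ a / (q : ℝ) ^ a2) = θ * (p : ℝ) ^ a * (q : ℝ) ^ b := by
    rw [pow_add]; field_simp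
  have e2 : (p : ℝ) ^ (b2 + a) * (θ * (q : ℝ) ^ b / (p : ℝ) ^ b2) = θ * (p : ℝ) ^ a * (q : ℝ) ^ b := by
    rw [pow_add]; field_simp
  rw [e1] at h1
  rw [e2] at h2
  set M : ℤ := round (θ * (p : ℝ) ^ a * (q : ℝ) ^ b) with hM
  have d1 : ((q ^ (a2 + b) : ℕ) : ℤ) ∣ M := by
    rw [h1]; push_cast; exact dvd_mul_right _ _
  have d2 : ((p ^ (b2 + a) : ℕ) : ℤ) ∣ M := by
    rw [h2]; push_cast; exact dvd_mul_right _ _
  have d3 : p ^ a * q ^ b ∣ M.natAbs := by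
    refine hdiv.trans (Nat.lcm_dvd ?_ ?_)
    · exact Int.natCast_dvd.mp d2
    · exact Int.natCast_dvd.mp d1
  have d4 : ((p ^ a * q ^ b : ℕ) : ℤ) ∣ M := Int.natCast_dvd.mpr d3
  obtain ⟨K, hK⟩ := d4
  -- round y_A = p^a K / q^{a2}
  have h3 := hA 0 (Nat.zero_le _)
  rw [pow_zero, one_mul] at h3
  unfold dZ at h3
  set R := round (θ * (p : ℝ) ^ a / (q : ℝ) ^ a2) with hR
  have h4 : ((q : ℝ) ^ a2) * R = (p : ℝ) ^ a * K := by
    have h5 : ((q : ℤ) ^ (a2 + b)) * R = ((p : ℤ) ^ a * (q : ℤ) ^ b) * K := by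
      rw [← h1, hK]; push_cast; ring
    have h6 : ((q : ℝ) ^ (a2 + b)) * R = ((p : ℝ) ^ a * (q : ℝ) ^ b) * K := by
      exact_mod_cast h5
    rw [pow_add] at h6
    have hqb : (0 : ℝ) < (q : ℝ) ^ b := by positivity
    have h7 : (q : ℝ) ^ b * ((q : ℝ) ^ a2 * R) = (q : ℝ) ^ b * ((p : ℝ) ^ a * K) := by
      linarith
    exact mul_left_cancel₀ hqb.ne' h7
  have h8 : |θ - (K : ℝ)| < r := by
    have e : θ - (K : ℝ) = (q : ℝ) ^ a2 / (p : ℝ) ^ a * (θ * (p : ℝ) ^ a / (q : ℝ) ^ a2 - R) := by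
      have : (q : ℝ) ^ a2 / (p : ℝ) ^ a * (θ * (p : ℝ) ^ a / (q : ℝ) ^ a2 - R)
          = θ - ((q : ℝ) ^ a2 * R) / (p : ℝ) ^ a := by
        field_simp
      rw [this, h4]
      field_simp
    rw [e, abs_mul, abs_of_pos (by positivity)]
    have h9 : (q : ℝ) ^ a2 / (p : ℝ) ^ a ≤ 1 := by
      rw [div_le_one (by positivity)]; exact_mod_cast hqa
    have h10 : 0 < (q : ℝ) ^ a2 / (p : ℝ) ^ a := by positivity
    calc _ < (q : ℝ) ^ a2 / (p : ℝ) ^ a * r := by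
            exact mul_lt_mul_of_pos_left h3 h10
      _ ≤ 1 * r := by
            apply mul_le_mul_of_nonneg_right h9
            exact (abs_nonneg _).trans h3.le
      _ = r := one_mul r
  have := dZ_le_of_int θ K
  linarith

end Pool.Agent.H706R2
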