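import Mathlib
import Pool.Agent.H706R2.NonConc

set_option autoImplicit false

open MeasureTheory Real

namespace Pool.Agent.H706R2

/-- the value of the configuration at a lattice point -/
noncomputable def X (p q : ℕ) (θ : ℝ) (c : ℤ × ℤ) : ℝ := θ * (p : ℝ) ^ c.1 * (q : ℝ) ^ c.2

lemma X_shift {p q : ℕ} (hp : 0 < p) (hq : 0 < q) (θ : ℝ) (z c : ℤ × ℤ) :
    X p q (X p q θ z) c = X p q θ (z + c) := by
  unfold X
  have hpR : (p : ℝ) ≠ 0 := by positivity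
  have hqR : (q : ℝ) ≠ 0 := by positivity
  simp only [Prod.fst_add, Prod.snd_add]
  rw [zpow_add₀ hpR, zpow_add₀ hqR]
  ring

/-- growth predicate -/
def G (p q : ℕ) (r R : ℝ) (N : ℕ) : Prop :=
  ∀ θ : ℝ, r ≤ dZ θ → ∃ S : Finset (ℤ × ℤ), N ≤ S.card ∧ ∀ c ∈ S, r ≤ dZ (X p q θ c) ∧
    |(c.1 : ℝ)| * log p ≤ R ∧ |(c.2 : ℝ)| * log q ≤ R

lemma G_zero {p q : ℕ} {r : ℝ} : G p q r 0 1 := by
  intro θ h
  refine ⟨{(0, 0)}, by simp, ?_⟩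
  intro c hc
  rw [Finset.mem_singleton] at hc
  subst hc
  simp [X, h]

lemma G_mono {p q : ℕ} {r R R' : ℝ} {N N' : ℕ} (h : G p q r R N) (hR : R ≤ R') (hN : N' ≤ N) :
    G p q r R' N' := by
  intro θ hθ
  obtain ⟨S, h1, h2⟩ := h θ hθ
  exact ⟨S, hN.trans h1, fun c hc => ⟨(h2 c hc).1, (h2 c hc).2.1.trans hR, (h2 c hc).2.2.trans hR⟩⟩

lemma G_at {p q : ℕ} (hp : 0 < p) (hq : 0 < q) {r R : ℝ} {N : ℕ} (h : G p q r R N) {θ : ℝ}
    {z : ℤ × ℤ} (hz : r ≤ dZ (X p q θ z)) :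
    ∃ S : Finset (ℤ × ℤ), N ≤ S.card ∧ ∀ c ∈ S, r ≤ dZ (X p q θ c) ∧
      |(c.1 : ℝ) - z.1| * log p ≤ R ∧ |(c.2 : ℝ) - z.2| * log q ≤ R := by
  obtain ⟨S, h1, h2⟩ := h _ hz
  refine ⟨S.map (addLeftEmbedding z), by simpa using h1, ?_⟩
  intro c hc
  rw [Finset.mem_map] at hc
  obtain ⟨d, hd, rfl⟩ := hc
  obtain ⟨h3, h4, h5⟩ := h2 d hd
  rw [X_shift hp hq] at h3
  refine ⟨h3, ?_, ?_⟩
  · simpa [addLeftEmbedding] using h4
  · simpa [addLeftEmbedding] using h5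

lemma disj_of_sep {lp lq : ℝ} (hlp : 0 ≤ lp) (hlq : 0 ≤ lq) {z w : ℤ × ℤ} {R1 R2 : ℝ}
    {S T : Finset (ℤ × ℤ)}
    (hS : ∀ c ∈ S, |(c.1 : ℝ) - z.1| * lp ≤ R1 ∧ |(c.2 : ℝ) - z.2| * lq ≤ R1)
    (hT : ∀ c ∈ T, |(c.1 : ℝ) - w.1| * lp ≤ R2 ∧ |(c.2 : ℝ) - w.2| * lq ≤ R2)
    (hsep : R1 + R2 < |(z.1 : ℝ) - w.1| * lp ∨ R1 + R2 < |(z.2 : ℝ) - w.2| * lq) :
    Disjoint S T := by
  rw [Finset.disjoint_left]
  intro c hc hc'
  obtain ⟨h1, h2⟩ := hS c hc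
  obtain ⟨h3, h4⟩ := hT c hc'
  rcases hsep with h | h
  · have h5 : |(z.1 : ℝ) - w.1| ≤ |(c.1 : ℝ) - z.1| + |(c.1 : ℝ) - w.1| := by
      have : (z.1 : ℝ) - w.1 = -((c.1 : ℝ) - z.1) + ((c.1 : ℝ) - w.1) := by ring
      rw [this]
      refine (abs_add_le _ _).trans ?_
      rw [abs_neg]
    have h6 := mul_le_mul_of_nonneg_right h5 hlp
    linarith
  · have h5 : |(z.2 : ℝ) - w.2| ≤ |(c.2 : ℝ) - z.2| + |(c.2 : ℝ) - w.2| := by
      have : (z.2 : ℝ) - w.2 = -((c.2 : ℝ) - z.2) + ((c.2 : ℝ) - w.2) := by ring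
      rw [this]
      refine (abs_add_le _ _).trans ?_
      rw [abs_neg]
    have h6 := mul_le_mul_of_nonneg_right h5 hlq
    linarith

/-- a far point on the left arc, at abscissa `-a`. -/
lemma exists_left {p q : ℕ} (hp : 2 ≤ p) (hq : 2 ≤ q) {r θ : ℝ} (hr : ((q : ℝ) + 1) * r ≤ 1)
    (hfar : r ≤ dZ θ) (a : ℕ) :
    ∃ n : ℕ, r ≤ dZ (X p q θ (-(a : ℤ), (n : ℤ))) ∧ (n : ℝ) * log q < a * log p + log q := by
  have hlq : 0 < log q := log_pos (by exact_mod_cast (by omega : 1 < q))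
  have hlp : 0 < log p := log_pos (by exact_mod_cast (by omega : 1 < p))
  set b := ⌈(a : ℝ) * log p / log q⌉₊ with hb
  have h1 : (a : ℝ) * log p ≤ b * log q := by
    have := Nat.le_ceil ((a : ℝ) * log p / log q)
    rw [div_le_iff₀ hlq] at this
    exact this
  have h2 : (b : ℝ) * log q < a * log p + log q := by
    have := Nat.ceil_lt_add_one (a := (a : ℝ) * log p / log q) (by positivity)
    have h3 : (b : ℝ) < (a : ℝ) * log p / log q + 1 := this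
    have h4 := mul_lt_mul_of_pos_right h3 hlq
    rw [add_mul, div_mul_cancel₀ _ hlq.ne', one_mul] at h4
    exact h4
  have hab : p ^ a ≤ q ^ b := by
    have hpp : (0 : ℝ) < p := by positivity
    have hqq : (0 : ℝ) < q := by positivity
    have : (p : ℝ) ^ a ≤ (q : ℝ) ^ b := by
      rw [← log_le_log_iff (by positivity) (by positivity), log_pow, log_pow]
      exact h1
    exact_mod_cast this
  obtain ⟨i, hi, h3⟩ := arc_side (by omega) (by omega) hr hfar a b hab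
  refine ⟨i, ?_, ?_⟩
  · have e : X p q θ (-(a : ℤ), (i : ℤ)) = (q : ℝ) ^ i * (θ / (p : ℝ) ^ a) := by
      unfold X
      simp only [zpow_neg, zpow_natCast]
      field_simp
    rw [e]; exact h3
  · have : (i : ℝ) ≤ b := by exact_mod_cast hi
    have := mul_le_mul_of_nonneg_right this hlq.le
    linarith

lemma exists_bottom {p q : ℕ} (hp : 2 ≤ p) (hq : 2 ≤ q) {r θ : ℝ} (hr : ((p : ℝ) + 1) * r ≤ 1)
    (hfar : r ≤ dZ θ) (b : ℕ) :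
    ∃ m : ℕ, r ≤ dZ (X p q θ ((m : ℤ), -(b : ℤ))) ∧ (m : ℝ) * log p < b * log q + log p := by
  obtain ⟨m, h1, h2⟩ := exists_left hq hp hr hfar b
  refine ⟨m, ?_, h2⟩
  have e : X p q θ ((m : ℤ), -(b : ℤ)) = X q p θ (-(b : ℤ), (m : ℤ)) := by
    unfold X; ring
  rw [e]; exact h1

lemma exists_corner {p q : ℕ} (hp : 2 ≤ p) (hq : 2 ≤ q) {r θ : ℝ} (hrp : ((p : ℝ) + 1) * r ≤ 1)
    (hrq : ((q : ℝ) + 1) * r ≤ 1)
    (hfar : r ≤ dZ θ) (a b a2 b2 : ℕ) (hqa : q ^ a2 ≤ p ^ a)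
    (hdiv : p ^ a * q ^ b ∣ Nat.lcm (p ^ (b2 + a)) (q ^ (a2 + b))) :
    (∃ n : ℤ, -(a2 : ℤ) ≤ n ∧ n ≤ b ∧ r ≤ dZ (X p q θ ((a : ℤ), n))) ∨
    (∃ m : ℤ, -(b2 : ℤ) ≤ m ∧ m ≤ a ∧ r ≤ dZ (X p q θ (m, (b : ℤ)))) := by
  have hpp : (0 : ℝ) < p := by positivity
  have hqq : (0 : ℝ) < q := by positivity
  rcases arc_corner (by omega) (by omega) hrp hrq hfar a b a2 b2 hqa hdiv with h | h
  · obtain ⟨i, hi, h1⟩ := h
    refine Or.inl ⟨(i : ℤ) - a2, by omega, by omega, ?_⟩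
    have e : X p q θ ((a : ℤ), (i : ℤ) - a2) = (q : ℝ) ^ i * (θ * (p : ℝ) ^ a / (q : ℝ) ^ a2) := by
      unfold X
      simp only [zpow_natCast]
      rw [zpow_sub₀ hqq.ne', zpow_natCast, zpow_natCast]
      field_simp
    rw [e]; exact h1
  · obtain ⟨i, hi, h1⟩ := h
    refine Or.inr ⟨(i : ℤ) - b2, by omega, by omega, ?_⟩
    have e : X p q θ ((i : ℤ) - b2, (b : ℤ)) = (p : ℝ) ^ i * (θ * (q : ℝ) ^ b / (p : ℝ) ^ b2) := by
      unfold X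
      simp only [zpow_natCast]
      rw [zpow_sub₀ hpp.ne', zpow_natCast, zpow_natCast]
      field_simp
    rw [e]; exact h1

end Pool.Agent.H706R2
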