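import Mathlib
import Pool.Agent.H706R2.NonConc2

set_option autoImplicit false

open MeasureTheory Real

namespace Pool.Agent.H706R2

lemma exists_mult {l ρ : ℝ} (hl : 0 < l) (hρ : 0 ≤ ρ) :
    ∃ a : ℕ, ρ < a * l ∧ (a : ℝ) * l ≤ ρ + l := by
  refine ⟨⌊ρ / l⌋₊ + 1, ?_, ?_⟩
  · have := Nat.lt_floor_add_one (ρ / l)
    rw [div_lt_iff₀ hl] at this
    push_cast; exact this
  · have := Nat.floor_le (div_nonneg hρ hl.le)
    rw [le_div_iff₀ hl] at this
    push_cast; linarith

/-- coarse step: two further balls -/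
lemma step2 {p q : ℕ} (hp : 2 ≤ p) (hq : 2 ≤ q) {r : ℝ} (hrp : ((p : ℝ) + 1) * r ≤ 1)
    (hrq : ((q : ℝ) + 1) * r ≤ 1) {Rb R : ℝ} {Nb N : ℕ} (h0 : 0 ≤ R) (h1 : R ≤ Rb)
    (hb : G p q r Rb Nb) (hs : G p q r R N) :
    G p q r (Rb + 2 * R + (log p + log q)) (Nb + 2 * N) := by
  have hlq : 0 < log q := log_pos (by exact_mod_cast (by omega : 1 < q))
  have hlp : 0 < log p := log_pos (by exact_mod_cast (by omega : 1 < p))
  intro θ hθ
  obtain ⟨a, ha1, ha2⟩ := exists_mult hlp (ρ := Rb + R) (by linarith)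
  obtain ⟨b, hb1, hb2⟩ := exists_mult hlq (ρ := Rb + R) (by linarith)
  obtain ⟨n1, hn1, hn1'⟩ := exists_left hp hq hrq hθ a
  obtain ⟨m2, hm2, hm2'⟩ := exists_bottom hp hq hrp hθ b
  obtain ⟨S0, hS0, hS0'⟩ := hb θ hθ
  obtain ⟨S1, hS1, hS1'⟩ := G_at (by omega) (by omega) hs hn1
  obtain ⟨S2, hS2, hS2'⟩ := G_at (by omega) (by omega) hs hm2
  simp only [Int.cast_neg, Int.cast_natCast] at hS1' hS2'
  have hn1nn : (0 : ℝ) ≤ n1 := Nat.cast_nonneg _
  have hm2nn : (0 : ℝ) ≤ m2 := Nat.cast_nonneg _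
  have hann : (0 : ℝ) ≤ a := Nat.cast_nonneg _
  have hbnn : (0 : ℝ) ≤ b := Nat.cast_nonneg _
  have d01 : Disjoint S0 S1 := by
    refine disj_of_sep hlp.le hlq.le (z := (0, 0)) (w := (-(a : ℤ), (n1 : ℤ))) (R1 := Rb) (R2 := R)
      (fun c hc => by simpa using (hS0' c hc).2) (fun c hc => by simpa using (hS1' c hc).2) ?_
    left
    simp only [Int.cast_zero, Int.cast_neg, Int.cast_natCast, zero_sub, neg_neg]
    rw [abs_of_nonneg hann]; exact ha1
  have d02 : Disjoint S0 S2 := by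
    refine disj_of_sep hlp.le hlq.le (z := (0, 0)) (w := ((m2 : ℤ), -(b : ℤ))) (R1 := Rb) (R2 := R)
      (fun c hc => by simpa using (hS0' c hc).2) (fun c hc => by simpa using (hS2' c hc).2) ?_
    right
    simp only [Int.cast_zero, Int.cast_neg, Int.cast_natCast, zero_sub, neg_neg]
    rw [abs_of_nonneg hbnn]; exact hb1
  have d12 : Disjoint S1 S2 := by
    refine disj_of_sep hlp.le hlq.le (z := (-(a : ℤ), (n1 : ℤ))) (w := ((m2 : ℤ), -(b : ℤ)))
      (R1 := R) (R2 := R)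
      (fun c hc => by simpa using (hS1' c hc).2) (fun c hc => by simpa using (hS2' c hc).2) ?_
    left
    simp only [Int.cast_neg, Int.cast_natCast]
    have : |(-(a : ℝ)) - m2| = a + m2 := by
      rw [show (-(a : ℝ)) - m2 = -(a + m2) by ring, abs_neg, abs_of_nonneg (by positivity)]
    rw [this, add_mul]
    have : 0 ≤ (m2 : ℝ) * log p := by positivity
    linarith
  refine ⟨S0 ∪ (S1 ∪ S2), ?_, ?_⟩
  · rw [Finset.card_union_of_disjoint (by rw [Finset.disjoint_union_right]; exact ⟨d01, d02⟩),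
      Finset.card_union_of_disjoint d12]
    omega
  · intro c hc
    rw [Finset.mem_union, Finset.mem_union] at hc
    rcases hc with hc | hc | hc
    · obtain ⟨h2, h3, h4⟩ := hS0' c hc
      exact ⟨h2, by linarith, by linarith⟩
    · obtain ⟨h2, h3, h4⟩ := hS1' c hc
      refine ⟨h2, ?_, ?_⟩
      · have : |(c.1 : ℝ)| ≤ |(c.1 : ℝ) - -(a : ℝ)| + a := by
          have h5 : (c.1 : ℝ) = ((c.1 : ℝ) - -(a : ℝ)) + (-(a : ℝ)) := by ring
          calc |(c.1 : ℝ)| = |((c.1 : ℝ) - -(a : ℝ)) + (-(a : ℝ))| := by rw [← h5]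
            _ ≤ _ := abs_add_le _ _
            _ = _ := by rw [abs_neg, abs_of_nonneg hann]
        have := mul_le_mul_of_nonneg_right this hlp.le
        rw [add_mul] at this
        linarith
      · have : |(c.2 : ℝ)| ≤ |(c.2 : ℝ) - (n1 : ℝ)| + n1 := by
          have h5 : (c.2 : ℝ) = ((c.2 : ℝ) - (n1 : ℝ)) + n1 := by ring
          calc |(c.2 : ℝ)| = |((c.2 : ℝ) - (n1 : ℝ)) + n1| := by rw [← h5]
            _ ≤ _ := abs_add_le _ _
            _ = _ := by rw [abs_of_nonneg hn1nn]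
        have := mul_le_mul_of_nonneg_right this hlq.le
        rw [add_mul] at this
        linarith
    · obtain ⟨h2, h3, h4⟩ := hS2' c hc
      refine ⟨h2, ?_, ?_⟩
      · have : |(c.1 : ℝ)| ≤ |(c.1 : ℝ) - (m2 : ℝ)| + m2 := by
          have h5 : (c.1 : ℝ) = ((c.1 : ℝ) - (m2 : ℝ)) + m2 := by ring
          calc |(c.1 : ℝ)| = |((c.1 : ℝ) - (m2 : ℝ)) + m2| := by rw [← h5]
            _ ≤ _ := abs_add_le _ _
            _ = _ := by rw [abs_of_nonneg hm2nn]
        have := mul_le_mul_of_nonneg_right this hlp.le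
        rw [add_mul] at this
        linarith
      · have : |(c.2 : ℝ)| ≤ |(c.2 : ℝ) - -(b : ℝ)| + b := by
          have h5 : (c.2 : ℝ) = ((c.2 : ℝ) - -(b : ℝ)) + (-(b : ℝ)) := by ring
          calc |(c.2 : ℝ)| = |((c.2 : ℝ) - -(b : ℝ)) + (-(b : ℝ))| := by rw [← h5]
            _ ≤ _ := abs_add_le _ _
            _ = _ := by rw [abs_neg, abs_of_nonneg hbnn]
        have := mul_le_mul_of_nonneg_right this hlq.le
        rw [add_mul] at this
        linarith

/-- generic coordinate estimate -/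
lemma abs_shift_le {x z l R D : ℝ} (hl : 0 ≤ l) (h : |x - z| * l ≤ R) (hz : |z| * l ≤ D) :
    |x| * l ≤ D + R := by
  have : |x| ≤ |x - z| + |z| := by
    calc |x| = |(x - z) + z| := by ring_nf
      _ ≤ _ := abs_add_le _ _
  have := mul_le_mul_of_nonneg_right this hl
  rw [add_mul] at this
  linarith

/-- main step: three further balls -/
lemma step3 {p q : ℕ} (hp : 2 ≤ p) (hq : 2 ≤ q) {r : ℝ} (hrp : ((p : ℝ) + 1) * r ≤ 1)
    (hrq : ((q : ℝ) + 1) * r ≤ 1) {Rb R : ℝ} {Nb N : ℕ} (h0 : 0 ≤ R) (h1 : R ≤ Rb)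
    (a b a2 b2 : ℕ) (ha1 : Rb + R < a * log p) (ha2 : (a : ℝ) * log p ≤ Rb + R + log p)
    (hb1 : Rb + R < b * log q) (hb2 : (b : ℝ) * log q ≤ Rb + R + log q)
    (hqa : q ^ a2 ≤ p ^ a) (hpb : p ^ b2 ≤ q ^ b)
    (hdiv : p ^ a * q ^ b ∣ Nat.lcm (p ^ (b2 + a)) (q ^ (a2 + b)))
    (hs1 : 2 * R < ((b : ℝ) - a2) * log q) (hs2 : 2 * R < ((a : ℝ) - b2) * log p)
    (hb : G p q r Rb Nb) (hs : G p q r R N) :
    G p q r (Rb + 2 * R + (log p + log q)) (Nb + 3 * N) := by
  have hlq : 0 < log q := log_pos (by exact_mod_cast (by omega : 1 < q))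
  have hlp : 0 < log p := log_pos (by exact_mod_cast (by omega : 1 < p))
  have hqa' : (a2 : ℝ) * log q ≤ a * log p := by
    have h : ((q : ℝ)) ^ a2 ≤ (p : ℝ) ^ a := by exact_mod_cast hqa
    rw [← log_le_log_iff (by positivity) (by positivity), log_pow, log_pow] at h
    exact h
  have hpb' : (b2 : ℝ) * log p ≤ b * log q := by
    have h : ((p : ℝ)) ^ b2 ≤ (q : ℝ) ^ b := by exact_mod_cast hpb
    rw [← log_le_log_iff (by positivity) (by positivity), log_pow, log_pow] at h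
    exact h
  intro θ hθ
  obtain ⟨n1, hn1, hn1'⟩ := exists_left hp hq hrq hθ a
  obtain ⟨m2, hm2, hm2'⟩ := exists_bottom hp hq hrp hθ b
  have hn1nn : (0 : ℝ) ≤ n1 := Nat.cast_nonneg _
  have hm2nn : (0 : ℝ) ≤ m2 := Nat.cast_nonneg _
  have hann : (0 : ℝ) ≤ a := Nat.cast_nonneg _
  have hbnn : (0 : ℝ) ≤ b := Nat.cast_nonneg _
  -- the corner point `w`
  obtain ⟨w, hw, hw1, hw2, hw3, hw4, hw5⟩ : ∃ w : ℤ × ℤ, r ≤ dZ (X p q θ w) ∧
      |(w.1 : ℝ)| * log p ≤ Rb + R + (log p + log q) ∧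
      |(w.2 : ℝ)| * log q ≤ Rb + R + (log p + log q) ∧
      (Rb + R < |(w.1 : ℝ)| * log p ∨ Rb + R < |(w.2 : ℝ)| * log q) ∧
      (2 * R < ((w.1 : ℝ) + a) * log p) ∧
      (2 * R < ((w.2 : ℝ) + b) * log q) := by
    rcases exists_corner hp hq hrp hrq hθ a b a2 b2 hqa hdiv with ⟨n, hn, hn', hf⟩ | ⟨m, hm, hm', hf⟩
    · have hnR : -(a2 : ℝ) ≤ n := by exact_mod_cast hn
      have hnR' : (n : ℝ) ≤ b := by exact_mod_cast hn'
      refine ⟨((a : ℤ), n), hf, ?_, ?_, Or.inl ?_, ?_, ?_⟩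
      · simp only [Int.cast_natCast]; rw [abs_of_nonneg hann]; linarith
      · simp only
        have h3 : |(n : ℝ)| * log q ≤ max (a2 * log q) (b * log q) := by
          rcases le_total 0 (n : ℝ) with h | h
          · rw [abs_of_nonneg h]; exact (mul_le_mul_of_nonneg_right hnR' hlq.le).trans (le_max_right _ _)
          · rw [abs_of_nonpos h]
            exact (mul_le_mul_of_nonneg_right (by linarith : -(n : ℝ) ≤ a2) hlq.le).trans (le_max_left _ _)
        refine h3.trans (max_le ?_ ?_) <;> linarith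
      · simp only [Int.cast_natCast]; rw [abs_of_nonneg hann]; exact ha1
      · simp only [Int.cast_natCast]
        nlinarith
      · simp only
        have := mul_le_mul_of_nonneg_right (by linarith : (b : ℝ) - a2 ≤ n + b) hlq.le
        linarith
    · have hmR : -(b2 : ℝ) ≤ m := by exact_mod_cast hm
      have hmR' : (m : ℝ) ≤ a := by exact_mod_cast hm'
      refine ⟨(m, (b : ℤ)), hf, ?_, ?_, Or.inr ?_, ?_, ?_⟩
      · simp only
        have h3 : |(m : ℝ)| * log p ≤ max (b2 * log p) (a * log p) := by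
          rcases le_total 0 (m : ℝ) with h | h
          · rw [abs_of_nonneg h]; exact (mul_le_mul_of_nonneg_right hmR' hlp.le).trans (le_max_right _ _)
          · rw [abs_of_nonpos h]
            exact (mul_le_mul_of_nonneg_right (by linarith : -(m : ℝ) ≤ b2) hlp.le).trans (le_max_left _ _)
        refine h3.trans (max_le ?_ ?_) <;> linarith
      · simp only [Int.cast_natCast]; rw [abs_of_nonneg hbnn]; linarith
      · simp only [Int.cast_natCast]; rw [abs_of_nonneg hbnn]; exact hb1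
      · simp only
        have := mul_le_mul_of_nonneg_right (by linarith : (a : ℝ) - b2 ≤ m + a) hlp.le
        linarith
      · simp only [Int.cast_natCast]
        nlinarith
  obtain ⟨S0, hS0, hS0'⟩ := hb θ hθ
  obtain ⟨S1, hS1, hS1'⟩ := G_at (by omega) (by omega) hs hn1
  obtain ⟨S2, hS2, hS2'⟩ := G_at (by omega) (by omega) hs hm2
  obtain ⟨S3, hS3, hS3'⟩ := G_at (by omega) (by omega) hs hw
  have hS0'' : ∀ c ∈ S0, |(c.1 : ℝ) - ((0 : ℤ) : ℝ)| * log p ≤ Rb ∧ |(c.2 : ℝ) - ((0 : ℤ) : ℝ)| * log q ≤ Rb :=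
    fun c hc => by simpa using (hS0' c hc).2
  have d01 : Disjoint S0 S1 := by
    refine disj_of_sep hlp.le hlq.le (z := (0, 0)) (w := (-(a : ℤ), (n1 : ℤ))) (R1 := Rb) (R2 := R)
      hS0'' (fun c hc => (hS1' c hc).2) ?_
    left
    simp only [Int.cast_zero, Int.cast_neg, Int.cast_natCast, zero_sub, neg_neg]
    rw [abs_of_nonneg hann]; exact ha1
  have d02 : Disjoint S0 S2 := by
    refine disj_of_sep hlp.le hlq.le (z := (0, 0)) (w := ((m2 : ℤ), -(b : ℤ))) (R1 := Rb) (R2 := R)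
      hS0'' (fun c hc => (hS2' c hc).2) ?_
    right
    simp only [Int.cast_zero, Int.cast_neg, Int.cast_natCast, zero_sub, neg_neg]
    rw [abs_of_nonneg hbnn]; exact hb1
  have d03 : Disjoint S0 S3 := by
    refine disj_of_sep hlp.le hlq.le (z := (0, 0)) (w := w) (R1 := Rb) (R2 := R)
      hS0'' (fun c hc => (hS3' c hc).2) ?_
    simp only [Int.cast_zero, zero_sub, abs_neg]
    exact hw3
  have d12 : Disjoint S1 S2 := by
    refine disj_of_sep hlp.le hlq.le (z := (-(a : ℤ), (n1 : ℤ))) (w := ((m2 : ℤ), -(b : ℤ)))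
      (R1 := R) (R2 := R)
      (fun c hc => (hS1' c hc).2) (fun c hc => (hS2' c hc).2) ?_
    left
    simp only [Int.cast_neg, Int.cast_natCast]
    have : |(-(a : ℝ)) - m2| = a + m2 := by
      rw [show (-(a : ℝ)) - m2 = -(a + m2) by ring, abs_neg, abs_of_nonneg (by positivity)]
    rw [this, add_mul]
    have : 0 ≤ (m2 : ℝ) * log p := by positivity
    linarith
  have d13 : Disjoint S1 S3 := by
    refine disj_of_sep hlp.le hlq.le (z := (-(a : ℤ), (n1 : ℤ))) (w := w)
      (R1 := R) (R2 := R)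
      (fun c hc => (hS1' c hc).2) (fun c hc => (hS3' c hc).2) ?_
    left
    simp only [Int.cast_neg, Int.cast_natCast]
    have : (w.1 : ℝ) + a ≤ |(-(a : ℝ)) - w.1| := by
      rw [show (-(a : ℝ)) - w.1 = -((w.1 : ℝ) + a) by ring, abs_neg]
      exact le_abs_self _
    have := mul_le_mul_of_nonneg_right this hlp.le
    linarith
  have d23 : Disjoint S2 S3 := by
    refine disj_of_sep hlp.le hlq.le (z := ((m2 : ℤ), -(b : ℤ))) (w := w)
      (R1 := R) (R2 := R)
      (fun c hc => (hS2' c hc).2) (fun c hc => (hS3' c hc).2) ?_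
    right
    simp only [Int.cast_neg, Int.cast_natCast]
    have : (w.2 : ℝ) + b ≤ |(-(b : ℝ)) - w.2| := by
      rw [show (-(b : ℝ)) - w.2 = -((w.2 : ℝ) + b) by ring, abs_neg]
      exact le_abs_self _
    have := mul_le_mul_of_nonneg_right this hlq.le
    linarith
  refine ⟨S0 ∪ (S1 ∪ (S2 ∪ S3)), ?_, ?_⟩
  · rw [Finset.card_union_of_disjoint (by
        rw [Finset.disjoint_union_right, Finset.disjoint_union_right]; exact ⟨d01, d02, d03⟩),
      Finset.card_union_of_disjoint (by rw [Finset.disjoint_union_right]; exact ⟨d12, d13⟩),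
      Finset.card_union_of_disjoint d23]
    omega
  · intro c hc
    rw [Finset.mem_union, Finset.mem_union, Finset.mem_union] at hc
    rcases hc with hc | hc | hc | hc
    · obtain ⟨h2, h3, h4⟩ := hS0' c hc
      exact ⟨h2, by linarith, by linarith⟩
    · obtain ⟨h2, h3, h4⟩ := hS1' c hc
      simp only [Int.cast_neg, Int.cast_natCast] at h3 h4
      refine ⟨h2, ?_, ?_⟩
      · have := abs_shift_le hlp.le h3 (D := a * log p) (by rw [abs_neg, abs_of_nonneg hann])
        linarith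
      · have := abs_shift_le hlq.le h4 (D := n1 * log q) (by rw [abs_of_nonneg hn1nn])
        linarith
    · obtain ⟨h2, h3, h4⟩ := hS2' c hc
      simp only [Int.cast_neg, Int.cast_natCast] at h3 h4
      refine ⟨h2, ?_, ?_⟩
      · have := abs_shift_le hlp.le h3 (D := m2 * log p) (by rw [abs_of_nonneg hm2nn])
        linarith
      · have := abs_shift_le hlq.le h4 (D := b * log q) (by rw [abs_neg, abs_of_nonneg hbnn])
        linarith
    · obtain ⟨h2, h3, h4⟩ := hS3' c hc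
      refine ⟨h2, ?_, ?_⟩
      · have := abs_shift_le hlp.le h3 hw1
        linarith
      · have := abs_shift_le hlq.le h4 hw2
        linarith

end Pool.Agent.H706R2
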