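import Mathlib
import Pool.Agent.H706R2.NonConc3

set_option autoImplicit false

open MeasureTheory Real

namespace Pool.Agent.H706R2

/-- scaling property -/
def Scales (p q : ℕ) (r : ℝ) (C : ℕ) (c : ℝ) : Prop :=
  ∀ R : ℝ, 0 ≤ R → ∀ N : ℕ, G p q r R N → G p q r (C * R + c) ((C + 1) * N)

lemma scales_coprime {p q : ℕ} (hp : 2 ≤ p) (hq : 2 ≤ q) (hpq : Nat.Coprime p q) {r : ℝ}
    (hrp : ((p : ℝ) + 1) * r ≤ 1) (hrq : ((q : ℝ) + 1) * r ≤ 1) :
    Scales p q r 3 (log p + log q) := by
  intro R hR N hG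
  have hlq : 0 < log q := log_pos (by exact_mod_cast (by omega : 1 < q))
  have hlp : 0 < log p := log_pos (by exact_mod_cast (by omega : 1 < p))
  obtain ⟨a, ha1, ha2⟩ := exists_mult hlp (ρ := R + R) (by linarith)
  obtain ⟨b, hb1, hb2⟩ := exists_mult hlq (ρ := R + R) (by linarith)
  have h := step3 hp hq hrp hrq hR le_rfl a b 0 0 ha1 ha2 hb1 hb2
    (by simpa using Nat.one_le_pow a p (by omega)) (by simpa using Nat.one_le_pow b q (by omega))
    (by
      rw [zero_add, zero_add, Nat.Coprime.lcm_eq_mul (Nat.Coprime.pow a b hpq)])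
    (by push_cast; linarith) (by push_cast; linarith) hG hG
  exact G_mono h (by push_cast; linarith) (by omega)

lemma exists_lt_bound (T : Finset ℝ) {B : ℝ} (hB : 0 < B) (h : ∀ y ∈ T, y < B) :
    ∃ s : ℝ, 0 ≤ s ∧ s < B ∧ ∀ y ∈ T, y ≤ s := by
  induction T using Finset.induction_on with
  | empty => exact ⟨0, le_rfl, hB, by simp⟩
  | insert a T ha ih =>
    obtain ⟨s, h1, h2, h3⟩ := ih (fun y hy => h y (Finset.mem_insert_of_mem hy))
    refine ⟨max s a, le_max_of_le_left h1, max_lt h2 (h a (Finset.mem_insert_self _ _)), ?_⟩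
    intro y hy
    rcases Finset.mem_insert.mp hy with rfl | hy
    · exact le_max_right _ _
    · exact (h3 y hy).trans (le_max_left _ _)

lemma indep_ne {p q : ℕ} (hp : 2 ≤ p) (hq : 2 ≤ q) (hirr : Irrational (log p / log q))
    (ℓ : ℕ) (h : p.factorization ℓ ≠ 0 ∨ q.factorization ℓ ≠ 0) :
    (p.factorization ℓ : ℝ) * log q ≠ (q.factorization ℓ : ℝ) * log p := by
  have hlq : 0 < log q := log_pos (by exact_mod_cast (by omega : 1 < q))
  have hlp : 0 < log p := log_pos (by exact_mod_cast (by omega : 1 < p))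
  intro heq
  have hq0 : q.factorization ℓ ≠ 0 := by
    intro h0
    rw [h0] at heq
    simp only [Nat.cast_zero, zero_mul, mul_eq_zero, hlq.ne', or_false, Nat.cast_eq_zero] at heq
    rcases h with h | h
    · exact h heq
    · exact h h0
  apply hirr
  refine ⟨(p.factorization ℓ : ℚ) / (q.factorization ℓ : ℚ), ?_⟩
  push_cast
  have : (q.factorization ℓ : ℝ) ≠ 0 := by exact_mod_cast hq0
  field_simp
  linarith

lemma slopes {p q : ℕ} (hp : 2 ≤ p) (hq : 2 ≤ q) :
    ∃ s : ℝ, 0 ≤ s ∧ s * log q < log p ∧ ∀ ℓ : ℕ,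
      (p.factorization ℓ : ℝ) * log q < (q.factorization ℓ : ℝ) * log p →
        (p.factorization ℓ : ℝ) ≤ s * q.factorization ℓ := by
  have hlq : 0 < log q := log_pos (by exact_mod_cast (by omega : 1 < q))
  have hlp : 0 < log p := log_pos (by exact_mod_cast (by omega : 1 < p))
  classical
  set T : Finset ℝ := (q.primeFactors.filter (fun ℓ =>
    (p.factorization ℓ : ℝ) * log q < (q.factorization ℓ : ℝ) * log p)).image
      (fun ℓ => (p.factorization ℓ : ℝ) / q.factorization ℓ) with hT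
  obtain ⟨s, h1, h2, h3⟩ := exists_lt_bound T (B := log p / log q) (by positivity) (by
    intro y hy
    rw [hT, Finset.mem_image] at hy
    obtain ⟨ℓ, hℓ, rfl⟩ := hy
    rw [Finset.mem_filter] at hℓ
    obtain ⟨h1, h2⟩ := hℓ
    have h3 : (0 : ℝ) < q.factorization ℓ := by
      rcases (Nat.eq_zero_or_pos (q.factorization ℓ)) with h | h
      · rw [h] at h2
        have : (0 : ℝ) ≤ (p.factorization ℓ : ℝ) * log q := by positivity
        simp at h2; linarith
      · exact_mod_cast h
    rw [div_lt_div_iff₀ h3 hlq]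
    linarith)
  refine ⟨s, h1, by rwa [lt_div_iff₀ hlq] at h2, ?_⟩
  intro ℓ hℓ
  have h4 : 0 < q.factorization ℓ := by
    rcases (Nat.eq_zero_or_pos (q.factorization ℓ)) with h | h
    · rw [h] at hℓ
      have : (0 : ℝ) ≤ (p.factorization ℓ : ℝ) * log q := by positivity
      simp at hℓ; linarith
    · exact h
  have h5 : ℓ ∈ q.primeFactors := by
    rw [← Nat.support_factorization, Finsupp.mem_support_iff]; omega
  have h6 := h3 _ (Finset.mem_image_of_mem (fun ℓ => (p.factorization ℓ : ℝ) / q.factorization ℓ)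
    (Finset.mem_filter.mpr ⟨h5, hℓ⟩))
  have h7 : (0 : ℝ) < q.factorization ℓ := by exact_mod_cast h4
  rwa [div_le_iff₀ h7] at h6

lemma dvd_lcm_of_slopes {p q : ℕ} (hp : 2 ≤ p) (hq : 2 ≤ q) (hirr : Irrational (log p / log q))
    {s s' : ℝ}
    (h1 : ∀ ℓ : ℕ, (p.factorization ℓ : ℝ) * log q < (q.factorization ℓ : ℝ) * log p →
        (p.factorization ℓ : ℝ) ≤ s * q.factorization ℓ)
    (h2 : ∀ ℓ : ℕ, (q.factorization ℓ : ℝ) * log p < (p.factorization ℓ : ℝ) * log q →
        (q.factorization ℓ : ℝ) ≤ s' * p.factorization ℓ) (a b a2 b2 : ℕ)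
    (ha : s * a ≤ a2) (hb : s' * b ≤ b2) :
    p ^ a * q ^ b ∣ Nat.lcm (p ^ (b2 + a)) (q ^ (a2 + b)) := by
  have hp0 : p ≠ 0 := by omega
  have hq0 : q ≠ 0 := by omega
  rw [← Nat.factorization_le_iff_dvd (by positivity)
    (Nat.lcm_ne_zero (pow_ne_zero _ hp0) (pow_ne_zero _ hq0))]
  rw [Nat.factorization_lcm (pow_ne_zero _ hp0) (pow_ne_zero _ hq0),
    Nat.factorization_mul (pow_ne_zero _ hp0) (pow_ne_zero _ hq0)]
  simp only [Nat.factorization_pow]
  intro ℓ
  simp only [Finsupp.coe_add, Finsupp.coe_smul, Pi.add_apply, Pi.smul_apply, smul_eq_mul,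
    Finsupp.sup_apply]
  by_cases h0 : p.factorization ℓ ≠ 0 ∨ q.factorization ℓ ≠ 0
  · rcases lt_or_gt_of_ne (indep_ne hp hq hirr ℓ h0) with h | h
    · refine le_max_of_le_right ?_
      have h3 := h1 ℓ h
      have h4 : (a : ℝ) * p.factorization ℓ ≤ a2 * q.factorization ℓ := by
        calc (a : ℝ) * p.factorization ℓ ≤ a * (s * q.factorization ℓ) :=
              mul_le_mul_of_nonneg_left h3 (Nat.cast_nonneg _)
          _ = (s * a) * q.factorization ℓ := by ring
          _ ≤ a2 * q.factorization ℓ := mul_le_mul_of_nonneg_right ha (Nat.cast_nonneg _)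
      have h5 : a * p.factorization ℓ ≤ a2 * q.factorization ℓ := by exact_mod_cast h4
      rw [add_mul]; omega
    · refine le_max_of_le_left ?_
      have h3 := h2 ℓ h
      have h4 : (b : ℝ) * q.factorization ℓ ≤ b2 * p.factorization ℓ := by
        calc (b : ℝ) * q.factorization ℓ ≤ b * (s' * p.factorization ℓ) :=
              mul_le_mul_of_nonneg_left h3 (Nat.cast_nonneg _)
          _ = (s' * b) * p.factorization ℓ := by ring
          _ ≤ b2 * p.factorization ℓ := mul_le_mul_of_nonneg_right hb (Nat.cast_nonneg _)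
      have h5 : b * q.factorization ℓ ≤ b2 * p.factorization ℓ := by exact_mod_cast h4
      rw [add_mul]; omega
  · rw [not_or, not_not, not_not] at h0
    rw [h0.1, h0.2]; simp

lemma scales_general {p q : ℕ} (hp : 2 ≤ p) (hq : 2 ≤ q) (hirr : Irrational (log p / log q))
    {r : ℝ} (hrp : ((p : ℝ) + 1) * r ≤ 1) (hrq : ((q : ℝ) + 1) * r ≤ 1) :
    ∃ (C : ℕ) (c : ℝ), 3 ≤ C ∧ 0 < c ∧ Scales p q r C c := by
  have hlq : 0 < log q := log_pos (by exact_mod_cast (by omega : 1 < q))
  have hlp : 0 < log p := log_pos (by exact_mod_cast (by omega : 1 < p))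
  obtain ⟨s, hs0, hs1, hs2⟩ := slopes hp hq
  obtain ⟨s', hs0', hs1', hs2'⟩ := slopes hq hp
  obtain ⟨k1, hk1⟩ := exists_nat_gt (log p / (log p - s * log q))
  obtain ⟨k2, hk2⟩ := exists_nat_gt (log q / (log q - s' * log p))
  set k := k1 + k2 + 1 with hk
  have hkpos : (0 : ℝ) < k := by rw [hk]; positivity
  have hA : log p ≤ k * (log p - s * log q) := by
    have h1 : log p < k1 * (log p - s * log q) := by
      rwa [div_lt_iff₀ (by linarith)] at hk1
    have h2 : (k1 : ℝ) * (log p - s * log q) ≤ k * (log p - s * log q) := by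
      apply mul_le_mul_of_nonneg_right _ (by linarith)
      rw [hk]; push_cast; have : (0:ℝ) ≤ k2 := Nat.cast_nonneg _; linarith
    linarith
  have hB : log q ≤ k * (log q - s' * log p) := by
    have h1 : log q < k2 * (log q - s' * log p) := by
      rwa [div_lt_iff₀ (by linarith)] at hk2
    have h2 : (k2 : ℝ) * (log q - s' * log p) ≤ k * (log q - s' * log p) := by
      apply mul_le_mul_of_nonneg_right _ (by linarith)
      rw [hk]; push_cast; have : (0:ℝ) ≤ k1 := Nat.cast_nonneg _; linarith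
    linarith
  refine ⟨2 * k + 3, (k + 1) * (log p + log q), by omega, by positivity, ?_⟩
  intro R hR N hG
  -- iterate step2
  have hit : ∀ i : ℕ, G p q r ((2 * i + 1) * R + i * (log p + log q)) ((2 * i + 1) * N) := by
    intro i
    induction i with
    | zero => simpa using hG
    | succ i ih =>
      have h := step2 hp hq hrp hrq hR (Rb := (2 * i + 1) * R + i * (log p + log q)) (by
        have : (0:ℝ) ≤ i := Nat.cast_nonneg _
        nlinarith [mul_nonneg this hR, mul_nonneg this (add_pos hlp hlq).le]) ih hG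
      exact G_mono h (by push_cast; linarith) (by nlinarith)
  have hb := hit k
  set Rb : ℝ := (2 * k + 1) * R + k * (log p + log q) with hRb
  have hRb1 : R ≤ Rb := by
    rw [hRb]; nlinarith [mul_nonneg hkpos.le hR, mul_nonneg hkpos.le (add_pos hlp hlq).le]
  obtain ⟨a, ha1, ha2⟩ := exists_mult hlp (ρ := Rb + R) (by linarith)
  obtain ⟨b, hb1, hb2⟩ := exists_mult hlq (ρ := Rb + R) (by linarith)
  set a2 := ⌈s * a⌉₊ with ha2'
  set b2 := ⌈s' * b⌉₊ with hb2'
  have ea2 : s * a ≤ a2 := Nat.le_ceil _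
  have eb2 : s' * b ≤ b2 := Nat.le_ceil _
  have ea2' : (a2 : ℝ) < s * a + 1 := Nat.ceil_lt_add_one (by positivity)
  have eb2' : (b2 : ℝ) < s' * b + 1 := Nat.ceil_lt_add_one (by positivity)
  -- k * (s log q) ≤ (k-1) log p
  have key1 : k * (a2 * log q) ≤ (k - 1) * (a * log p) + k * log q := by
    have h1 : (a2 : ℝ) * log q ≤ (s * a + 1) * log q := mul_le_mul_of_nonneg_right ea2'.le hlq.le
    have h2 := mul_le_mul_of_nonneg_left h1 hkpos.le
    have h3 := mul_le_mul_of_nonneg_left hA (Nat.cast_nonneg a : (0 : ℝ) ≤ a)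
    nlinarith
  have key2 : k * (b2 * log p) ≤ (k - 1) * (b * log q) + k * log p := by
    have h1 : (b2 : ℝ) * log p ≤ (s' * b + 1) * log p := mul_le_mul_of_nonneg_right eb2'.le hlp.le
    have h2 := mul_le_mul_of_nonneg_left h1 hkpos.le
    have h3 := mul_le_mul_of_nonneg_left hB (Nat.cast_nonneg b : (0 : ℝ) ≤ b)
    nlinarith
  have hk1' : (1 : ℝ) ≤ k := by rw [hk]; push_cast; have : (0:ℝ) ≤ k1 := Nat.cast_nonneg _; have : (0:ℝ) ≤ k2 := Nat.cast_nonneg _; linarith
  have hρ : Rb + R = (2 * k + 2) * R + k * (log p + log q) := by rw [hRb]; ring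
  have e1 : (2 * (k : ℝ) + 2) * R + k * (log p + log q)
      = 2 * (k * R) + 2 * R + k * log p + k * log q := by ring
  have p1 : 0 ≤ k * R := mul_nonneg hkpos.le hR
  have p2 : 0 < k * log p := mul_pos hkpos hlp
  have p3 : 0 < k * log q := mul_pos hkpos hlq
  have hqa : q ^ a2 ≤ p ^ a := by
    have : ((q : ℝ)) ^ a2 ≤ (p : ℝ) ^ a := by
      rw [← log_le_log_iff (by positivity) (by positivity), log_pow, log_pow]
      have h1 : k * log q ≤ a * log p := by
        rw [hρ, e1] at ha1; linarith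
      have h2 : k * (a2 * log q) ≤ k * (a * log p) := by linarith
      exact le_of_mul_le_mul_left h2 hkpos
    exact_mod_cast this
  have hpb : p ^ b2 ≤ q ^ b := by
    have : ((p : ℝ)) ^ b2 ≤ (q : ℝ) ^ b := by
      rw [← log_le_log_iff (by positivity) (by positivity), log_pow, log_pow]
      have h1 : k * log p ≤ b * log q := by
        rw [hρ, e1] at hb1; linarith
      have h2 : k * (b2 * log p) ≤ k * (b * log q) := by linarith
      exact le_of_mul_le_mul_left h2 hkpos
    exact_mod_cast this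
  have hsep1 : 2 * R < ((b : ℝ) - a2) * log q := by
    have h1 : k * (2 * R) < k * (((b : ℝ) - a2) * log q) := by
      have h2 : (k - 1) * (a * log p) ≤ (k - 1) * (Rb + R + log p) :=
        mul_le_mul_of_nonneg_left ha2 (by linarith)
      have h3 : k * (Rb + R) < k * (b * log q) := mul_lt_mul_of_pos_left hb1 hkpos
      have h4 : k * (((b : ℝ) - a2) * log q) = k * (b * log q) - k * (a2 * log q) := by ring
      have h5 : k * (Rb + R) - ((k - 1) * (Rb + R + log p) + k * log q)
          = (Rb + R) - k * log p + log p - k * log q := by ring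
      have h6 : Rb + R - k * log p + log p - k * log q = 2 * (k * R) + 2 * R + log p := by
        rw [hρ, e1]; ring
      linarith
    exact lt_of_mul_lt_mul_left h1 hkpos.le
  have hsep2 : 2 * R < ((a : ℝ) - b2) * log p := by
    have h1 : k * (2 * R) < k * (((a : ℝ) - b2) * log p) := by
      have h2 : (k - 1) * (b * log q) ≤ (k - 1) * (Rb + R + log q) :=
        mul_le_mul_of_nonneg_left hb2 (by linarith)
      have h3 : k * (Rb + R) < k * (a * log p) := mul_lt_mul_of_pos_left ha1 hkpos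
      have h4 : k * (((a : ℝ) - b2) * log p) = k * (a * log p) - k * (b2 * log p) := by ring
      have h5 : k * (Rb + R) - ((k - 1) * (Rb + R + log q) + k * log p)
          = (Rb + R) - k * log q + log q - k * log p := by ring
      have h6 : Rb + R - k * log q + log q - k * log p = 2 * (k * R) + 2 * R + log q := by
        rw [hρ, e1]; ring
      linarith
    exact lt_of_mul_lt_mul_left h1 hkpos.le
  have h := step3 hp hq hrp hrq hR hRb1 a b a2 b2 ha1 ha2 hb1 hb2 hqa hpb
    (dvd_lcm_of_slopes hp hq hirr hs2 hs2' a b a2 b2 ea2 eb2) hsep1 hsep2 hb hG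
  refine G_mono h (by rw [hRb]; push_cast; linarith) ?_
  nlinarith

lemma growth {p q : ℕ} {r : ℝ} {C : ℕ} {c : ℝ} (hC : 2 ≤ C) (hc : 0 ≤ c)
    (h : Scales p q r C c) (j : ℕ) : G p q r (c * (C ^ j - 1)) ((C + 1) ^ j) := by
  induction j with
  | zero => simpa using G_zero
  | succ j ih =>
    have hCR : (2 : ℝ) ≤ C := by exact_mod_cast hC
    have h1 : (1 : ℝ) ≤ (C : ℝ) ^ j := one_le_pow₀ (by linarith)
    have h2 := h _ (mul_nonneg hc (by linarith)) _ ih
    refine G_mono h2 ?_ (by rw [pow_succ']) 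
    rw [pow_succ']
    nlinarith [mul_nonneg hc (by linarith : (0 : ℝ) ≤ (C : ℝ) - 2)]

end Pool.Agent.H706R2
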