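import Mathlib
import Pool.Agent.H706R2.NonConc4

set_option autoImplicit false

open MeasureTheory Real

namespace Pool.Agent.H706R2

lemma norm_coe_eq_dZ (x : ℝ) : ‖(x : UnitAddCircle)‖ = dZ x := by
  rw [UnitAddCircle.norm_eq]; rfl

/-- a point at distance at least `exp (-t)` from the integers becomes far after at most
`t / log p` multiplications by `p`. -/
lemma escape {p : ℕ} (hp : 2 ≤ p) {r z t : ℝ} (hr : ((p : ℝ) + 1) * r ≤ 1)
    (hz : exp (-t) ≤ dZ z) {I : ℕ} (hI : t ≤ I * log p) :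
    ∃ i ≤ I, r ≤ dZ ((p : ℝ) ^ i * z) := by
  by_contra hcon
  push Not at hcon
  have h1 := round_run hr I hcon
  have h2 := hcon I le_rfl
  unfold dZ at h2 hz
  rw [h1] at h2
  have hpR : (2 : ℝ) ≤ p := by exact_mod_cast hp
  have e : (p : ℝ) ^ I * z - (((p : ℤ) ^ I * round z : ℤ) : ℝ) = (p : ℝ) ^ I * (z - round z) := by
    push_cast; ring
  rw [e, abs_mul, abs_of_nonneg (by positivity)] at h2
  have h3 : exp t ≤ (p : ℝ) ^ I := by
    rw [← log_le_log_iff (exp_pos t) (by positivity), log_exp, log_pow]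
    exact hI
  have h4 : 1 ≤ (p : ℝ) ^ I * |z - round z| := by
    calc (1 : ℝ) = exp t * exp (-t) := by rw [← exp_add]; simp
      _ ≤ (p : ℝ) ^ I * |z - round z| := mul_le_mul h3 hz (exp_pos _).le (by positivity)
  have h5 : r ≤ 1 := by nlinarith
  linarith

lemma count_far {p q : ℕ} (hp : 2 ≤ p) (hq : 2 ≤ q) {r R t : ℝ} {N : ℕ}
    (hrp : ((p : ℝ) + 1) * r ≤ 1) (hG : G p q r R N) {A B I : ℕ} (hA : R < (A + 1) * log p)
    (hB : R < (B + 1) * log q) (hI : t ≤ I * log p) (y : UnitAddCircle)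
    (hy : exp (-t) ≤ ‖(p ^ A * q ^ B) • y‖) :
    N ≤ ((Finset.range (2 * A + I + 1) ×ˢ Finset.range (2 * B + 1)).filter
      (fun u => r ≤ ‖(p ^ u.1 * q ^ u.2) • y‖)).card := by
  have hlq : 0 < log q := log_pos (by exact_mod_cast (by omega : 1 < q))
  have hlp : 0 < log p := log_pos (by exact_mod_cast (by omega : 1 < p))
  have hpR : (p : ℝ) ≠ 0 := by positivity
  have hqR : (q : ℝ) ≠ 0 := by positivity
  obtain ⟨y', rfl⟩ := QuotientAddGroup.mk_surjective y
  have hsm : ∀ n : ℕ, n • ((y' : ℝ) : UnitAddCircle) = ((n * y' : ℝ) : UnitAddCircle) := by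
    intro n
    rw [← AddCircle.coe_nsmul, nsmul_eq_mul]
  change exp (-t) ≤ ‖(p ^ A * q ^ B) • ((y' : ℝ) : UnitAddCircle)‖ at hy
  rw [hsm, norm_coe_eq_dZ] at hy
  obtain ⟨i, hi, hfar⟩ := escape hp hrp hy hI
  obtain ⟨S, hS1, hS2⟩ := hG _ hfar
  set θ : ℝ := (p : ℝ) ^ i * (((p ^ A * q ^ B : ℕ) : ℝ) * y') with hθ
  have hb1 : ∀ c ∈ S, |c.1| ≤ (A : ℤ) := by
    intro c hc
    have h1 := (hS2 c hc).2.1
    have h2 : |(c.1 : ℝ)| * log p < (A + 1) * log p := lt_of_le_of_lt h1 hA
    have h3 : |(c.1 : ℝ)| < A + 1 := lt_of_mul_lt_mul_right h2 hlp.le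
    have h4 : |c.1| < (A : ℤ) + 1 := by exact_mod_cast h3
    omega
  have hb2 : ∀ c ∈ S, |c.2| ≤ (B : ℤ) := by
    intro c hc
    have h1 := (hS2 c hc).2.2
    have h2 : |(c.2 : ℝ)| * log q < (B + 1) * log q := lt_of_le_of_lt h1 hB
    have h3 : |(c.2 : ℝ)| < B + 1 := lt_of_mul_lt_mul_right h2 hlq.le
    have h4 : |c.2| < (B : ℤ) + 1 := by exact_mod_cast h3
    omega
  refine hS1.trans ?_
  refine Finset.card_le_card_of_injOn (fun c => ((A + i + c.1).toNat, (B + c.2).toNat)) ?_ ?_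
  · intro c hc
    have hc' : c ∈ S := hc
    have h1 := abs_le.mp (hb1 c hc')
    have h2 := abs_le.mp (hb2 c hc')
    simp only [Finset.coe_filter, Set.mem_ofPred_eq, Finset.mem_product, Finset.mem_range]
    refine ⟨⟨by omega, by omega⟩, ?_⟩
    change r ≤ ‖(p ^ (A + i + c.1).toNat * q ^ (B + c.2).toNat) • ((y' : ℝ) : UnitAddCircle)‖
    rw [hsm, norm_coe_eq_dZ]
    have h3 := (hS2 c hc').1
    have e : X p q θ c
        = ((p ^ (A + i + c.1).toNat * q ^ (B + c.2).toNat : ℕ) : ℝ) * y' := by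
      unfold X
      rw [hθ]
      push_cast
      have e1 : (p : ℝ) ^ (A + i + c.1).toNat = (p : ℝ) ^ A * (p : ℝ) ^ i * (p : ℝ) ^ c.1 := by
        rw [← zpow_natCast, Int.toNat_of_nonneg (by omega), zpow_add₀ hpR, zpow_add₀ hpR,
          zpow_natCast, zpow_natCast]
      have e2 : (q : ℝ) ^ (B + c.2).toNat = (q : ℝ) ^ B * (q : ℝ) ^ c.2 := by
        rw [← zpow_natCast, Int.toNat_of_nonneg (by omega), zpow_add₀ hqR, zpow_natCast]
      rw [e1, e2]; ring
    rw [← e]; exact h3
  · intro c hc d hd hcd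
    have hc' : c ∈ S := hc
    have hd' : d ∈ S := hd
    have h1 := abs_le.mp (hb1 c hc')
    have h2 := abs_le.mp (hb2 c hc')
    have h3 := abs_le.mp (hb1 d hd')
    have h4 := abs_le.mp (hb2 d hd')
    simp only [Prod.mk.injEq] at hcd
    ext
    · omega
    · omega

lemma mp_pow {μ : Measure UnitAddCircle} {p : ℕ}
    (h : MeasurePreserving (fun x : UnitAddCircle => p • x) μ μ) (u : ℕ) :
    MeasurePreserving (fun x : UnitAddCircle => (p ^ u) • x) μ μ := by
  induction u with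
  | zero =>
    simp only [pow_zero, one_smul]
    exact MeasurePreserving.id μ
  | succ u ih =>
    have : (fun x : UnitAddCircle => (p ^ (u + 1)) • x)
        = (fun x : UnitAddCircle => p • x) ∘ (fun x : UnitAddCircle => (p ^ u) • x) := by
      funext x
      simp only [Function.comp]
      rw [pow_succ', mul_smul]
    rw [this]
    exact h.comp ih

lemma mp_pow2 {μ : Measure UnitAddCircle} {p q : ℕ}
    (hp : MeasurePreserving (fun x : UnitAddCircle => p • x) μ μ)
    (hq : MeasurePreserving (fun x : UnitAddCircle => q • x) μ μ) (u v : ℕ) :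
    MeasurePreserving (fun x : UnitAddCircle => (p ^ u * q ^ v) • x) μ μ := by
  have : (fun x : UnitAddCircle => (p ^ u * q ^ v) • x)
      = (fun x : UnitAddCircle => (p ^ u) • x) ∘ (fun x : UnitAddCircle => (q ^ v) • x) := by
    funext x
    simp only [Function.comp]
    rw [mul_smul]
  rw [this]
  exact (mp_pow hp u).comp (mp_pow hq v)

lemma measurable_norm_set (r : ℝ) : MeasurableSet {x : UnitAddCircle | r ≤ ‖x‖} :=
  (isClosed_le continuous_const continuous_norm).measurableSet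

lemma measure_ineq {p q : ℕ} (hp : 2 ≤ p) (hq : 2 ≤ q) {r R t : ℝ} {N : ℕ}
    (hrp : ((p : ℝ) + 1) * r ≤ 1) (hG : G p q r R N) {A B I : ℕ} (hA : R < (A + 1) * log p)
    (hB : R < (B + 1) * log q) (hI : t ≤ I * log p) (μ : Measure UnitAddCircle)
    [IsProbabilityMeasure μ]
    (hμp : MeasurePreserving (fun x : UnitAddCircle => p • x) μ μ)
    (hμq : MeasurePreserving (fun x : UnitAddCircle => q • x) μ μ) :
    (N : ℝ) * μ.real {x | exp (-t) ≤ ‖x‖} ≤
      ((2 * A + I + 1) * (2 * B + 1)) * μ.real {x | r ≤ ‖x‖} := by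
  set E : Set UnitAddCircle := {x | exp (-t) ≤ ‖x‖} with hE
  set F : Set UnitAddCircle := {x | r ≤ ‖x‖} with hF
  have hEm : MeasurableSet E := measurable_norm_set _
  have hFm : MeasurableSet F := measurable_norm_set _
  set P := Finset.range (2 * A + I + 1) ×ˢ Finset.range (2 * B + 1) with hP
  have key : (N : ENNReal) * μ E ≤ (P.card : ENNReal) * μ F := by
    have h1 : ∀ y : UnitAddCircle,
        ((fun x : UnitAddCircle => (p ^ A * q ^ B) • x) ⁻¹' E).indicator (fun _ => (N : ENNReal)) y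
        ≤ ∑ u ∈ P, ((fun x : UnitAddCircle => (p ^ u.1 * q ^ u.2) • x) ⁻¹' F).indicator
            (fun _ => (1 : ENNReal)) y := by
      intro y
      by_cases hy : y ∈ (fun x : UnitAddCircle => (p ^ A * q ^ B) • x) ⁻¹' E
      · rw [Set.indicator_of_mem hy]
        have h2 := count_far hp hq hrp hG hA hB hI y hy
        have h3 : ∑ u ∈ P, ((fun x : UnitAddCircle => (p ^ u.1 * q ^ u.2) • x) ⁻¹' F).indicator
            (fun _ => (1 : ENNReal)) y
            = ((P.filter (fun u => r ≤ ‖(p ^ u.1 * q ^ u.2) • y‖)).card : ENNReal) := by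
          rw [Finset.card_eq_sum_ones, Finset.sum_filter, Nat.cast_sum]
          refine Finset.sum_congr rfl (fun u _ => ?_)
          by_cases hu : r ≤ ‖(p ^ u.1 * q ^ u.2) • y‖
          · rw [Set.indicator_of_mem (by exact hu), if_pos hu]; simp
          · rw [Set.indicator_of_notMem (by exact hu), if_neg hu]; simp
        rw [h3]
        exact_mod_cast h2
      · rw [Set.indicator_of_notMem hy]; exact bot_le
    have h2 := lintegral_mono (μ := μ) h1
    rw [lintegral_indicator_const ((mp_pow2 hμp hμq A B).measurable hEm),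
      (mp_pow2 hμp hμq A B).measure_preimage hEm.nullMeasurableSet,
      lintegral_finsetSum _ (fun u _ => by
        exact (measurable_const.indicator ((mp_pow2 hμp hμq u.1 u.2).measurable hFm)))] at h2
    refine h2.trans ?_
    have h3 : ∀ u ∈ P, ∫⁻ y, ((fun x : UnitAddCircle => (p ^ u.1 * q ^ u.2) • x) ⁻¹' F).indicator
            (fun _ => (1 : ENNReal)) y ∂μ = μ F := by
      intro u _
      rw [lintegral_indicator_const ((mp_pow2 hμp hμq u.1 u.2).measurable hFm),
        (mp_pow2 hμp hμq u.1 u.2).measure_preimage hFm.nullMeasurableSet, one_mul]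
    rw [Finset.sum_congr rfl h3, Finset.sum_const, nsmul_eq_mul]
  have hcard : (P.card : ℝ) = (2 * A + I + 1) * (2 * B + 1) := by
    rw [hP, Finset.card_product, Finset.card_range, Finset.card_range]; push_cast; ring
  have h4 := ENNReal.toReal_mono (by finiteness) key
  rw [ENNReal.toReal_mul, ENNReal.toReal_mul, ENNReal.toReal_natCast, ENNReal.toReal_natCast,
    hcard] at h4
  exact h4

lemma main_of_scales {p q : ℕ} (hp : 2 ≤ p) (hq : 2 ≤ q) {r : ℝ}
    (hrp : ((p : ℝ) + 1) * r ≤ 1) {C : ℕ} {c : ℝ} (hC : 2 ≤ C) (hc : 0 ≤ c)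
    (hsc : Scales p q r C c) :
    ∃ D : ℝ, ∀ μ : Measure UnitAddCircle, IsProbabilityMeasure μ →
      MeasurePreserving (fun x : UnitAddCircle => p • x) μ μ →
      MeasurePreserving (fun x : UnitAddCircle => q • x) μ μ →
      ∀ t : ℝ, 1 ≤ t → μ.real {x | exp (-t) ≤ ‖x‖} ≤
        D * t ^ (2 - log (C + 1) / log C) * μ.real {x | r ≤ ‖x‖} := by
  have hlq : 0 < log q := log_pos (by exact_mod_cast (by omega : 1 < q))
  have hlp : 0 < log p := log_pos (by exact_mod_cast (by omega : 1 < p))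
  have hCR : (2 : ℝ) ≤ C := by exact_mod_cast hC
  have hlC : 0 < log (C : ℝ) := log_pos (by linarith)
  set K1 : ℝ := 2 * c / log p + 1 / log p + 2 with hK1
  set K2 : ℝ := 2 * c / log q + 1 with hK2
  have hK1p : 0 < K1 := by positivity
  have hK2p : 0 < K2 := by positivity
  refine ⟨(C + 1) * (K1 * K2), ?_⟩
  intro μ hμ hμp hμq t ht
  set j := ⌊log t / log C⌋₊ with hj
  have hlt : 0 ≤ log t := log_nonneg ht
  have hj1 : (C : ℝ) ^ j ≤ t := by
    have h1 : (j : ℝ) ≤ log t / log C := Nat.floor_le (by positivity)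
    rw [le_div_iff₀ hlC] at h1
    rw [← log_le_log_iff (by positivity) (by linarith), log_pow]
    exact h1
  have hj2 : log t < (j + 1) * log C := by
    have h1 := Nat.lt_floor_add_one (log t / log C)
    rwa [div_lt_iff₀ hlC] at h1
  set R : ℝ := c * (C ^ j - 1) with hR
  have hR0 : 0 ≤ R := mul_nonneg hc (by
    have : (1 : ℝ) ≤ (C : ℝ) ^ j := one_le_pow₀ (by linarith)
    linarith)
  have hR1 : R ≤ c * t := by
    rw [hR]; exact mul_le_mul_of_nonneg_left (by linarith) hc
  set A := ⌊R / log p⌋₊ with hA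
  set B := ⌊R / log q⌋₊ with hB
  set I := ⌈t / log p⌉₊ with hI
  have hA1 : R < (A + 1) * log p := by
    have := Nat.lt_floor_add_one (R / log p)
    rwa [div_lt_iff₀ hlp] at this
  have hB1 : R < (B + 1) * log q := by
    have := Nat.lt_floor_add_one (R / log q)
    rwa [div_lt_iff₀ hlq] at this
  have hI1 : t ≤ I * log p := by
    have := Nat.le_ceil (t / log p)
    rwa [div_le_iff₀ hlp] at this
  have hA2 : (A : ℝ) ≤ c * t / log p :=
    (Nat.floor_le (by positivity)).trans (div_le_div_of_nonneg_right hR1 hlp.le)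
  have hB2 : (B : ℝ) ≤ c * t / log q :=
    (Nat.floor_le (by positivity)).trans (div_le_div_of_nonneg_right hR1 hlq.le)
  have hI2 : (I : ℝ) ≤ t / log p + 1 := (Nat.ceil_lt_add_one (by positivity)).le
  have h1 := measure_ineq hp hq hrp (growth hC hc hsc j) hA1 hB1 hI1 μ hμp hμq
  have h2 : (2 * (A : ℝ) + I + 1) ≤ K1 * t := by
    have : K1 * t = 2 * (c * t / log p) + t / log p + 2 * t := by rw [hK1]; ring
    rw [this]; linarith
  have h3 : (2 * (B : ℝ) + 1) ≤ K2 * t := by
    have : K2 * t = 2 * (c * t / log q) + t := by rw [hK2]; ring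
    rw [this]; linarith
  have h4 : ((2 * (A : ℝ) + I + 1) * (2 * B + 1)) ≤ (K1 * t) * (K2 * t) :=
    mul_le_mul h2 h3 (by positivity) (by positivity)
  have hF0 : 0 ≤ μ.real {x : UnitAddCircle | r ≤ ‖x‖} := measureReal_nonneg
  set E := μ.real {x : UnitAddCircle | exp (-t) ≤ ‖x‖} with hEdef
  set F := μ.real {x : UnitAddCircle | r ≤ ‖x‖} with hFdef
  have h5 : (((C + 1) ^ j : ℕ) : ℝ) * E ≤ (K1 * K2) * t ^ 2 * F := by
    refine h1.trans ?_
    calc _ ≤ (K1 * t) * (K2 * t) * F := mul_le_mul_of_nonneg_right h4 hF0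
      _ = _ := by ring
  -- t ^ s ≤ (C+1)^(j+1)
  set s : ℝ := log (C + 1) / log C with hs
  have hlC1 : 0 < log ((C : ℝ) + 1) := log_pos (by linarith)
  have h6 : t ^ s ≤ ((C : ℝ) + 1) ^ (j + 1) := by
    rw [rpow_def_of_pos (by linarith), ← log_le_log_iff (exp_pos _) (by positivity), log_exp,
      log_pow]
    have h7 : log t * s ≤ ((j : ℝ) + 1) * log C * s :=
      mul_le_mul_of_nonneg_right hj2.le (by positivity)
    have h8 : ((j : ℝ) + 1) * log C * s = ((j : ℝ) + 1) * log (C + 1) := by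
      rw [hs]; field_simp
    push_cast
    linarith
  have h9 : t ^ s * E ≤ (C + 1) * ((K1 * K2) * t ^ 2 * F) := by
    have hE0 : 0 ≤ E := measureReal_nonneg
    calc t ^ s * E ≤ ((C : ℝ) + 1) ^ (j + 1) * E := mul_le_mul_of_nonneg_right h6 hE0
      _ = (C + 1) * ((((C + 1) ^ j : ℕ) : ℝ) * E) := by push_cast; ring
      _ ≤ _ := mul_le_mul_of_nonneg_left h5 (by positivity)
  have hts : 0 < t ^ s := rpow_pos_of_pos (by linarith) _
  have h10 : t ^ (2 - s) = t ^ 2 / t ^ s := by
    rw [rpow_sub (by linarith)]; norm_num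
  rw [h10]
  have h11 : E ≤ (C + 1) * ((K1 * K2) * t ^ 2 * F) / t ^ s := by
    rw [le_div_iff₀ hts]; linarith
  refine h11.trans (le_of_eq ?_)
  ring

end Pool.Agent.H706R2
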