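import Mathlib
import Pool.Agent.H706R2.NonConc5

set_option autoImplicit false

open MeasureTheory Real Filter

namespace Pool.Agent.H706R2

lemma pow_bracket {C : ℕ} (hC : 2 ≤ C) {t : ℝ} (ht : 1 ≤ t) :
    (C : ℝ) ^ ⌊log t / log C⌋₊ ≤ t ∧
    t ^ (log (C + 1) / log C) ≤ ((C : ℝ) + 1) ^ (⌊log t / log C⌋₊ + 1) := by
  have hCR : (2 : ℝ) ≤ C := by exact_mod_cast hC
  have hlC : 0 < log (C : ℝ) := log_pos (by linarith)
  set j := ⌊log t / log C⌋₊ with hj
  have hlt : 0 ≤ log t := log_nonneg ht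
  refine ⟨?_, ?_⟩
  · have h1 : (j : ℝ) ≤ log t / log C := Nat.floor_le (by positivity)
    rw [le_div_iff₀ hlC] at h1
    rw [← log_le_log_iff (by positivity) (by linarith), log_pow]
    exact h1
  · have hj2 : log t < (j + 1) * log C := by
      have h1 := Nat.lt_floor_add_one (log t / log C)
      rwa [div_lt_iff₀ hlC] at h1
    set s : ℝ := log (C + 1) / log C with hs
    have hlC1 : 0 < log ((C : ℝ) + 1) := log_pos (by linarith)
    rw [rpow_def_of_pos (by linarith), ← log_le_log_iff (exp_pos _) (by positivity), log_exp,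
      log_pow]
    have h7 : log t * s ≤ ((j : ℝ) + 1) * log C * s :=
      mul_le_mul_of_nonneg_right hj2.le (by positivity)
    have h8 : ((j : ℝ) + 1) * log C * s = ((j : ℝ) + 1) * log (C + 1) := by
      rw [hs]; field_simp
    push_cast
    linarith

/-- Far cells in the quadrant for points which are not too well approximable. -/
lemma far_count {p q : ℕ} (hp : 2 ≤ p) (hq : 2 ≤ q) {r : ℝ} (hrp : ((p : ℝ) + 1) * r ≤ 1)
    {C : ℕ} {c : ℝ} (hC : 2 ≤ C) (hc : 0 < c) (hsc : Scales p q r C c) (y : UnitAddCircle)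
    {C1 : ℝ} (hC1 : 0 ≤ C1)
    (hy : ∀ m n : ℕ, exp (-(C1 * (m + n + 1))) ≤ ‖(p ^ m * q ^ n) • y‖) :
    ∃ c' : ℝ, 0 < c' ∧ ∀ᶠ M : ℕ in atTop, c' * (M : ℝ) ^ (log (C + 1) / log C) ≤
      (((Finset.range M ×ˢ Finset.range M).filter
        (fun u => r ≤ ‖(p ^ u.1 * q ^ u.2) • y‖)).card : ℝ) := by
  have hlq : 0 < log q := log_pos (by exact_mod_cast (by omega : 1 < q))
  have hlp : 0 < log p := log_pos (by exact_mod_cast (by omega : 1 < p))
  have hCR : (2 : ℝ) ≤ C := by exact_mod_cast hC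
  have hlC : 0 < log (C : ℝ) := log_pos (by linarith)
  set s : ℝ := log (C + 1) / log C with hs
  have hs0 : 0 < s := div_pos (log_pos (by linarith)) hlC
  set l : ℝ := min (log p) (log q) with hl
  have hl0 : 0 < l := lt_min hlp hlq
  obtain ⟨K, hK⟩ := exists_nat_gt (3 + 2 * C1 / log p)
  have hK0 : (0 : ℝ) < K := lt_trans (by positivity) hK
  have hK0' : 0 < K := by exact_mod_cast hK0
  set w : ℝ := l / c with hw
  have hw0 : 0 < w := div_pos hl0 hc
  refine ⟨(w / (2 * K)) ^ s / (C + 1), by positivity, ?_⟩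
  -- thresholds
  obtain ⟨N1, hN1⟩ := exists_nat_gt (C1 / log p + 3)
  obtain ⟨N2, hN2⟩ := exists_nat_gt (1 / w)
  filter_upwards [eventually_ge_atTop (K * (N1 + N2 + 1))] with M hM
  set M' := M / K with hM'
  have hM'1 : N1 + N2 + 1 ≤ M' := by
    rw [hM', Nat.le_div_iff_mul_le hK0']
    rw [mul_comm]; exact hM
  have hM'K : M' * K ≤ M := Nat.div_mul_le_self M K
  have hM'2 : M < (M' + 1) * K := by
    rw [hM']; exact (Nat.div_lt_iff_lt_mul hK0').mp (Nat.lt_succ_self _)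
  have hM'R : ((N1 : ℝ) + N2 + 1) ≤ M' := by exact_mod_cast hM'1
  have hN1nn : (0 : ℝ) ≤ N1 := Nat.cast_nonneg _
  have hN2nn : (0 : ℝ) ≤ N2 := Nat.cast_nonneg _
  -- scale
  have ht1 : 1 ≤ w * M' := by
    have h1 : 1 / w < M' := by linarith
    rw [div_lt_iff₀ hw0] at h1
    linarith
  obtain ⟨hj1, hj2⟩ := pow_bracket hC ht1
  set j := ⌊log (w * M') / log C⌋₊ with hj
  have hG := growth hC hc.le hsc j
  set R : ℝ := c * (C ^ j - 1) with hR
  have hRle : R ≤ l * M' := by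
    have h1 : R ≤ c * (w * M') := by
      rw [hR]; exact mul_le_mul_of_nonneg_left (by linarith) hc.le
    have h2 : c * (w * M') = l * M' := by rw [hw]; field_simp
    linarith
  have hA : R < (M' + 1) * log p := by
    have h1 : l * M' ≤ log p * M' := mul_le_mul_of_nonneg_right (min_le_left _ _) (Nat.cast_nonneg _)
    linarith
  have hB : R < (M' + 1) * log q := by
    have h1 : l * M' ≤ log q * M' := mul_le_mul_of_nonneg_right (min_le_right _ _) (Nat.cast_nonneg _)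
    linarith
  set t : ℝ := C1 * (M' + M' + 1) with ht
  have ht0 : 0 ≤ t := by positivity
  set I := ⌈t / log p⌉₊ with hI
  have hI1 : t ≤ I * log p := by
    have := Nat.le_ceil (t / log p)
    rwa [div_le_iff₀ hlp] at this
  have hI2 : (I : ℝ) < t / log p + 1 := Nat.ceil_lt_add_one (by positivity)
  have hcnt := count_far hp hq hrp hG hA hB hI1 y (hy M' M')
  have hfit : 2 * M' + I + 1 ≤ M := by
    have h1 : (2 * (M' : ℝ) + I + 1) < M := by
      have h2 : t / log p = 2 * C1 / log p * M' + C1 / log p := by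
        rw [ht]; field_simp; ring
      have h3 : (M' : ℝ) * K ≤ M := by exact_mod_cast hM'K
      have h4 : (M' : ℝ) * (3 + 2 * C1 / log p) ≤ M' * K :=
        mul_le_mul_of_nonneg_left hK.le (Nat.cast_nonneg _)
      have h5 : (M' : ℝ) * (3 + 2 * C1 / log p) = 3 * M' + 2 * C1 / log p * M' := by ring
      linarith
    exact_mod_cast h1.le
  have hfit2 : 2 * M' + 1 ≤ M := by omega
  have hsub : ((Finset.range (2 * M' + I + 1) ×ˢ Finset.range (2 * M' + 1)).filter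
      (fun u => r ≤ ‖(p ^ u.1 * q ^ u.2) • y‖)).card ≤
      ((Finset.range M ×ˢ Finset.range M).filter
        (fun u => r ≤ ‖(p ^ u.1 * q ^ u.2) • y‖)).card := by
    refine Finset.card_le_card (Finset.filter_subset_filter _ (Finset.product_subset_product ?_ ?_))
    · exact Finset.range_subset_range.mpr hfit
    · exact Finset.range_subset_range.mpr hfit2
  have h6 : ((C : ℝ) + 1) ^ j ≤ (((Finset.range M ×ˢ Finset.range M).filter
        (fun u => r ≤ ‖(p ^ u.1 * q ^ u.2) • y‖)).card : ℝ) := by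
    have := hcnt.trans hsub
    exact_mod_cast this
  refine le_trans ?_ h6
  have h7 : (w / (2 * K)) ^ s * (M : ℝ) ^ s ≤ (w * M') ^ s := by
    rw [← mul_rpow (by positivity) (by positivity)]
    refine rpow_le_rpow (by positivity) ?_ hs0.le
    have h8 : (M : ℝ) ≤ (M' + 1) * K := by exact_mod_cast hM'2.le
    have h9 : (1 : ℝ) ≤ M' := by linarith
    have h10 : (M : ℝ) ≤ 2 * K * M' := by nlinarith
    calc w / (2 * K) * M ≤ w / (2 * K) * (2 * K * M') :=
          mul_le_mul_of_nonneg_left h10 (by positivity)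
      _ = w * M' := by field_simp
  have h11 : (w / (2 * K)) ^ s / (C + 1) * (M : ℝ) ^ s
      = (w / (2 * K)) ^ s * (M : ℝ) ^ s / (C + 1) := by ring
  rw [h11, div_le_iff₀ (by positivity)]
  calc (w / (2 * K)) ^ s * (M : ℝ) ^ s ≤ (w * M') ^ s := h7
    _ ≤ ((C : ℝ) + 1) ^ (j + 1) := hj2
    _ = ((C : ℝ) + 1) ^ j * (C + 1) := by ring

/-- the `(i+1)`-st base-`b` digit after the point of `y` -/
noncomputable def dig (b : ℕ) (y : ℝ) (i : ℕ) : ℤ := ⌊(b : ℝ) ^ (i + 1) * y⌋ % b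

lemma dig_eq {b : ℕ} (hb : 2 ≤ b) (y : ℝ) (i : ℕ) :
    (b : ℝ) * Int.fract ((b : ℝ) ^ i * y) = dig b y i + Int.fract ((b : ℝ) ^ (i + 1) * y) ∧
    0 ≤ dig b y i ∧ dig b y i < b := by
  have hb0 : (b : ℤ) ≠ 0 := by omega
  refine ⟨?_, Int.emod_nonneg _ hb0, Int.emod_lt_of_pos _ (by omega)⟩
  have e1 : (b : ℝ) ^ (i + 1) * y
      = ((b : ℤ) * ⌊(b : ℝ) ^ i * y⌋ : ℤ) + (b : ℝ) * Int.fract ((b : ℝ) ^ i * y) := by
    rw [pow_succ, mul_comm ((b : ℝ) ^ i) (b : ℝ), mul_assoc]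
    push_cast
    rw [← mul_add, Int.floor_add_fract]
  have h1 : 0 ≤ Int.fract ((b : ℝ) ^ i * y) := Int.fract_nonneg _
  have h2 : Int.fract ((b : ℝ) ^ i * y) < 1 := Int.fract_lt_one _
  have hbR : (0 : ℝ) < b := by positivity
  have h3 : ⌊(b : ℝ) ^ (i + 1) * y⌋ = (b : ℤ) * ⌊(b : ℝ) ^ i * y⌋
      + ⌊(b : ℝ) * Int.fract ((b : ℝ) ^ i * y)⌋ := by
    rw [e1, Int.floor_intCast_add]
  have h4 : 0 ≤ ⌊(b : ℝ) * Int.fract ((b : ℝ) ^ i * y)⌋ := by
    rw [Int.floor_nonneg]; positivity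
  have h5 : ⌊(b : ℝ) * Int.fract ((b : ℝ) ^ i * y)⌋ < b := by
    rw [Int.floor_lt]; push_cast; nlinarith
  have h6 : dig b y i = ⌊(b : ℝ) * Int.fract ((b : ℝ) ^ i * y)⌋ := by
    unfold dig
    rw [h3, Int.add_comm, Int.add_mul_emod_self_left, Int.emod_eq_of_lt h4 h5]
  have h7 : Int.fract ((b : ℝ) ^ (i + 1) * y) = Int.fract ((b : ℝ) * Int.fract ((b : ℝ) ^ i * y)) := by
    rw [e1, Int.fract_intCast_add]
  rw [h6, h7, Int.floor_add_fract]

/-- a run of equal digits -/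
lemma run_near {b : ℕ} (hb : 2 ≤ b) (y : ℝ) (u : ℕ) (d : ℤ) (L : ℕ)
    (h : ∀ i, u ≤ i → i < u + L → dig b y i = d) :
    ((b : ℝ) - 1) * Int.fract ((b : ℝ) ^ u * y) - d =
      (((b : ℝ) - 1) * Int.fract ((b : ℝ) ^ (u + L) * y) - d) / (b : ℝ) ^ L := by
  have hbR : (b : ℝ) ≠ 0 := by positivity
  induction L with
  | zero => simp
  | succ L ih =>
    rw [ih (fun i h1 h2 => h i h1 (by omega))]
    obtain ⟨h1, _, _⟩ := dig_eq hb y (u + L)
    rw [h (u + L) (by omega) (by omega)] at h1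
    have h2 : Int.fract ((b : ℝ) ^ (u + L) * y) = (d + Int.fract ((b : ℝ) ^ (u + L + 1) * y)) / b := by
      rw [← h1]; field_simp
    rw [h2, show u + (L + 1) = u + L + 1 by ring]
    field_simp
    ring

lemma near_of_run {b : ℕ} (hb : 2 ≤ b) (y : ℝ) (u L : ℕ)
    (h : ∀ i, u ≤ i → i < u + L → dig b y i = dig b y (i + 1)) :
    dZ ((b : ℝ) ^ u * (((b : ℝ) - 1) * y)) < 1 / (b : ℝ) ^ L := by
  have hbR : (0 : ℝ) < b := by positivity
  have hb1 : (2 : ℝ) ≤ b := by exact_mod_cast hb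
  set d := dig b y u with hd
  have hall : ∀ i, u ≤ i → i < u + (L + 1) → dig b y i = d := by
    intro i hi hi'
    obtain ⟨k, rfl⟩ := Nat.exists_eq_add_of_le hi
    clear hi
    induction k with
    | zero => rfl
    | succ k ih =>
      have h1 := ih (by omega)
      have h2 := h (u + k) (by omega) (by omega)
      rw [show u + (k + 1) = u + k + 1 by ring, ← h2, h1]
  have h1 := run_near hb y u d (L + 1) hall
  obtain ⟨_, hd0, hdb⟩ := dig_eq hb y u
  have hd0' : (0 : ℝ) ≤ d := by exact_mod_cast hd0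
  have hdb' : (d : ℝ) ≤ b - 1 := by
    have : d ≤ (b : ℤ) - 1 := by omega
    exact_mod_cast this
  set f := Int.fract ((b : ℝ) ^ (u + (L + 1)) * y) with hf
  have hf0 : 0 ≤ f := Int.fract_nonneg _
  have hf1 : f < 1 := Int.fract_lt_one _
  have h2 : |((b : ℝ) - 1) * f - d| < b := by
    rw [abs_lt]
    constructor
    · nlinarith
    · nlinarith
  have h3 : |((b : ℝ) - 1) * Int.fract ((b : ℝ) ^ u * y) - d| < 1 / (b : ℝ) ^ L := by
    rw [h1, abs_div, abs_of_pos (by positivity : (0 : ℝ) < (b : ℝ) ^ (L + 1))]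
    rw [div_lt_div_iff₀ (by positivity) (by positivity), one_mul, pow_succ]
    have : 0 < (b : ℝ) ^ L := by positivity
    nlinarith
  have h4 := dZ_le_of_int ((b : ℝ) ^ u * (((b : ℝ) - 1) * y)) (((b : ℤ) - 1) * ⌊(b : ℝ) ^ u * y⌋ + d)
  refine lt_of_le_of_lt h4 ?_
  have e : (b : ℝ) ^ u * (((b : ℝ) - 1) * y) - ((((b : ℤ) - 1) * ⌊(b : ℝ) ^ u * y⌋ + d : ℤ) : ℝ)
      = ((b : ℝ) - 1) * Int.fract ((b : ℝ) ^ u * y) - d := by
    push_cast
    rw [Int.fract]
    ring
  rw [e]; exact h3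

end Pool.Agent.H706R2
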