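import Mathlib
import Pool.Agent.H706R2.DigitChange

set_option autoImplicit false

open MeasureTheory Real Filter Polynomial

namespace Pool.Agent.H706R2

lemma liouville_bound {y : ℝ} (hirr : Irrational y) (halg : IsAlgebraic ℚ y) {p q : ℕ}
    (hp : 2 ≤ p) (hq : 2 ≤ q) :
    ∃ C1 : ℝ, 0 ≤ C1 ∧ ∀ m n : ℕ,
      exp (-(C1 * (m + n + 1))) ≤ ‖(p ^ m * q ^ n) • ((y : ℝ) : UnitAddCircle)‖ := by
  have hlq : 0 < log q := log_pos (by exact_mod_cast (by omega : 1 < q))
  have hlp : 0 < log p := log_pos (by exact_mod_cast (by omega : 1 < p))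
  have halg' : IsAlgebraic ℤ y := (IsFractionRing.isAlgebraic_iff ℤ ℚ ℝ).mpr halg
  obtain ⟨f, f0, fy⟩ := halg'
  have fa : eval y (map (algebraMap ℤ ℝ) f) = 0 := by
    rwa [eval_map_algebraMap]
  obtain ⟨A, hA, hL⟩ := Liouville.exists_pos_real_of_irrational_root hirr f0 fa
  set d := f.natDegree with hd
  refine ⟨|log A| + d * (log p + log q), by positivity, ?_⟩
  intro m n
  have hsm : (p ^ m * q ^ n) • ((y : ℝ) : UnitAddCircle)
      = ((((p ^ m * q ^ n : ℕ) : ℝ) * y : ℝ) : UnitAddCircle) := by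
    rw [← AddCircle.coe_nsmul, nsmul_eq_mul]
  rw [hsm, norm_coe_eq_dZ]
  unfold dZ
  set N : ℕ := p ^ m * q ^ n with hN
  have hNpos : 0 < N := by positivity
  obtain ⟨b, hb⟩ : ∃ b : ℕ, N = b + 1 := ⟨N - 1, by omega⟩
  have hNR : (N : ℝ) = (b : ℝ) + 1 := by rw [hb]; push_cast; ring
  set a := round ((N : ℝ) * y) with ha
  have h1 := hL a b
  rw [← hNR] at h1
  have hN1 : (1 : ℝ) ≤ N := by exact_mod_cast hNpos
  have hNp : (0 : ℝ) < N := by linarith
  have h2 : |(N : ℝ) * y - a| = N * |y - a / N| := by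
    rw [← abs_of_pos hNp, ← abs_mul, abs_of_pos hNp]
    congr 1
    field_simp
  have h3 : 1 ≤ (N : ℝ) ^ d * A * |(N : ℝ) * y - a| := by
    rw [h2]
    calc (1 : ℝ) ≤ (N : ℝ) ^ d * (|y - a / N| * A) := h1
      _ = ((N : ℝ) ^ d * A * |y - a / N|) * 1 := by ring
      _ ≤ ((N : ℝ) ^ d * A * |y - a / N|) * N := mul_le_mul_of_nonneg_left hN1 (by positivity)
      _ = _ := by ring
  have h4 : (N : ℝ) ^ d * A ≤ exp ((|log A| + d * (log p + log q)) * (m + n + 1)) := by
    rw [← log_le_log_iff (by positivity) (exp_pos _), log_exp, log_mul (by positivity) hA.ne',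
      log_pow]
    have h5 : log (N : ℝ) = m * log p + n * log q := by
      rw [hN]; push_cast
      rw [log_mul (by positivity) (by positivity), log_pow, log_pow]
    rw [h5]
    have hm : (0 : ℝ) ≤ m := Nat.cast_nonneg _
    have hn : (0 : ℝ) ≤ n := Nat.cast_nonneg _
    have hdn : (0 : ℝ) ≤ d := Nat.cast_nonneg _
    have h6 : log A ≤ |log A| := le_abs_self _
    have e : (|log A| + d * (log p + log q)) * (m + n + 1)
        = d * (m * log p + n * log q) + |log A| + (|log A| * (m + n)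
          + d * (n * log p + m * log q + (log p + log q))) := by ring
    rw [e]
    have h7 : 0 ≤ |log A| * (m + n) + d * (n * log p + m * log q + (log p + log q)) := by
      positivity
    linarith
  rw [exp_neg, inv_le_iff_one_le_mul₀ (exp_pos _)]
  calc (1 : ℝ) ≤ (N : ℝ) ^ d * A * |(N : ℝ) * y - a| := h3
    _ ≤ exp ((|log A| + d * (log p + log q)) * (m + n + 1)) * |(N : ℝ) * y - a| :=
        mul_le_mul_of_nonneg_right h4 (abs_nonneg _)
    _ = _ := by ring

/-- counting digit changes from far cells -/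
lemma changes_lower {b q : ℕ} (hb : 2 ≤ b) {r : ℝ} {L : ℕ} (hL : 1 / (b : ℝ) ^ L ≤ r)
    (x : ℝ) (M : ℕ) :
    ((Finset.range M ×ˢ Finset.range M).filter
      (fun u => r ≤ ‖(b ^ u.1 * q ^ u.2) • ((((b : ℝ) - 1) * x : ℝ) : UnitAddCircle)‖)).card ≤
    L * ∑ n ∈ Finset.range (M + L), ((Finset.range (M + L)).filter
      (fun i => dig b ((q : ℝ) ^ n * x) i ≠ dig b ((q : ℝ) ^ n * x) (i + 1))).card := by
  classical
  set F := (Finset.range M ×ˢ Finset.range M).filter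
      (fun u => r ≤ ‖(b ^ u.1 * q ^ u.2) • ((((b : ℝ) - 1) * x : ℝ) : UnitAddCircle)‖) with hF
  set W : Finset (ℕ × ℕ) := (Finset.range (M + L) ×ˢ Finset.range (M + L)).filter
      (fun u => dig b ((q : ℝ) ^ u.2 * x) u.1 ≠ dig b ((q : ℝ) ^ u.2 * x) (u.1 + 1)) with hW
  have hWcard : W.card = ∑ n ∈ Finset.range (M + L), ((Finset.range (M + L)).filter
      (fun i => dig b ((q : ℝ) ^ n * x) i ≠ dig b ((q : ℝ) ^ n * x) (i + 1))).card := by
    rw [hW, Finset.card_filter, Finset.sum_product_right]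
    refine Finset.sum_congr rfl (fun n _ => ?_)
    rw [Finset.card_filter]
  rw [← hWcard]
  -- every far cell has a change nearby
  have hex : ∀ u ∈ F, ∃ k < L, (u.1 + k, u.2) ∈ W := by
    intro u hu
    rw [hF, Finset.mem_filter, Finset.mem_product, Finset.mem_range, Finset.mem_range] at hu
    obtain ⟨⟨hu1, hu2⟩, hfar⟩ := hu
    by_contra hcon
    push Not at hcon
    have hrun : ∀ i, u.1 ≤ i → i < u.1 + L →
        dig b ((q : ℝ) ^ u.2 * x) i = dig b ((q : ℝ) ^ u.2 * x) (i + 1) := by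
      intro i hi hi'
      obtain ⟨k, rfl⟩ := Nat.exists_eq_add_of_le hi
      have h1 := hcon k (by omega)
      rw [hW, Finset.mem_filter] at h1
      by_contra hne
      apply h1
      refine ⟨?_, hne⟩
      rw [Finset.mem_product, Finset.mem_range, Finset.mem_range]
      constructor
      · simp only; omega
      · simp only; omega
    have h2 := near_of_run hb ((q : ℝ) ^ u.2 * x) u.1 L hrun
    have h3 : (b ^ u.1 * q ^ u.2) • ((((b : ℝ) - 1) * x : ℝ) : UnitAddCircle)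
        = (((b : ℝ) ^ u.1 * (((b : ℝ) - 1) * ((q : ℝ) ^ u.2 * x)) : ℝ) : UnitAddCircle) := by
      rw [← AddCircle.coe_nsmul, nsmul_eq_mul]
      congr 1
      push_cast; ring
    rw [h3, norm_coe_eq_dZ] at hfar
    linarith
  -- injection into W × range L
  have hle : F.card ≤ (W ×ˢ Finset.range L).card := by
    choose! k hk1 hk2 using hex
    refine Finset.card_le_card_of_injOn (fun u => ((u.1 + k u, u.2), k u)) ?_ ?_
    · intro u hu
      have hu' : u ∈ F := hu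
      simp only [Finset.coe_product, Set.mem_prod, Finset.mem_coe, Finset.mem_range]
      exact ⟨hk2 u hu', hk1 u hu'⟩
    · intro u hu v hv huv
      simp only [Prod.mk.injEq] at huv
      obtain ⟨⟨h1, h2⟩, h3⟩ := huv
      ext
      · omega
      · exact h2
  rw [Finset.card_product, Finset.card_range] at hle
  linarith [hle, Nat.mul_comm W.card L]

lemma changes_main {b q : ℕ} (hb : 2 ≤ b) (hq : 2 ≤ q) {r : ℝ} (hr : 0 < r)
    (hrb : ((b : ℝ) + 1) * r ≤ 1)
    {C : ℕ} {c : ℝ} (hC : 2 ≤ C) (hc : 0 < c) (hsc : Scales b q r C c) {x : ℝ}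
    (hirr : Irrational x) (halg : IsAlgebraic ℚ x) :
    ∃ c' : ℝ, 0 < c' ∧ ∀ᶠ M : ℕ in atTop, c' * (M : ℝ) ^ (log (C + 1) / log C) ≤
      ((∑ n ∈ Finset.range M, ((Finset.range M).filter
      (fun i => dig b ((q : ℝ) ^ n * x) i ≠ dig b ((q : ℝ) ^ n * x) (i + 1))).card : ℕ) : ℝ) := by
  have hbR : (2 : ℝ) ≤ b := by exact_mod_cast hb
  have hCR : (2 : ℝ) ≤ C := by exact_mod_cast hC
  have hlC : 0 < log (C : ℝ) := log_pos (by linarith)
  have hs0 : 0 < log ((C : ℝ) + 1) / log C := div_pos (log_pos (by linarith)) hlC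
  have hy1 : Irrational (((b : ℝ) - 1) * x) := by
    have h1 : ((b : ℝ) - 1) * x = ((b - 1 : ℕ) : ℝ) * x := by
      rw [Nat.cast_sub (by omega)]; push_cast; ring
    rw [h1]
    exact hirr.natCast_mul (by omega)
  have hy2 : IsAlgebraic ℚ (((b : ℝ) - 1) * x) := by
    have h1 : ((b : ℝ) - 1) * x = ((b - 1 : ℕ) : ℝ) * x := by
      rw [Nat.cast_sub (by omega)]; push_cast; ring
    rw [h1]
    exact (isAlgebraic_natCast (R := ℚ) (b - 1)).mul halg
  obtain ⟨C1, hC1, hL1⟩ := liouville_bound hy1 hy2 hb hq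
  obtain ⟨c', hc', hev⟩ := far_count hb hq hrb hC hc hsc _ hC1 hL1
  obtain ⟨L, hL⟩ := exists_pow_lt_of_lt_one hr (by
    rw [inv_lt_one₀ (by linarith)]; linarith : ((b : ℝ))⁻¹ < 1)
  have hL' : 1 / (b : ℝ) ^ L ≤ r := by
    rw [inv_pow] at hL
    rw [one_div]; exact hL.le
  set s := log ((C : ℝ) + 1) / log C with hs
  refine ⟨c' / (L + 1) * (1 / 2 : ℝ) ^ s, by positivity, ?_⟩
  -- shift M by L
  obtain ⟨M0, hM0⟩ := eventually_atTop.mp hev
  filter_upwards [eventually_ge_atTop (M0 + 2 * L)] with M hM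
  obtain ⟨M1, rfl⟩ : ∃ M1, M = M1 + L := ⟨M - L, by omega⟩
  have h1 := hM0 M1 (by omega)
  have h2 := changes_lower (q := q) hb hL' x M1
  set S := ∑ n ∈ Finset.range (M1 + L), ((Finset.range (M1 + L)).filter
      (fun i => dig b ((q : ℝ) ^ n * x) i ≠ dig b ((q : ℝ) ^ n * x) (i + 1))).card with hS
  have h3 : c' * (M1 : ℝ) ^ s ≤ L * S := by
    refine h1.trans ?_
    exact_mod_cast h2
  have h4 : (M1 : ℝ) ≥ 1 / 2 * (M1 + L : ℕ) := by
    push_cast
    have : (L : ℝ) ≤ M1 := by exact_mod_cast (by omega : L ≤ M1)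
    linarith
  have h5 : (1 / 2 : ℝ) ^ s * ((M1 + L : ℕ) : ℝ) ^ s ≤ (M1 : ℝ) ^ s := by
    rw [← mul_rpow (by norm_num) (Nat.cast_nonneg _)]
    exact rpow_le_rpow (by positivity) h4 hs0.le
  have h6 : c' / (L + 1) * (1 / 2 : ℝ) ^ s * ((M1 + L : ℕ) : ℝ) ^ s
      = c' * ((1 / 2 : ℝ) ^ s * ((M1 + L : ℕ) : ℝ) ^ s) / (L + 1) := by ring
  rw [h6, div_le_iff₀ (by positivity)]
  calc c' * ((1 / 2 : ℝ) ^ s * ((M1 + L : ℕ) : ℝ) ^ s) ≤ c' * (M1 : ℝ) ^ s :=
        mul_le_mul_of_nonneg_left h5 hc'.le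
    _ ≤ L * S := h3
    _ ≤ S * (L + 1) := by
        have : (0 : ℝ) ≤ S := Nat.cast_nonneg _
        nlinarith

end Pool.Agent.H706R2
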