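import Mathlib
import Pool.Agent.H706R2.DigitChange2

set_option autoImplicit false

open MeasureTheory Real Filter Polynomial

namespace Pool.Agent.H706R2

/-- Far cells in the quadrant, with a hypothesis on the diagonal only. -/
lemma far_count_diag {p q : ℕ} (hp : 2 ≤ p) (hq : 2 ≤ q) {r : ℝ} (hrp : ((p : ℝ) + 1) * r ≤ 1)
    {C : ℕ} {c : ℝ} (hC : 2 ≤ C) (hc : 0 < c) (hsc : Scales p q r C c) (y : UnitAddCircle)
    {C1 : ℝ} (hC1 : 0 ≤ C1) (M0 : ℕ)
    (hy : ∀ m : ℕ, M0 ≤ m → exp (-(C1 * (m + m + 1))) ≤ ‖(p ^ m * q ^ m) • y‖) :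
    ∃ c' : ℝ, 0 < c' ∧ ∀ᶠ M : ℕ in atTop, c' * (M : ℝ) ^ (log (C + 1) / log C) ≤
      (((Finset.range M ×ˢ Finset.range M).filter
        (fun u => r ≤ ‖(p ^ u.1 * q ^ u.2) • y‖)).card : ℝ) := by
  have hlq : 0 < log q := log_pos (by exact_mod_cast (by omega : 1 < q))
  have hlp : 0 < log p := log_pos (by exact_mod_cast (by omega : 1 < p))
  have hCR : (2 : ℝ) ≤ C := by exact_mod_cast hC
  have hlC : 0 < log (C : ℝ) := log_pos (by linarith)
  set s : ℝ := log (C + 1) / log C with hs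
  have hs0 : 0 < s := div_pos (log_pos (by linarith)) hlC
  set l : ℝ := min (log p) (log q) with hl
  have hl0 : 0 < l := lt_min hlp hlq
  obtain ⟨K, hK⟩ := exists_nat_gt (3 + 2 * C1 / log p)
  have hK0 : (0 : ℝ) < K := lt_trans (by positivity) hK
  have hK0' : 0 < K := by exact_mod_cast hK0
  set w : ℝ := l / c with hw
  have hw0 : 0 < w := div_pos hl0 hc
  refine ⟨(w / (2 * K)) ^ s / (C + 1), by positivity, ?_⟩
  -- thresholds
  obtain ⟨N1, hN1⟩ := exists_nat_gt (C1 / log p + 3)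
  obtain ⟨N2, hN2⟩ := exists_nat_gt (1 / w)
  filter_upwards [eventually_ge_atTop (K * (N1 + N2 + M0 + 1))] with M hM
  set M' := M / K with hM'
  have hM'1 : N1 + N2 + M0 + 1 ≤ M' := by
    rw [hM', Nat.le_div_iff_mul_le hK0']
    rw [mul_comm]; exact hM
  have hM'K : M' * K ≤ M := Nat.div_mul_le_self M K
  have hM'2 : M < (M' + 1) * K := by
    rw [hM']; exact (Nat.div_lt_iff_lt_mul hK0').mp (Nat.lt_succ_self _)
  have hM'R : ((N1 : ℝ) + N2 + 1) ≤ M' := by exact_mod_cast (by omega : N1 + N2 + 1 ≤ M')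
  have hN1nn : (0 : ℝ) ≤ N1 := Nat.cast_nonneg _
  have hN2nn : (0 : ℝ) ≤ N2 := Nat.cast_nonneg _
  -- scale
  have ht1 : 1 ≤ w * M' := by
    have h1 : 1 / w < M' := by linarith
    rw [div_lt_iff₀ hw0] at h1
    linarith
  obtain ⟨hj1, hj2⟩ := pow_bracket hC ht1
  set j := ⌊log (w * M') / log C⌋₊ with hj
  have hG := growth hC hc.le hsc j
  set R : ℝ := c * (C ^ j - 1) with hR
  have hRle : R ≤ l * M' := by
    have h1 : R ≤ c * (w * M') := by
      rw [hR]; exact mul_le_mul_of_nonneg_left (by linarith) hc.le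
    have h2 : c * (w * M') = l * M' := by rw [hw]; field_simp
    linarith
  have hA : R < (M' + 1) * log p := by
    have h1 : l * M' ≤ log p * M' := mul_le_mul_of_nonneg_right (min_le_left _ _) (Nat.cast_nonneg _)
    linarith
  have hB : R < (M' + 1) * log q := by
    have h1 : l * M' ≤ log q * M' := mul_le_mul_of_nonneg_right (min_le_right _ _) (Nat.cast_nonneg _)
    linarith
  set t : ℝ := C1 * (M' + M' + 1) with ht
  have ht0 : 0 ≤ t := by positivity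
  set I := ⌈t / log p⌉₊ with hI
  have hI1 : t ≤ I * log p := by
    have := Nat.le_ceil (t / log p)
    rwa [div_le_iff₀ hlp] at this
  have hI2 : (I : ℝ) < t / log p + 1 := Nat.ceil_lt_add_one (by positivity)
  have hcnt := count_far hp hq hrp hG hA hB hI1 y (hy M' (by omega))
  have hfit : 2 * M' + I + 1 ≤ M := by
    have h1 : (2 * (M' : ℝ) + I + 1) < M := by
      have h2 : t / log p = 2 * C1 / log p * M' + C1 / log p := by
        rw [ht]; field_simp; ring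
      have h3 : (M' : ℝ) * K ≤ M := by exact_mod_cast hM'K
      have h4 : (M' : ℝ) * (3 + 2 * C1 / log p) ≤ M' * K :=
        mul_le_mul_of_nonneg_left hK.le (Nat.cast_nonneg _)
      have h5 : (M' : ℝ) * (3 + 2 * C1 / log p) = 3 * M' + 2 * C1 / log p * M' := by ring
      linarith
    exact_mod_cast h1.le
  have hfit2 : 2 * M' + 1 ≤ M := by omega
  have hsub : ((Finset.range (2 * M' + I + 1) ×ˢ Finset.range (2 * M' + 1)).filter
      (fun u => r ≤ ‖(p ^ u.1 * q ^ u.2) • y‖)).card ≤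
      ((Finset.range M ×ˢ Finset.range M).filter
        (fun u => r ≤ ‖(p ^ u.1 * q ^ u.2) • y‖)).card := by
    refine Finset.card_le_card (Finset.filter_subset_filter _ (Finset.product_subset_product ?_ ?_))
    · exact Finset.range_subset_range.mpr hfit
    · exact Finset.range_subset_range.mpr hfit2
  have h6 : ((C : ℝ) + 1) ^ j ≤ (((Finset.range M ×ˢ Finset.range M).filter
        (fun u => r ≤ ‖(p ^ u.1 * q ^ u.2) • y‖)).card : ℝ) := by
    have := hcnt.trans hsub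
    exact_mod_cast this
  refine le_trans ?_ h6
  have h7 : (w / (2 * K)) ^ s * (M : ℝ) ^ s ≤ (w * M') ^ s := by
    rw [← mul_rpow (by positivity) (by positivity)]
    refine rpow_le_rpow (by positivity) ?_ hs0.le
    have h8 : (M : ℝ) ≤ (M' + 1) * K := by exact_mod_cast hM'2.le
    have h9 : (1 : ℝ) ≤ M' := by linarith
    have h10 : (M : ℝ) ≤ 2 * K * M' := by nlinarith
    calc w / (2 * K) * M ≤ w / (2 * K) * (2 * K * M') :=
          mul_le_mul_of_nonneg_left h10 (by positivity)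
      _ = w * M' := by field_simp
  have h11 : (w / (2 * K)) ^ s / (C + 1) * (M : ℝ) ^ s
      = (w / (2 * K)) ^ s * (M : ℝ) ^ s / (C + 1) := by ring
  rw [h11, div_le_iff₀ (by positivity)]
  calc (w / (2 * K)) ^ s * (M : ℝ) ^ s ≤ (w * M') ^ s := h7
    _ ≤ ((C : ℝ) + 1) ^ (j + 1) := hj2
    _ = ((C : ℝ) + 1) ^ j * (C + 1) := by ring

lemma changes_diag {b q : ℕ} (hb : 2 ≤ b) (hq : 2 ≤ q) {r : ℝ} (hr : 0 < r)
    (hrb : ((b : ℝ) + 1) * r ≤ 1)
    {C : ℕ} {c : ℝ} (hC : 2 ≤ C) (hc : 0 < c) (hsc : Scales b q r C c) {x : ℝ}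
    {C1 : ℝ} (hC1 : 0 ≤ C1) (M0 : ℕ)
    (hy : ∀ m : ℕ, M0 ≤ m → exp (-(C1 * (m + m + 1))) ≤
      ‖(b ^ m * q ^ m) • ((((b : ℝ) - 1) * x : ℝ) : UnitAddCircle)‖) :
    ∃ c' : ℝ, 0 < c' ∧ ∀ᶠ M : ℕ in atTop, c' * (M : ℝ) ^ (log (C + 1) / log C) ≤
      ((∑ n ∈ Finset.range M, ((Finset.range M).filter
      (fun i => dig b ((q : ℝ) ^ n * x) i ≠ dig b ((q : ℝ) ^ n * x) (i + 1))).card : ℕ) : ℝ) := by
  have hbR : (2 : ℝ) ≤ b := by exact_mod_cast hb
  have hCR : (2 : ℝ) ≤ C := by exact_mod_cast hC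
  have hlC : 0 < log (C : ℝ) := log_pos (by linarith)
  have hs0 : 0 < log ((C : ℝ) + 1) / log C := div_pos (log_pos (by linarith)) hlC
  obtain ⟨c', hc', hev⟩ := far_count_diag hb hq hrb hC hc hsc _ hC1 M0 hy
  obtain ⟨L, hL⟩ := exists_pow_lt_of_lt_one hr (by
    rw [inv_lt_one₀ (by linarith)]; linarith : ((b : ℝ))⁻¹ < 1)
  have hL' : 1 / (b : ℝ) ^ L ≤ r := by
    rw [inv_pow] at hL
    rw [one_div]; exact hL.le
  set s := log ((C : ℝ) + 1) / log C with hs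
  refine ⟨c' / (L + 1) * (1 / 2 : ℝ) ^ s, by positivity, ?_⟩
  obtain ⟨M2, hM2⟩ := eventually_atTop.mp hev
  filter_upwards [eventually_ge_atTop (M2 + 2 * L)] with M hM
  obtain ⟨M1, rfl⟩ : ∃ M1, M = M1 + L := ⟨M - L, by omega⟩
  have h1 := hM2 M1 (by omega)
  have h2 := changes_lower (q := q) hb hL' x M1
  set S := ∑ n ∈ Finset.range (M1 + L), ((Finset.range (M1 + L)).filter
      (fun i => dig b ((q : ℝ) ^ n * x) i ≠ dig b ((q : ℝ) ^ n * x) (i + 1))).card with hS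
  have h3 : c' * (M1 : ℝ) ^ s ≤ L * S := by
    refine h1.trans ?_
    exact_mod_cast h2
  have h4 : (M1 : ℝ) ≥ 1 / 2 * (M1 + L : ℕ) := by
    push_cast
    have : (L : ℝ) ≤ M1 := by exact_mod_cast (by omega : L ≤ M1)
    linarith
  have h5 : (1 / 2 : ℝ) ^ s * ((M1 + L : ℕ) : ℝ) ^ s ≤ (M1 : ℝ) ^ s := by
    rw [← mul_rpow (by norm_num) (Nat.cast_nonneg _)]
    exact rpow_le_rpow (by positivity) h4 hs0.le
  have h6 : c' / (L + 1) * (1 / 2 : ℝ) ^ s * ((M1 + L : ℕ) : ℝ) ^ s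
      = c' * ((1 / 2 : ℝ) ^ s * ((M1 + L : ℕ) : ℝ) ^ s) / (L + 1) := by ring
  rw [h6, div_le_iff₀ (by positivity)]
  calc c' * ((1 / 2 : ℝ) ^ s * ((M1 + L : ℕ) : ℝ) ^ s) ≤ c' * (M1 : ℝ) ^ s :=
        mul_le_mul_of_nonneg_left h5 hc'.le
    _ ≤ L * S := h3
    _ ≤ S * (L + 1) := by
        have : (0 : ℝ) ≤ S := Nat.cast_nonneg _
        nlinarith

end Pool.Agent.H706R2
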