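import Mathlib
import Pool.Agent.H706R2.DigitChange3
import Pool.Agent.H346R2.Pi.Main

set_option autoImplicit false

open MeasureTheory Real Filter

namespace Pool.Agent.H706R2

lemma log5_le' : Real.log 5 ≤ 66 / 41 := by
  have h1 : (5 : ℝ) ^ 41 ≤ (2.7182818283 : ℝ) ^ 66 := by norm_num
  have h2 : (2.7182818283 : ℝ) < Real.exp 1 := by
    have := Real.exp_one_gt_d9
    linarith
  have h3 : (5 : ℝ) ^ 41 ≤ Real.exp 66 := by
    calc (5 : ℝ) ^ 41 ≤ (2.7182818283 : ℝ) ^ 66 := h1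
      _ ≤ (Real.exp 1) ^ 66 := pow_le_pow_left₀ (by norm_num) h2.le 66
      _ = Real.exp 66 := by rw [← Real.exp_nat_mul]; norm_num
  have h4 := Real.log_le_log (by positivity) h3
  rw [Real.log_pow, Real.log_exp] at h4
  push_cast at h4
  linarith

lemma pi_diag {q : ℕ} (hq : 2 ≤ q) (hq9 : q ≤ 9) :
    ∃ M0 : ℕ, ∀ m : ℕ, M0 ≤ m → exp (-(20 * ((m : ℝ) + m + 1))) ≤
      ‖(10 ^ m * q ^ m) • (((((10 : ℕ) : ℝ) - 1) * π : ℝ) : UnitAddCircle)‖ := by
  obtain ⟨q0, hq0⟩ := eventually_atTop.mp Pool.Agent.H346R2.Pi.measure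
  refine ⟨max q0 100000, fun m hm => ?_⟩
  have hm1 : 100000 ≤ m := le_trans (le_max_right _ _) hm
  have hm2 : q0 ≤ m := le_trans (le_max_left _ _) hm
  have hmR : (100000 : ℝ) ≤ m := by exact_mod_cast hm1
  set Q : ℕ := 9 * (10 ^ m * q ^ m) with hQ
  have hQpos : 0 < Q := by positivity
  have hQm : m ≤ Q := by
    have h1 : m < 10 ^ m := Nat.lt_pow_self (by norm_num)
    have h2 : 1 ≤ q ^ m := Nat.one_le_pow _ _ (by omega)
    have h3 : 10 ^ m * 1 ≤ 10 ^ m * q ^ m := Nat.mul_le_mul_left _ h2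
    omega
  have hdvd : 2 ^ m * 5 ^ m ∣ Q := by
    rw [hQ, ← mul_pow]
    exact Dvd.dvd.mul_left (Dvd.intro _ rfl) 9
  -- log Q
  have hl90 : Real.log (10 * q) ≤ 17 / 6 * (66 / 41) := by
    have h1 : (10 * (q : ℝ)) ^ 6 ≤ 5 ^ 17 := by
      have : (10 * (q : ℝ)) ≤ 90 := by
        have : (q : ℝ) ≤ 9 := by exact_mod_cast hq9
        linarith
      calc (10 * (q : ℝ)) ^ 6 ≤ 90 ^ 6 := pow_le_pow_left₀ (by positivity) this 6
        _ ≤ 5 ^ 17 := by norm_num
    have h2 := Real.log_le_log (by positivity) h1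
    rw [Real.log_pow, Real.log_pow] at h2
    push_cast at h2
    have := log5_le'
    linarith
  have hlog9 : Real.log 9 ≤ 8 := by
    have := Real.log_le_sub_one_of_pos (by norm_num : (0 : ℝ) < 9)
    linarith
  have hlogQ : Real.log Q = Real.log 9 + m * Real.log (10 * q) := by
    have : (Q : ℝ) = 9 * (10 * (q : ℝ)) ^ m := by
      rw [hQ]; push_cast; rw [mul_pow]
    rw [this, Real.log_mul (by norm_num) (by positivity), Real.log_pow]
  have hlogQ1 : Real.log Q ≤ 8 + m * (17 / 6 * (66 / 41)) := by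
    rw [hlogQ]
    have := mul_le_mul_of_nonneg_left hl90 (Nat.cast_nonneg m : (0 : ℝ) ≤ m)
    linarith
  have c1 : Real.log Q ≤ 9.1222 * m := by linarith
  have c2 : 2 * Real.log Q ≤ 9.1222 * m := by linarith
  have key := hq0 Q (by omega) m m hdvd c1 c2 (round ((Q : ℝ) * π))
  have e : (10 ^ m * q ^ m) • (((((10 : ℕ) : ℝ) - 1) * π : ℝ) : UnitAddCircle)
      = (((Q : ℝ) * π : ℝ) : UnitAddCircle) := by
    rw [← AddCircle.coe_nsmul, nsmul_eq_mul]
    congr 1
    rw [hQ]; push_cast; ring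
  rw [e, norm_coe_eq_dZ]
  unfold dZ
  refine le_trans (exp_le_exp.mpr ?_) key
  linarith

lemma irr_log {q : ℕ} (hq : 2 ≤ q) (hq9 : q ≤ 9) :
    Irrational (Real.log ((10 : ℕ) : ℝ) / Real.log (q : ℝ)) := by
  have hlq : 0 < log (q : ℝ) := log_pos (by exact_mod_cast (by omega : 1 < q))
  have hl10 : 0 < log ((10 : ℕ) : ℝ) := log_pos (by norm_num)
  rintro ⟨x, hx⟩
  have hx0 : (0 : ℝ) < x := by rw [hx]; positivity
  have hx0' : 0 < x := by exact_mod_cast hx0
  -- x = a / b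
  set a := x.num.toNat with ha
  have hnum : 0 < x.num := Rat.num_pos.mpr hx0'
  have hane : (a : ℤ) = x.num := by rw [ha]; exact Int.toNat_of_nonneg hnum.le
  have hxab : (x : ℝ) * x.den = a := by
    have h1 : (x : ℝ) * x.den = x.num := by exact_mod_cast Rat.mul_den_eq_num x
    rw [h1, ← hane]; simp
  have h1 : (x.den : ℝ) * log ((10 : ℕ) : ℝ) = a * log (q : ℝ) := by
    rw [← hxab, hx]; field_simp
  have h2 : ((10 : ℕ) : ℝ) ^ x.den = (q : ℝ) ^ a := by
    have h3 : log (((10 : ℕ) : ℝ) ^ x.den) = log ((q : ℝ) ^ a) := by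
      rw [log_pow, log_pow]; exact h1
    exact Real.log_injOn_pos (by
      rw [Set.mem_Ioi]; positivity) (by rw [Set.mem_Ioi]; positivity) h3
  have h3 : 10 ^ x.den = q ^ a := by exact_mod_cast h2
  have hden : x.den ≠ 0 := x.den_nz
  have p2 : 2 ∣ q := by
    have : 2 ∣ q ^ a := by
      rw [← h3]; exact dvd_pow (by norm_num) hden
    exact Nat.Prime.dvd_of_dvd_pow Nat.prime_two this
  have p5 : 5 ∣ q := by
    have : 5 ∣ q ^ a := by
      rw [← h3]; exact dvd_pow (by norm_num) hden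
    exact Nat.Prime.dvd_of_dvd_pow Nat.prime_five this
  omega

end Pool.Agent.H706R2
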