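import Mathlib

/-!
Rényi dimensions of `×p, ×q` invariant measures, part 1: orders modulo prime powers and the
separation lemma for pairs of points with different `×p`-pasts.
-/

set_option autoImplicit false

namespace Pool.Agent.H706R2.Ren

open Finset

/-- The order of `q` modulo `p ^ r` is at least proportional to `p ^ r`. -/
theorem ord_bound (p q : ℕ) (hp : p.Prime) (hq : 2 ≤ q) (hpq : ¬ p ∣ q) :
    ∃ C : ℕ, 1 ≤ C ∧ ∀ d r : ℕ, 1 ≤ d → p ^ r ∣ q ^ d - 1 → p ^ r ≤ C * d := by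
  have : Fact p.Prime := ⟨hp⟩
  rcases hp.eq_two_or_odd' with h2 | hodd
  · subst h2
    have hq3 : 3 ≤ q := by
      rcases Nat.lt_or_ge q 3 with h | h
      · exfalso; apply hpq; interval_cases q; exact ⟨1, rfl⟩
      · exact h
    refine ⟨(q + 1) * (q - 1), Nat.mul_pos (by omega) (by omega), ?_⟩
    intro d r hd hdvd
    have hdvd2 : 2 ^ r ∣ q ^ (2 * d) - 1 := by
      refine hdvd.trans ?_
      have := Nat.sub_dvd_pow_sub_pow (q ^ d) 1 2
      rw [one_pow, ← pow_mul, mul_comm d 2] at this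
      exact this
    have hqo : ¬ 2 ∣ q := hpq
    have hlte := padicValNat.pow_two_sub_pow (x := q) (y := 1) (n := 2 * d) (by omega)
      (by omega) hqo (by omega) (even_two_mul d)
    rw [one_pow] at hlte
    have hne : q ^ (2 * d) - 1 ≠ 0 := by
      have : 1 < q ^ (2 * d) := Nat.one_lt_pow (by omega) (by omega)
      omega
    have hr : r ≤ padicValNat 2 (q ^ (2 * d) - 1) :=
      (padicValNat_dvd_iff_le hne).1 hdvd2
    have hv2d : padicValNat 2 (2 * d) = 1 + padicValNat 2 d := by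
      rw [padicValNat.mul (by norm_num) (by omega), padicValNat.self (by norm_num)]
    have hr' : r ≤ padicValNat 2 (q + 1) + padicValNat 2 (q - 1) + padicValNat 2 d := by omega
    calc 2 ^ r ≤ 2 ^ (padicValNat 2 (q + 1) + padicValNat 2 (q - 1) + padicValNat 2 d) :=
          Nat.pow_le_pow_right (by norm_num) hr'
      _ = 2 ^ padicValNat 2 (q + 1) * 2 ^ padicValNat 2 (q - 1) * 2 ^ padicValNat 2 d := by
          rw [pow_add, pow_add]
      _ ≤ (q + 1) * (q - 1) * d := by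
          refine Nat.mul_le_mul (Nat.mul_le_mul ?_ ?_) ?_
          · exact Nat.le_of_dvd (by omega) pow_padicValNat_dvd
          · exact Nat.le_of_dvd (by omega) pow_padicValNat_dvd
          · exact Nat.le_of_dvd (by omega) pow_padicValNat_dvd
  · have hcop : Nat.Coprime q p := ((Nat.Prime.coprime_iff_not_dvd hp).2 hpq).symm
    have hp1 : p ∣ q ^ (p - 1) - 1 := by
      have h := Nat.ModEq.pow_totient hcop
      rw [Nat.totient_prime hp] at h
      exact (Nat.modEq_iff_dvd' (Nat.one_le_pow _ _ (by omega))).1 h.symm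
    have hp2 : 2 ≤ p := hp.two_le
    have ha : 1 < q ^ (p - 1) := Nat.one_lt_pow (by omega) (by omega)
    refine ⟨q ^ (p - 1) - 1, by omega, ?_⟩
    intro d r hd hdvd
    have hdvd2 : p ^ r ∣ (q ^ (p - 1)) ^ d - 1 := by
      refine hdvd.trans ?_
      have := Nat.sub_dvd_pow_sub_pow (q ^ d) 1 (p - 1)
      rw [one_pow, ← pow_mul, mul_comm d (p - 1), pow_mul] at this
      exact this
    have hnd : ¬ p ∣ q ^ (p - 1) := fun h => hpq (hp.dvd_of_dvd_pow h)
    have hlte := padicValNat.pow_sub_pow (x := q ^ (p - 1)) (y := 1) (n := d) hodd ha hp1 hnd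
      (by omega)
    rw [one_pow] at hlte
    have hne : (q ^ (p - 1)) ^ d - 1 ≠ 0 := by
      have : 1 < (q ^ (p - 1)) ^ d := Nat.one_lt_pow (by omega) ha
      omega
    have hr : r ≤ padicValNat p ((q ^ (p - 1)) ^ d - 1) := (padicValNat_dvd_iff_le hne).1 hdvd2
    rw [hlte] at hr
    calc p ^ r ≤ p ^ (padicValNat p (q ^ (p - 1) - 1) + padicValNat p d) :=
          Nat.pow_le_pow_right (by omega) hr
      _ = p ^ padicValNat p (q ^ (p - 1) - 1) * p ^ padicValNat p d := by rw [pow_add]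
      _ ≤ (q ^ (p - 1) - 1) * d := by
          refine Nat.mul_le_mul ?_ ?_
          · exact Nat.le_of_dvd (by omega) pow_padicValNat_dvd
          · exact Nat.le_of_dvd (by omega) pow_padicValNat_dvd

/-- the circle -/
abbrev X := UnitAddCircle

/-- Two points with the same `×p`-future and different `×p`-past cannot both have `×q`-orbits
which stay in a union of few small balls. -/
theorem pair (p q r W K C A : ℕ) (hp : p.Prime) (hq : 1 ≤ q) (hpq : ¬ p ∣ q)
    (hC : ∀ d r : ℕ, 1 ≤ d → p ^ r ∣ q ^ d - 1 → p ^ r ≤ C * d)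
    (hCW : C * W ≤ p ^ (r + 1)) (cen : Fin K → X) (ρ δ : ℝ)
    (hρ : 8 * ρ * (p : ℝ) ^ (r + 1) ≤ 1) (hδ : 8 * ((q : ℝ) ^ (A + W) * δ) < 1) (y z : X)
    (hy : ‖(p ^ (r + 1)) • (y - z)‖ ≤ δ) (I : Finset ℕ)
    (hI : ∀ i ∈ I, A ≤ i ∧ i < A + W)
    (hcard : K ^ 2 < I.card)
    (h1 : ∀ i ∈ I, ∃ a, ‖(q ^ i) • y - cen a‖ ≤ ρ) (h2 : ∀ i ∈ I, ∃ a, ‖(q ^ i) • z - cen a‖ ≤ ρ) :
    ‖(p ^ r) • (y - z)‖ ≤ δ / p := by
  classical
  have hp0 : (0 : ℝ) < p := by exact_mod_cast hp.pos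
  obtain ⟨d, hd⟩ : ∃ d : ℝ, (d : X) = y - z := QuotientAddGroup.mk_surjective (y - z)
  have hsm : ∀ n : ℕ, n • (y - z) = ((n * d : ℝ) : X) := by
    intro n
    rw [← hd, ← AddCircle.coe_nsmul, nsmul_eq_mul]
  set m : ℤ := round ((p : ℝ) ^ (r + 1) * d) with hm
  have hη : |(p : ℝ) ^ (r + 1) * d - m| ≤ δ := by
    have := hy
    rw [hsm, UnitAddCircle.norm_eq] at this
    push_cast at this
    exact this
  by_cases hpm : (p : ℤ) ∣ m
  · obtain ⟨m', hm'⟩ := hpm
    rw [hsm, UnitAddCircle.norm_eq]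
    refine (round_le _ m').trans ?_
    rw [le_div_iff₀ hp0]
    have e : |((p ^ r : ℕ) : ℝ) * d - m'| * p = |(p : ℝ) ^ (r + 1) * d - m| := by
      have e0 : (p : ℝ) ^ (r + 1) * d - m = (((p ^ r : ℕ) : ℝ) * d - m') * p := by
        rw [hm']
        push_cast
        ring
      rw [e0, abs_mul, abs_of_pos hp0]
    rw [e]
    exact hη
  · exfalso
    have : Nonempty (Fin K) := by
      obtain ⟨i, hi⟩ := Finset.card_pos.1 (lt_of_le_of_lt (Nat.zero_le _) hcard)
      obtain ⟨a, -⟩ := h1 i hi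
      exact ⟨a⟩
    choose! f hf using h1
    choose! g hg using h2
    have hmaps : ∀ i ∈ I, (f i, g i) ∈ (univ : Finset (Fin K × Fin K)) := fun _ _ => mem_univ _
    have hc : (univ : Finset (Fin K × Fin K)).card < I.card := by
      rw [card_univ, Fintype.card_prod, Fintype.card_fin, ← pow_two]
      exact hcard
    obtain ⟨i, hi, i', hi', hne, heq⟩ := exists_ne_map_eq_of_card_lt_of_maps_to hc hmaps
    wlog hlt : i < i' generalizing i i'
    · exact this i' hi' i hi hne.symm heq.symm (lt_of_le_of_ne (not_lt.1 hlt) hne.symm)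
    obtain ⟨hf1, hg1⟩ := Prod.mk.inj heq
    have hn1 : ‖(q ^ i') • (y - z) - (q ^ i) • (y - z)‖ ≤ 4 * ρ := by
      have e : (q ^ i') • (y - z) - (q ^ i) • (y - z) =
          ((q ^ i') • y - cen (f i')) - ((q ^ i) • y - cen (f i)) -
          ((q ^ i') • z - cen (g i')) + ((q ^ i) • z - cen (g i)) := by
        rw [hf1, hg1, nsmul_sub, nsmul_sub]
        abel
      rw [e]
      have a1 := hf i hi
      have a2 := hf i' hi'
      have a3 := hg i hi
      have a4 := hg i' hi'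
      calc ‖((q ^ i') • y - cen (f i')) - ((q ^ i) • y - cen (f i)) -
          ((q ^ i') • z - cen (g i')) + ((q ^ i) • z - cen (g i))‖ ≤
          ‖((q ^ i') • y - cen (f i')) - ((q ^ i) • y - cen (f i)) -
          ((q ^ i') • z - cen (g i'))‖ + ‖(q ^ i) • z - cen (g i)‖ := norm_add_le _ _
        _ ≤ (‖((q ^ i') • y - cen (f i')) - ((q ^ i) • y - cen (f i))‖ +
          ‖(q ^ i') • z - cen (g i')‖) + ‖(q ^ i) • z - cen (g i)‖ := by
            gcongr; exact norm_sub_le _ _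
        _ ≤ ((‖(q ^ i') • y - cen (f i')‖ + ‖(q ^ i) • y - cen (f i)‖) +
          ‖(q ^ i') • z - cen (g i')‖) + ‖(q ^ i) • z - cen (g i)‖ := by
            gcongr; exact norm_sub_le _ _
        _ ≤ 4 * ρ := by linarith
    have hqle : q ^ i ≤ q ^ i' := Nat.pow_le_pow_right hq hlt.le
    have hn2 : ‖(((((q ^ i' - q ^ i : ℕ) : ℝ)) * d : ℝ) : X)‖ ≤ 4 * ρ := by
      rw [← hsm, sub_nsmul _ hqle, ← sub_eq_add_neg]
      exact hn1
    rw [UnitAddCircle.norm_eq] at hn2
    set Q : ℕ := q ^ i' - q ^ i with hQ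
    set n : ℤ := round (((Q : ℕ) : ℝ) * d) with hn
    have hQW : (Q : ℝ) ≤ (q : ℝ) ^ (A + W) := by
      have h1 : Q ≤ q ^ i' := Nat.sub_le _ _
      have h2 : q ^ i' ≤ q ^ (A + W) := Nat.pow_le_pow_right hq (hI i' hi').2.le
      exact_mod_cast h1.trans h2
    have hpow : (0 : ℝ) < (p : ℝ) ^ (r + 1) := by positivity
    -- the integer `Q m - n p^(r+1)` vanishes
    have hz : (Q : ℤ) * m - n * (p : ℤ) ^ (r + 1) = 0 := by
      have habs : |((Q : ℤ) * m - n * (p : ℤ) ^ (r + 1) : ℤ)| < 1 := by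
        have e : (((Q : ℤ) * m - n * (p : ℤ) ^ (r + 1) : ℤ) : ℝ) =
            ((Q : ℝ) * d - n) * (p : ℝ) ^ (r + 1) - Q * ((p : ℝ) ^ (r + 1) * d - m) := by
          push_cast
          ring
        have h3 : |(((Q : ℤ) * m - n * (p : ℤ) ^ (r + 1) : ℤ) : ℝ)| < 1 := by
          rw [e]
          calc |((Q : ℝ) * d - n) * (p : ℝ) ^ (r + 1) - Q * ((p : ℝ) ^ (r + 1) * d - m)|
              ≤ |((Q : ℝ) * d - n) * (p : ℝ) ^ (r + 1)| +
                |Q * ((p : ℝ) ^ (r + 1) * d - m)| := abs_sub _ _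
            _ = |(Q : ℝ) * d - n| * (p : ℝ) ^ (r + 1) + Q * |(p : ℝ) ^ (r + 1) * d - m| := by
                rw [abs_mul, abs_mul, abs_of_pos hpow, Nat.abs_cast]
            _ ≤ 4 * ρ * (p : ℝ) ^ (r + 1) + (q : ℝ) ^ (A + W) * δ := by
                refine add_le_add (mul_le_mul_of_nonneg_right hn2 hpow.le) ?_
                exact mul_le_mul hQW hη (abs_nonneg _) (by positivity)
            _ < 1 := by linarith
        exact_mod_cast h3
      exact Int.abs_lt_one_iff.1 habs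
    have hdvd : (p : ℤ) ^ (r + 1) ∣ (Q : ℤ) * m := ⟨n, by linarith⟩
    have hcop : IsCoprime ((p : ℤ) ^ (r + 1)) m := by
      apply IsCoprime.pow_left
      exact (Prime.coprime_iff_not_dvd (Nat.prime_iff_prime_int.1 hp)).2 hpm
    have hdvd2 : (p : ℤ) ^ (r + 1) ∣ (Q : ℤ) := hcop.dvd_of_dvd_mul_right hdvd
    have hdvd3 : p ^ (r + 1) ∣ Q := by exact_mod_cast hdvd2
    have hQe : Q = q ^ i * (q ^ (i' - i) - 1) := by
      rw [hQ, Nat.mul_sub, ← pow_add, Nat.add_sub_cancel' hlt.le, mul_one]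
    have hcopq : Nat.Coprime (p ^ (r + 1)) (q ^ i) :=
      Nat.Coprime.pow _ _ ((Nat.Prime.coprime_iff_not_dvd hp).2 hpq)
    rw [hQe] at hdvd3
    have hdvd4 : p ^ (r + 1) ∣ q ^ (i' - i) - 1 := hcopq.dvd_of_dvd_mul_left hdvd3
    have h5 := hC (i' - i) (r + 1) (by omega) hdvd4
    have h6 : i' - i < W := by have := hI i' hi'; have := hI i hi; omega
    have hC0 : 0 < C := by
      rcases Nat.eq_zero_or_pos C with h | h
      · rw [h, zero_mul] at h5
        have : 0 < p ^ (r + 1) := Nat.pow_pos hp.pos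
        omega
      · exact h
    have h7 : C * (i' - i) < C * W := Nat.mul_lt_mul_of_pos_left h6 hC0
    omega

end Pool.Agent.H706R2.Ren
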