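import Pool.Agent.H706R2.Ren1

/-!
Rényi dimensions of `×p, ×q` invariant measures, part 2: windows, the chain argument, atoms.
-/

set_option autoImplicit false

open MeasureTheory Finset Metric Filter
open scoped ENNReal Topology

namespace Pool.Agent.H706R2.Ren

/-- A union of finitely many closed balls of the circle (arcs of length `2ρ`). -/
def U {K : ℕ} (cen : Fin K → X) (ρ : ℝ) : Set X := ⋃ a, closedBall (cen a) ρ

open Classical in
/-- The number of `i < L` such that `q ^ i • y` is not in `S`. -/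
noncomputable def out (q : ℕ) (S : Set X) (L : ℕ) (y : X) : ℕ :=
  #{i ∈ range L | (q ^ i) • y ∉ S}

lemma window {K : ℕ} (q W L : ℕ) (hW : 1 ≤ W) (S : Set X) (y z : X)
    (h : out q S L y + out q S L z + (L / W) * K ^ 2 + W < L) :
    ∃ (A : ℕ) (I : Finset ℕ), A + W ≤ L ∧ (∀ i ∈ I, A ≤ i ∧ i < A + W) ∧ K ^ 2 < I.card ∧
      (∀ i ∈ I, (q ^ i) • y ∈ S) ∧ ∀ i ∈ I, (q ^ i) • z ∈ S := by
  classical
  set G : Finset ℕ := {i ∈ range L | (q ^ i) • y ∈ S ∧ (q ^ i) • z ∈ S} with hG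
  have hcard : L ≤ G.card + out q S L y + out q S L z := by
    have hsub : range L ⊆ (G ∪ {i ∈ range L | (q ^ i) • y ∉ S}) ∪
        {i ∈ range L | (q ^ i) • z ∉ S} := by
      intro i hi
      simp only [hG, mem_union, mem_filter]
      tauto
    have h1 := card_le_card hsub
    rw [card_range] at h1
    have h2 := card_union_le (G ∪ {i ∈ range L | (q ^ i) • y ∉ S}) {i ∈ range L | (q ^ i) • z ∉ S}
    have h3 := card_union_le G {i ∈ range L | (q ^ i) • y ∉ S}
    have e1 : out q S L y = #{i ∈ range L | (q ^ i) • y ∉ S} := by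
      unfold out; congr!
    have e2 : out q S L z = #{i ∈ range L | (q ^ i) • z ∉ S} := by
      unfold out; congr!
    omega
  by_contra hcon
  push Not at hcon
  have hmaps : ∀ i ∈ G, i / W ∈ range (L / W + 1) := by
    intro i hi
    rw [hG, mem_filter, mem_range] at hi
    rw [mem_range]
    have := Nat.div_le_div_right (c := W) hi.1.le
    omega
  have hsum := card_eq_sum_card_fiberwise (f := fun i => i / W) (s := G)
    (t := range (L / W + 1)) (fun i hi => hmaps i hi)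
  have hfib : ∀ j, j < L / W → #{i ∈ G | i / W = j} ≤ K ^ 2 := by
    intro j hj
    by_contra hc
    rw [not_le] at hc
    have hAW : j * W + W ≤ L := by
      have h1 : (j + 1) * W ≤ L / W * W := Nat.mul_le_mul_right _ hj
      have h2 := Nat.div_mul_le_self L W
      have h3 : (j + 1) * W = j * W + W := by ring
      omega
    obtain ⟨i, hi, hi'⟩ := hcon (j * W) {i ∈ G | i / W = j} hAW (by
      intro i hi
      rw [mem_filter] at hi
      have h1 := Nat.div_add_mod i W
      have h2 := Nat.mod_lt i (show 0 < W by omega)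
      rw [hi.2, mul_comm] at h1
      omega) hc (by
      intro i hi
      rw [mem_filter, hG, mem_filter] at hi
      exact hi.1.2.1)
    rw [mem_filter, hG, mem_filter] at hi
    exact hi' hi.1.2.2
  have hlast : #{i ∈ G | i / W = L / W} ≤ W := by
    have hsub : {i ∈ G | i / W = L / W} ⊆ Finset.Ico (L / W * W) (L / W * W + W) := by
      intro i hi
      rw [mem_filter] at hi
      rw [Finset.mem_Ico]
      have h1 := Nat.div_add_mod i W
      have h2 := Nat.mod_lt i (show 0 < W by omega)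
      rw [hi.2, mul_comm] at h1
      omega
    have := card_le_card hsub
    rw [Nat.card_Ico] at this
    omega
  rw [sum_range_succ] at hsum
  have hs2 : ∑ j ∈ range (L / W), #{i ∈ G | i / W = j} ≤ (L / W) * K ^ 2 := by
    calc ∑ j ∈ range (L / W), #{i ∈ G | i / W = j} ≤ ∑ j ∈ range (L / W), K ^ 2 :=
          sum_le_sum fun j hj => hfib j (mem_range.1 hj)
      _ = (L / W) * K ^ 2 := by rw [sum_const, card_range, smul_eq_mul]
  omega

/-- The separation property of the sets of points which are rarely outside a union of few arcs. -/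
theorem sep (p q r W K C L : ℕ) (hp : p.Prime) (hq : 1 ≤ q) (hpq : ¬ p ∣ q)
    (hC : ∀ d r : ℕ, 1 ≤ d → p ^ r ∣ q ^ d - 1 → p ^ r ≤ C * d) (hW : 1 ≤ W)
    (hCW : C * W ≤ p ^ (r + 1)) (cen : Fin K → X) (ρ δ : ℝ) (hδ0 : 0 ≤ δ)
    (hρ : 8 * ρ * (p : ℝ) ^ (r + 1) ≤ 1) (hδ : 8 * ((q : ℝ) ^ L * δ) < 1) (y z : X)
    (h : out q (U cen ρ) L y + out q (U cen ρ) L z + (L / W) * K ^ 2 + W < L)
    (hy : ‖(p ^ (r + 1)) • (y - z)‖ ≤ δ) : ‖(p ^ r) • (y - z)‖ ≤ δ / p := by
  obtain ⟨A, I, hA, hI, hcard, h1, h2⟩ := window (K := K) q W L hW (U cen ρ) y z h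
  refine pair p q r W K C A hp hq hpq hC hCW cen ρ δ hρ ?_ y z hy I hI hcard ?_ ?_
  · have hq1 : (1 : ℝ) ≤ q := by exact_mod_cast hq
    have : (q : ℝ) ^ (A + W) * δ ≤ (q : ℝ) ^ L * δ :=
      mul_le_mul_of_nonneg_right (pow_le_pow_right₀ hq1 hA) hδ0
    linarith
  · intro i hi
    have := h1 i hi
    simp only [U, Set.mem_iUnion, mem_closedBall, dist_eq_norm] at this
    exact this
  · intro i hi
    have := h2 i hi
    simp only [U, Set.mem_iUnion, mem_closedBall, dist_eq_norm] at this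
    exact this

/-- Atomless measures are uniformly small on small balls. -/
theorem small_balls (μ : Measure X) [IsProbabilityMeasure μ] (hna : ∀ x, μ {x} = 0) {ε : ℝ}
    (hε : 0 < ε) :
    ∃ δ > 0, ∀ x : X, (μ (closedBall x δ)).toReal ≤ ε := by
  have h1 : ∀ x : X, ∃ V : Set X, x ∈ V ∧ IsOpen V ∧ μ V < ENNReal.ofReal ε := by
    intro x
    have h0 : μ {x} < ENNReal.ofReal ε := by
      rw [hna]; exact ENNReal.ofReal_pos.2 hε
    obtain ⟨V, hV, hVo, hVμ⟩ := Set.exists_isOpen_lt_of_lt {x} _ h0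
    exact ⟨V, hV rfl, hVo, hVμ⟩
  choose V hxV hVo hVμ using h1
  obtain ⟨δ, hδ, h2⟩ := lebesgue_number_lemma_of_metric (s := (Set.univ : Set X)) isCompact_univ
    (c := V) hVo (fun x _ => Set.mem_iUnion.2 ⟨x, hxV x⟩)
  refine ⟨δ / 2, by positivity, fun x => ?_⟩
  obtain ⟨i, hi⟩ := h2 x (Set.mem_univ x)
  have h3 : μ (closedBall x (δ / 2)) ≤ ENNReal.ofReal ε :=
    (measure_mono ((closedBall_subset_ball (by linarith)).trans hi)).trans (hVμ i).le
  exact ENNReal.toReal_le_of_le_ofReal hε.le h3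

lemma mp_pow (p : ℕ) (μ : Measure X) (hinv : MeasurePreserving (fun x : X => p • x) μ μ) (n : ℕ) :
    MeasurePreserving (fun x : X => (p ^ n) • x) μ μ := by
  induction n with
  | zero =>
    simp only [pow_zero, one_smul]
    exact MeasurePreserving.id μ
  | succ n ih =>
    have h := ih.comp hinv
    have e : (fun x : X => (p ^ (n + 1)) • x) = (fun x : X => (p ^ n) • x) ∘ fun x : X => p • x := by
      ext x
      simp only [Function.comp_apply, pow_succ, mul_smul]
    rw [e]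
    exact h

lemma labels {ε : ℝ} (hε : 0 < ε) : ∃ (N : ℕ) (lab : X → Fin N), ∀ y z, lab y = lab z →
    ‖y - z‖ ≤ ε := by
  obtain ⟨t, -, htf, ht⟩ := (isCompact_univ (X := X)).finite_cover_balls (e := ε / 2)
    (by positivity)
  have := htf.fintype
  have hc : ∀ x : X, ∃ c : t, dist x c < ε / 2 := by
    intro x
    obtain ⟨c, hc⟩ := Set.mem_iUnion.1 (ht (Set.mem_univ x))
    obtain ⟨hct, hc⟩ := Set.mem_iUnion.1 hc
    exact ⟨⟨c, hct⟩, hc⟩
  choose f hf using hc
  refine ⟨Fintype.card t, fun x => Fintype.equivFin t (f x), fun y z h => ?_⟩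
  have h1 : f y = f z := (Fintype.equivFin t).injective h
  rw [← dist_eq_norm]
  have h2 := hf y
  have h3 := hf z
  rw [← h1] at h3
  have := dist_triangle_right y z (f y : X)
  linarith

/-- **The chain argument.**  If `x ↦ p x` is injective at the scale `p ^ (-k)` off `G k`, in the
shifted sense, then the complements of the `G k` have non-summable measures. -/
theorem chain (p : ℕ) (hp : 2 ≤ p) (μ : Measure X) [IsProbabilityMeasure μ]
    (hinv : MeasurePreserving (fun x : X => p • x) μ μ) (hna : ∀ x, μ {x} = 0)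
    (G : ℕ → Set X) (hG : ∀ k, MeasurableSet (G k)) (R : ℕ → ℕ) (hR : Monotone R)
    (hRk : Tendsto (fun k : ℕ => (p : ℝ) ^ (R k) / (p : ℝ) ^ k) atTop (𝓝 0)) (k0 : ℕ)
    (hsep : ∀ k ≥ k0, ∀ y ∈ G k, ∀ z ∈ G k,
      ‖(p ^ (R k + 1)) • (y - z)‖ ≤ (p : ℝ) ^ (R k + 1) / (p : ℝ) ^ k →
      ‖(p ^ (R k)) • (y - z)‖ ≤ (p : ℝ) ^ (R k) / (p : ℝ) ^ k) :
    ¬ Summable fun k => μ.real (G k)ᶜ := by
  intro hsum
  have hp0 : (0 : ℝ) < p := by exact_mod_cast (show 0 < p by omega)
  have h0 : ∀ k, 0 ≤ μ.real (G k)ᶜ := fun k => measureReal_nonneg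
  -- small tail
  obtain ⟨K1, hK1k, hK1⟩ : ∃ K1, k0 ≤ K1 ∧ ∀ n, ∑ j ∈ Ico (K1 + 1) (K1 + 1 + n), μ.real (G j)ᶜ ≤
      1 / 2 := by
    have ht := hsum.tendsto_cofinite_zero
    have h1 := (tendsto_sum_nat_add fun k => μ.real (G k)ᶜ)
    have h2 := h1.eventually (gt_mem_nhds (show (0 : ℝ) < 1 / 2 by norm_num))
    obtain ⟨K1, hK1⟩ := (h2.and (eventually_ge_atTop (k0 + 1))).exists
    refine ⟨K1 - 1, by omega, fun n => ?_⟩
    have e : K1 - 1 + 1 = K1 := by omega
    rw [e, sum_Ico_eq_sum_range, Nat.add_sub_cancel_left]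
    have h3 : Summable fun k => μ.real (G (k + K1))ᶜ :=
      (summable_nat_add_iff (f := fun k => μ.real (G k)ᶜ) K1).2 hsum
    have h4 := h3.sum_le_tsum (range n) (fun i _ => h0 _)
    calc ∑ k ∈ range n, μ.real (G (K1 + k))ᶜ = ∑ k ∈ range n, μ.real (G (k + K1))ᶜ := by
          simp_rw [add_comm]
      _ ≤ ∑' k, μ.real (G (k + K1))ᶜ := h4
      _ ≤ 1 / 2 := hK1.1.le
  obtain ⟨N, lab0, hlab0⟩ := labels (ε := 1 / (p : ℝ) ^ K1) (by positivity)
  have key : ∀ n, ∃ A : Set X, MeasurableSet A ∧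
      μ.real Aᶜ ≤ ∑ j ∈ Ico (K1 + 1) (K1 + 1 + n), μ.real (G j)ᶜ ∧
      ∃ lab : X → Fin N, ∀ y ∈ A, ∀ z ∈ A, lab y = lab z →
        ‖(p ^ (R (K1 + n))) • (y - z)‖ ≤ (p : ℝ) ^ (R (K1 + n)) / (p : ℝ) ^ (K1 + n) := by
    intro n
    induction n with
    | zero =>
      refine ⟨Set.univ, MeasurableSet.univ, by simp, lab0, fun y _ z _ h => ?_⟩
      have h1 := hlab0 y z h
      calc ‖(p ^ (R (K1 + 0))) • (y - z)‖ ≤ (p ^ (R (K1 + 0)) : ℕ) * ‖y - z‖ := norm_nsmul_le
        _ ≤ (p ^ (R (K1 + 0)) : ℕ) * (1 / (p : ℝ) ^ K1) := by gcongr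
        _ = (p : ℝ) ^ (R (K1 + 0)) / (p : ℝ) ^ (K1 + 0) := by push_cast; ring_nf
    | succ n ih =>
      obtain ⟨A, hA, hAμ, lab, hlab⟩ := ih
      refine ⟨(fun x : X => p • x) ⁻¹' A ∩ G (K1 + 1 + n),
        (hinv.measurable hA).inter (hG _), ?_, fun y => lab (p • y), ?_⟩
      · rw [Set.compl_inter, ← add_assoc, sum_Ico_succ_top (by omega)]
        refine (measureReal_union_le _ _).trans ?_
        refine add_le_add ?_ le_rfl
        rw [← Set.preimage_compl, hinv.measureReal_preimage hA.compl.nullMeasurableSet]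
        exact hAμ
      · intro y hy z hz hl
        have h1 := hlab (p • y) hy.1 (p • z) hz.1 hl
        have hk : K1 + (n + 1) = K1 + 1 + n := by ring
        rw [hk]
        refine hsep (K1 + 1 + n) (by omega) y hy.2 z hz.2 ?_
        have hle : R (K1 + n) ≤ R (K1 + 1 + n) := hR (by omega)
        set a := R (K1 + n) with ha
        set b := R (K1 + 1 + n) with hb
        have e : (p ^ (b + 1)) • (y - z) = (p ^ (b - a)) • ((p ^ a) • (p • y - p • z)) := by
          rw [← smul_sub, ← mul_smul, ← mul_smul]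
          congr 1
          rw [mul_assoc, ← pow_succ, ← pow_add]
          congr 1
          omega
        rw [e]
        calc ‖(p ^ (b - a)) • ((p ^ a) • (p • y - p • z))‖ ≤
            (p ^ (b - a) : ℕ) * ‖(p ^ a) • (p • y - p • z)‖ := norm_nsmul_le
          _ ≤ (p ^ (b - a) : ℕ) * ((p : ℝ) ^ a / (p : ℝ) ^ (K1 + n)) := by gcongr
          _ = (p : ℝ) ^ (b + 1) / (p : ℝ) ^ (K1 + 1 + n) := by
            have e1 : (p : ℝ) ^ b = (p : ℝ) ^ (b - a) * (p : ℝ) ^ a := by
              rw [← pow_add]; congr 1; omega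
            have e2 : (p : ℝ) ^ (K1 + 1 + n) = (p : ℝ) ^ (K1 + n) * p := by
              rw [← pow_succ]; congr 1; omega
            rw [pow_succ, e1, e2]
            push_cast
            field_simp
  -- conclusion
  obtain ⟨δ, hδ, hsmall⟩ := small_balls μ hna (ε := 1 / (4 * ((N : ℝ) + 1))) (by positivity)
  have hev : ∀ᶠ n : ℕ in atTop, (p : ℝ) ^ (R (K1 + n)) / (p : ℝ) ^ (K1 + n) < δ := by
    have h1 := hRk.eventually (gt_mem_nhds hδ)
    have h2 : Tendsto (fun n : ℕ => K1 + n) atTop atTop := by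
      simpa [add_comm] using tendsto_add_atTop_nat K1
    exact h2.eventually h1
  obtain ⟨n, hn⟩ := hev.exists
  obtain ⟨A, hA, hAμ, lab, hlab⟩ := key n
  have hAc : 1 / 2 ≤ μ.real A := by
    have h1 := hAμ.trans (hK1 n)
    rw [measureReal_compl hA, probReal_univ] at h1
    linarith
  classical
  set f : Fin N → X := fun a => if h : ∃ y ∈ A, lab y = a then h.choose else 0 with hf
  have hcov : A ⊆ ⋃ a : Fin N, (fun x : X => (p ^ (R (K1 + n))) • x) ⁻¹'
      (closedBall ((p ^ (R (K1 + n))) • f a) δ) := by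
    intro y hy
    have hex : ∃ y' ∈ A, lab y' = lab y := ⟨y, hy, rfl⟩
    have hfa : f (lab y) = hex.choose := by rw [hf]; simp only [dif_pos hex]
    have h1 := hlab y hy hex.choose hex.choose_spec.1 hex.choose_spec.2.symm
    rw [Set.mem_iUnion]
    refine ⟨lab y, ?_⟩
    rw [Set.mem_preimage, mem_closedBall, dist_eq_norm, hfa, ← smul_sub]
    exact h1.trans hn.le
  have h2 : μ.real A ≤ ∑ a : Fin N, μ.real ((fun x : X => (p ^ (R (K1 + n))) • x) ⁻¹'
      (closedBall ((p ^ (R (K1 + n))) • f a) δ)) :=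
    (measureReal_mono hcov).trans (measureReal_iUnion_fintype_le _)
  have h3 : ∀ a : Fin N, μ.real ((fun x : X => (p ^ (R (K1 + n))) • x) ⁻¹'
      (closedBall ((p ^ (R (K1 + n))) • f a) δ)) ≤ 1 / (4 * ((N : ℝ) + 1)) := by
    intro a
    rw [(mp_pow p μ hinv _).measureReal_preimage measurableSet_closedBall.nullMeasurableSet]
    exact hsmall _
  have h4 : μ.real A ≤ N * (1 / (4 * ((N : ℝ) + 1))) := by
    refine h2.trans ((sum_le_sum fun a _ => h3 a).trans ?_)
    rw [sum_const, card_univ, Fintype.card_fin, nsmul_eq_mul]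
  have h5 : (N : ℝ) * (1 / (4 * ((N : ℝ) + 1))) ≤ 1 / 4 := by
    have : (0 : ℝ) ≤ N := Nat.cast_nonneg N
    rw [mul_one_div, div_le_div_iff₀ (by positivity) (by norm_num)]
    linarith
  linarith

end Pool.Agent.H706R2.Ren
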