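import Pool.Agent.H706R2.Ren2

/-!
Rényi dimensions of `×p, ×q` invariant measures, part 3: the covering theorem and the theorem on
ergodic averages.
-/

set_option autoImplicit false

open MeasureTheory Finset Metric Filter
open scoped ENNReal Topology

namespace Pool.Agent.H706R2.Ren

lemma measurableSet_U {K : ℕ} (cen : Fin K → X) (ρ : ℝ) : MeasurableSet (U cen ρ) :=
  MeasurableSet.iUnion fun _ => measurableSet_closedBall

lemma measurable_smul (n : ℕ) : Measurable fun x : X => n • x :=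
  (continuous_nsmul n).measurable

lemma out_eq (q : ℕ) (S : Set X) (L : ℕ) (y : X) :
    (out q S L y : ℝ) = ∑ i ∈ range L, ((fun x : X => (q ^ i) • x) ⁻¹' Sᶜ).indicator
      (fun _ => (1 : ℝ)) y := by
  classical
  have : out q S L y = #{i ∈ range L | (q ^ i) • y ∉ S} := by unfold out; congr!
  rw [this, card_filter]
  push_cast
  refine sum_congr rfl fun i _ => ?_
  by_cases h : (q ^ i) • y ∈ S
  · rw [if_neg (by simpa using h), Set.indicator_of_notMem (by simpa using h)]
  · rw [if_pos h, Set.indicator_of_mem (by simpa using h)]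

lemma measurable_out (q : ℕ) {S : Set X} (hS : MeasurableSet S) (L : ℕ) :
    Measurable fun y => (out q S L y : ℝ) := by
  simp_rw [out_eq]
  exact Finset.measurable_fun_sum _ fun i _ =>
    measurable_const.indicator (measurable_smul _ hS.compl)

/-- Markov's inequality for the number of visits to the complement of `S`. -/
lemma markov (q : ℕ) (μ : Measure X) [IsProbabilityMeasure μ]
    (hinv : MeasurePreserving (fun x : X => q • x) μ μ) {S : Set X} (hS : MeasurableSet S)
    (L : ℕ) (hL : 1 ≤ L) : μ.real {y | (L : ℝ) / 4 < out q S L y} ≤ 4 * μ.real Sᶜ := by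
  have hLr : (0 : ℝ) < L := by exact_mod_cast hL
  have hint : ∀ i ∈ range L, Integrable (((fun x : X => (q ^ i) • x) ⁻¹' Sᶜ).indicator
      fun _ => (1 : ℝ)) μ := fun i _ =>
    (integrable_const 1).indicator (measurable_smul _ hS.compl)
  have h1 : ∫ y, (out q S L y : ℝ) ∂μ = L * μ.real Sᶜ := by
    simp_rw [out_eq]
    rw [integral_finsetSum _ hint]
    have : ∀ i ∈ range L, ∫ y, ((fun x : X => (q ^ i) • x) ⁻¹' Sᶜ).indicator
        (fun _ => (1 : ℝ)) y ∂μ = μ.real Sᶜ := by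
      intro i _
      rw [integral_indicator (measurable_smul _ hS.compl), setIntegral_const, smul_eq_mul, mul_one]
      exact (mp_pow q μ hinv i).measureReal_preimage hS.compl.nullMeasurableSet
    rw [sum_congr rfl this, sum_const, card_range, nsmul_eq_mul]
  have hi : Integrable (fun y => (out q S L y : ℝ)) μ := by
    simp_rw [out_eq]
    exact integrable_finsetSum _ hint
  have h2 := mul_meas_ge_le_integral_of_nonneg (μ := μ) (f := fun y => (out q S L y : ℝ))
    (Eventually.of_forall fun y => Nat.cast_nonneg _) hi ((L : ℝ) / 4)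
  rw [h1] at h2
  have h3 : μ.real {y | (L : ℝ) / 4 < out q S L y} ≤ μ.real {y | (L : ℝ) / 4 ≤ out q S L y} :=
    measureReal_mono (Set.ofPred_subset_ofPred.2 fun y hy => hy.le)
  have h4 : (L : ℝ) / 4 * μ.real {y | (L : ℝ) / 4 ≤ out q S L y} ≤ L * μ.real Sᶜ := h2
  have h5 : μ.real {y | (L : ℝ) / 4 ≤ out q S L y} ≤ 4 * μ.real Sᶜ := by
    have h6 : (L : ℝ) * μ.real {y | (L : ℝ) / 4 ≤ out q S L y} ≤ L * (4 * μ.real Sᶜ) := by
      linarith
    exact le_of_mul_le_mul_left h6 hLr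
  exact h3.trans h5

lemma summable_div {f : ℕ → ℝ} (h0 : ∀ n, 0 ≤ f n) (hf : Summable f) (B : ℕ) (hB : 1 ≤ B) :
    Summable fun k => f (k / B) := by
  refine summable_of_sum_range_le (c := B * ∑' n, f n) (fun _ => h0 _) fun n => ?_
  have h1 : ∑ k ∈ range n, f (k / B) = ∑ L ∈ range (n + 1), ∑ k ∈ range n with k / B = L,
      f (k / B) := by
    rw [sum_fiberwise_of_maps_to]
    intro k hk
    rw [mem_range] at *
    have := Nat.div_le_self k B
    omega
  rw [h1]
  have h2 : ∀ L ∈ range (n + 1), ∑ k ∈ range n with k / B = L, f (k / B) ≤ B * f L := by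
    intro L _
    have e : ∑ k ∈ range n with k / B = L, f (k / B) = ∑ k ∈ range n with k / B = L, f L := by
      refine sum_congr rfl fun k hk => ?_
      rw [mem_filter] at hk
      rw [hk.2]
    rw [e, sum_const, nsmul_eq_mul]
    refine mul_le_mul_of_nonneg_right ?_ (h0 L)
    have hsub : {k ∈ range n | k / B = L} ⊆ Finset.Ico (L * B) (L * B + B) := by
      intro k hk
      rw [mem_filter] at hk
      rw [Finset.mem_Ico]
      have h1 := Nat.div_add_mod k B
      have h2 := Nat.mod_lt k (show 0 < B by omega)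
      rw [hk.2, mul_comm] at h1
      omega
    have := card_le_card hsub
    rw [Nat.card_Ico] at this
    have h3 : #{k ∈ range n | k / B = L} ≤ B := by omega
    exact_mod_cast h3
  refine (sum_le_sum h2).trans ?_
  rw [← mul_sum]
  exact mul_le_mul_of_nonneg_left (hf.sum_le_tsum _ fun i _ => h0 i) (Nat.cast_nonneg _)

/-- the exponent which relates the two bases -/
lemma exists_B (p q : ℕ) (hp : 2 ≤ p) : ∃ B : ℕ, 1 ≤ B ∧ q ^ 2 ≤ p ^ B := by
  refine ⟨q ^ 2 + 1, by omega, ?_⟩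
  have := Nat.lt_pow_self (n := q ^ 2 + 1) (show 1 < p by omega)
  omega

lemma growth (p D : ℕ) (hp : 2 ≤ p) : ∀ᶠ k : ℕ in atTop, (D * (k + 1)) ^ 2 < p ^ k := by
  have h1 : Tendsto (fun k : ℕ => ((k : ℝ) + 1) ^ 2 / (2 : ℝ) ^ k) atTop (𝓝 0) := by
    have h2 : Tendsto (fun k : ℕ => ((k : ℝ)) ^ 2 / (2 : ℝ) ^ k) atTop (𝓝 0) :=
      tendsto_pow_const_div_const_pow_of_one_lt 2 (by norm_num)
    have h3 := (h2.comp (tendsto_add_atTop_nat 1)).const_mul 2
    rw [mul_zero] at h3
    refine h3.congr fun k => ?_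
    simp only [Function.comp]
    have e : (2 : ℝ) ^ (k + 1) = 2 ^ k * 2 := pow_succ _ _
    push_cast
    rw [e]
    field_simp
  have h2 := h1.eventually (gt_mem_nhds (show (0 : ℝ) < 1 / ((D : ℝ) ^ 2 + 1) by positivity))
  filter_upwards [h2] with k hk
  rw [div_lt_div_iff₀ (by positivity) (by positivity), one_mul] at hk
  have h3 : ((D * (k + 1) : ℕ) : ℝ) ^ 2 < (2 : ℝ) ^ k := by
    push_cast
    nlinarith [sq_nonneg ((k : ℝ) + 1)]
  have h4 : (D * (k + 1)) ^ 2 < 2 ^ k := by exact_mod_cast h3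
  exact h4.trans_le (Nat.pow_le_pow_left hp k)

lemma clog_bound (p n : ℕ) (hp : 2 ≤ p) : p ^ (Nat.clog p n + 1) ≤ p ^ 2 * (n + 1) := by
  rcases Nat.lt_or_ge 1 n with h | h
  · have h1 := Nat.pow_pred_clog_lt_self (show 1 < p by omega) h
    have h2 : 0 < Nat.clog p n := Nat.clog_pos (by omega) h
    have h3 : p ^ (Nat.clog p n + 1) = p ^ 2 * p ^ (Nat.clog p n).pred := by
      rw [← pow_add]
      congr 1
      have : (Nat.clog p n).pred = Nat.clog p n - 1 := rfl
      omega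
    rw [h3]
    exact Nat.mul_le_mul_left _ (by omega)
  · have : Nat.clog p n = 0 := Nat.clog_of_right_le_one h p
    rw [this]
    have h1 : p ^ (0 + 1) ≤ p ^ 2 := Nat.pow_le_pow_right (by omega) (by omega)
    calc p ^ (0 + 1) ≤ p ^ 2 := h1
      _ ≤ p ^ 2 * (n + 1) := Nat.le_mul_of_pos_right _ (by omega)

/-- **Covering theorem.** -/
theorem cover (p q : ℕ) (hp : p.Prime) (hq : 2 ≤ q) (hpq : ¬ p ∣ q) :
    ∃ c : ℝ, 0 < c ∧ ∀ μ : Measure X, IsProbabilityMeasure μ → (∀ x, μ {x} = 0) →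
      MeasurePreserving (fun x : X => p • x) μ μ → MeasurePreserving (fun x : X => q • x) μ μ →
      ∀ (K : ℕ → ℕ) (cen : ∀ n, Fin (K n) → X) (ρ : ℕ → ℝ), (∀ n, (K n : ℝ) ^ 2 ≤ c * n) →
        (∀ n, 1 ≤ n → ρ n ≤ c / n) → ¬ Summable fun n => μ.real (U (cen n) (ρ n))ᶜ := by
  obtain ⟨C, hC1, hC⟩ := ord_bound p q hp hq hpq
  obtain ⟨B, hB1, hB⟩ := exists_B p q hp.two_le
  have hp0 : (0 : ℝ) < p := by exact_mod_cast hp.pos
  set c : ℝ := min (1 / 64) (1 / (8 * (p : ℝ) ^ 2 * (C + 1))) with hc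
  have hc0 : 0 < c := lt_min (by norm_num) (by positivity)
  refine ⟨c, hc0, ?_⟩
  intro μ hμ hna hip hiq K cen ρ hK hρ hsum
  set G : ℕ → Set X := fun k => {y | (out q (U (cen (k / B)) (ρ (k / B))) (k / B) y : ℝ) ≤
    ((k / B : ℕ) : ℝ) / 4} with hG
  set R : ℕ → ℕ := fun k => Nat.clog p (C * (k / B)) with hR
  set D : ℕ := 8 * (p ^ 2 * (C + 1)) with hD
  have hRD : ∀ k, 8 * p ^ (R k + 1) ≤ D * (k + 1) := by
    intro k
    have h1 := clog_bound p (C * (k / B)) hp.two_le
    have h2 : C * (k / B) + 1 ≤ (C + 1) * (k + 1) := by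
      have := Nat.div_le_self k B
      nlinarith
    calc 8 * p ^ (R k + 1) ≤ 8 * (p ^ 2 * (C * (k / B) + 1)) := Nat.mul_le_mul_left _ h1
      _ ≤ 8 * (p ^ 2 * ((C + 1) * (k + 1))) := by gcongr
      _ = D * (k + 1) := by rw [hD]; ring
  have hgr := growth p D hp.two_le
  obtain ⟨k1, hk1⟩ := eventually_atTop.1 hgr
  refine chain p hp.two_le μ hip hna G (fun k => ?_) R (fun a b hab => ?_) ?_ (max k1 (8 * B))
    (fun k hk y hy z hz hyz => ?_) ?_
  · exact measurableSet_le (measurable_out q (measurableSet_U _ _) _) measurable_const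
  · exact Nat.clog_mono_right p (Nat.mul_le_mul_left C (Nat.div_le_div_right hab))
  · have hlim : Tendsto (fun k : ℕ => 1 / ((k : ℝ) + 1)) atTop (𝓝 0) :=
      tendsto_one_div_add_atTop_nhds_zero_nat
    refine squeeze_zero' (Eventually.of_forall fun k => by positivity) ?_ hlim
    filter_upwards [hgr] with k hk
    have h1 : (D * (k + 1) : ℝ) ^ 2 < (p : ℝ) ^ k := by exact_mod_cast hk
    have h2 : (p : ℝ) ^ (R k) ≤ D * (k + 1) := by
      have h3 : p ^ (R k) ≤ D * (k + 1) := by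
        refine le_trans ?_ (hRD k)
        have : p ^ R k ≤ p ^ (R k + 1) := Nat.pow_le_pow_right hp.pos (by omega)
        omega
      exact_mod_cast h3
    have hD1 : (1 : ℝ) ≤ D := by
      have : 1 ≤ D := by
        rw [hD]
        have := Nat.mul_pos (Nat.pow_pos (n := 2) hp.pos) (show 0 < C + 1 by omega)
        omega
      exact_mod_cast this
    have hk0 : (0 : ℝ) < (k : ℝ) + 1 := by positivity
    rw [div_le_div_iff₀ (by positivity) hk0, one_mul]
    calc (p : ℝ) ^ (R k) * (k + 1) ≤ (D * (k + 1)) * (D * (k + 1)) := by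
          refine mul_le_mul h2 ?_ hk0.le (by positivity)
          nlinarith
      _ = (D * (k + 1)) ^ 2 := by ring
      _ ≤ (p : ℝ) ^ k := h1.le
  · set L := k / B with hL
    have hkB : 8 * B ≤ k := (le_max_right _ _).trans hk
    have hL8 : 8 ≤ L := by
      rw [hL, Nat.le_div_iff_mul_le (by omega)]; exact hkB
    have hLB : B * L ≤ k := Nat.mul_div_le k B
    have hLr : (8 : ℝ) ≤ L := by exact_mod_cast hL8
    have hy' : 4 * out q (U (cen L) (ρ L)) L y ≤ L := by
      have h1 : (out q (U (cen L) (ρ L)) L y : ℝ) ≤ (L : ℝ) / 4 := hy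
      have h2 : ((4 * out q (U (cen L) (ρ L)) L y : ℕ) : ℝ) ≤ L := by push_cast; linarith
      exact_mod_cast h2
    have hz' : 4 * out q (U (cen L) (ρ L)) L z ≤ L := by
      have h1 : (out q (U (cen L) (ρ L)) L z : ℝ) ≤ (L : ℝ) / 4 := hz
      have h2 : ((4 * out q (U (cen L) (ρ L)) L z : ℕ) : ℝ) ≤ L := by push_cast; linarith
      exact_mod_cast h2
    have hK2 : 64 * K L ^ 2 ≤ L := by
      have h1 : (K L : ℝ) ^ 2 ≤ 1 / 64 * L :=
        (hK L).trans (mul_le_mul_of_nonneg_right (min_le_left _ _) (by linarith))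
      have h2 : ((64 * K L ^ 2 : ℕ) : ℝ) ≤ L := by push_cast; linarith
      exact_mod_cast h2
    have hW1 : 1 ≤ L / 8 := by omega
    have hdiv : L / (L / 8) ≤ 15 := by
      rw [Nat.div_le_iff_le_mul_add_pred (by omega)]
      omega
    have h15 : L / (L / 8) * K L ^ 2 ≤ 15 * K L ^ 2 := Nat.mul_le_mul_right _ hdiv
    have hR1 : C * (L / 8) ≤ p ^ (R k + 1) := by
      calc C * (L / 8) ≤ C * L := Nat.mul_le_mul_left _ (Nat.div_le_self _ _)
        _ ≤ p ^ (R k) := Nat.le_pow_clog hp.one_lt _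
        _ ≤ p ^ (R k + 1) := Nat.pow_le_pow_right hp.pos (by omega)
    have hρL : 8 * ρ L * (p : ℝ) ^ (R k + 1) ≤ 1 := by
      have h1 : (p : ℝ) ^ (R k + 1) ≤ (p : ℝ) ^ 2 * (C + 1) * L := by
        have h2 := clog_bound p (C * L) hp.two_le
        have h3 : p ^ (R k + 1) ≤ p ^ 2 * (C + 1) * L := by
          refine h2.trans ?_
          rw [mul_assoc]
          refine Nat.mul_le_mul_left _ ?_
          nlinarith
        exact_mod_cast h3
      rcases le_or_gt (ρ L) 0 with h | h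
      · have : 8 * ρ L * (p : ℝ) ^ (R k + 1) ≤ 0 :=
          mul_nonpos_of_nonpos_of_nonneg (by linarith) (by positivity)
        linarith
      · have h4 : ρ L * L ≤ 1 / (8 * (p : ℝ) ^ 2 * (C + 1)) := by
          have h5 := hρ L (by omega)
          rw [le_div_iff₀ (by linarith)] at h5
          exact h5.trans (min_le_right _ _)
        rw [le_div_iff₀ (by positivity)] at h4
        calc 8 * ρ L * (p : ℝ) ^ (R k + 1) ≤ 8 * ρ L * ((p : ℝ) ^ 2 * (C + 1) * L) := by gcongr
          _ = ρ L * L * (8 * (p : ℝ) ^ 2 * (C + 1)) := by ring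
          _ ≤ 1 := h4
    have hδ : 8 * ((q : ℝ) ^ L * ((p : ℝ) ^ (R k + 1) / (p : ℝ) ^ k)) < 1 := by
      have h1 : (q ^ L) ^ 2 ≤ p ^ k := by
        calc (q ^ L) ^ 2 = (q ^ 2) ^ L := by rw [← pow_mul, ← pow_mul, mul_comm]
          _ ≤ (p ^ B) ^ L := Nat.pow_le_pow_left hB _
          _ = p ^ (B * L) := by rw [← pow_mul]
          _ ≤ p ^ k := Nat.pow_le_pow_right hp.pos hLB
      have h2 : (8 * p ^ (R k + 1)) ^ 2 < p ^ k :=
        lt_of_le_of_lt (Nat.pow_le_pow_left (hRD k) 2) (hk1 k ((le_max_left _ _).trans hk))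
      have h3 : (q ^ L * (8 * p ^ (R k + 1))) ^ 2 < (p ^ k) ^ 2 := by
        have hqpos : 0 < (q ^ L) ^ 2 := by positivity
        calc (q ^ L * (8 * p ^ (R k + 1))) ^ 2 = (q ^ L) ^ 2 * (8 * p ^ (R k + 1)) ^ 2 := by
              rw [mul_pow]
          _ < (q ^ L) ^ 2 * p ^ k := Nat.mul_lt_mul_of_pos_left h2 hqpos
          _ ≤ p ^ k * p ^ k := Nat.mul_le_mul_right _ h1
          _ = (p ^ k) ^ 2 := by ring
      have h4 : q ^ L * (8 * p ^ (R k + 1)) < p ^ k := lt_of_pow_lt_pow_left₀ 2 (Nat.zero_le _) h3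
      have h5 : (q : ℝ) ^ L * (8 * (p : ℝ) ^ (R k + 1)) < (p : ℝ) ^ k := by exact_mod_cast h4
      have e : 8 * ((q : ℝ) ^ L * ((p : ℝ) ^ (R k + 1) / (p : ℝ) ^ k)) =
          (q : ℝ) ^ L * (8 * (p : ℝ) ^ (R k + 1)) / (p : ℝ) ^ k := by ring
      rw [e, div_lt_one (by positivity)]
      exact h5
    have hfin := sep p q (R k) (L / 8) (K L) C L hp (by omega) hpq hC hW1 hR1 (cen L) (ρ L)
      ((p : ℝ) ^ (R k + 1) / (p : ℝ) ^ k) (by positivity) hρL hδ y z (by omega) hyz
    refine hfin.trans (le_of_eq ?_)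
    rw [pow_succ]
    field_simp
  · have h1 : Summable fun k => 4 * μ.real (U (cen (k / B)) (ρ (k / B)))ᶜ :=
      (summable_div (fun n => measureReal_nonneg) hsum B hB1).mul_left 4
    refine Summable.of_nonneg_of_le (fun k => measureReal_nonneg) (fun k => ?_) h1
    have e : (G k)ᶜ = {y | ((k / B : ℕ) : ℝ) / 4 <
        out q (U (cen (k / B)) (ρ (k / B))) (k / B) y} := by
      ext y
      simp only [hG, Set.mem_compl_iff, Set.mem_ofPred_eq, not_le]
    rcases Nat.eq_zero_or_pos (k / B) with h0 | h0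
    · have e2 : (G k)ᶜ = ∅ := by
        rw [e, h0]
        ext y
        simp [out]
      rw [e2, measureReal_empty]
      positivity
    · rw [e]
      exact markov q μ hiq (measurableSet_U _ _) _ h0

end Pool.Agent.H706R2.Ren
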