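import Pool.Agent.H706R2.Ren3

/-!
Rényi dimensions of `×p, ×q` invariant measures, part 4: ergodic averages.
-/

set_option autoImplicit false

open MeasureTheory Finset Metric Filter
open scoped ENNReal Topology

namespace Pool.Agent.H706R2.Ren

/-- **Slow ergodic averages.** -/
theorem averages (p q : ℕ) (hp : p.Prime) (hq : 2 ≤ q) (hpq : ¬ p ∣ q) :
    ∃ c : ℝ, 0 < c ∧ ∀ μ : Measure X, IsProbabilityMeasure μ → (∀ x, μ {x} = 0) →
      MeasurePreserving (fun x : X => p • x) μ μ → MeasurePreserving (fun x : X => q • x) μ μ →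
      ∀ (κ : ℝ) (K : ℕ) (cen : Fin K → X) (ρ : ℝ), 0 < κ → κ ≤ 1 / 2 → 1 ≤ K →
        ρ * K ^ 2 ≤ c * κ →
        ¬ Summable fun L : ℕ => μ.real {y | (1 / 2 - κ) * L ≤ out q (U cen ρ) L y} := by
  obtain ⟨C, hC1, hC⟩ := ord_bound p q hp hq hpq
  obtain ⟨B, hB1, hB⟩ := exists_B p q hp.two_le
  have hp0 : (0 : ℝ) < p := by exact_mod_cast hp.pos
  set c : ℝ := 1 / (16 * (p : ℝ) ^ 2 * (C + 1)) with hc
  have hc0 : 0 < c := by positivity
  refine ⟨c, hc0, ?_⟩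
  intro μ hμ hna hip hiq κ K cen ρ hκ0 hκ1 hK hρ hsum
  have hKr : (1 : ℝ) ≤ K := by exact_mod_cast hK
  have hK2 : (1 : ℝ) ≤ (K : ℝ) ^ 2 := one_le_pow₀ hKr
  set W : ℕ := ⌈(K : ℝ) ^ 2 / κ⌉₊ with hW
  have hKκ : 1 ≤ (K : ℝ) ^ 2 / κ := by rw [le_div_iff₀ hκ0]; linarith
  have hW1 : (K : ℝ) ^ 2 / κ ≤ W := Nat.le_ceil _
  have hW2 : (W : ℝ) ≤ 2 * ((K : ℝ) ^ 2 / κ) := by
    have := (Nat.ceil_lt_add_one (show 0 ≤ (K : ℝ) ^ 2 / κ by positivity)).le
    linarith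
  have hWpos : 1 ≤ W := by
    have : (1 : ℝ) ≤ W := hKκ.trans hW1
    exact_mod_cast this
  set r : ℕ := Nat.clog p (C * W) with hr
  have hr1 : p ^ (r + 1) ≤ p ^ 2 * (C * W + 1) := clog_bound p (C * W) hp.two_le
  have hrr : (p : ℝ) ^ (r + 1) ≤ (p : ℝ) ^ 2 * ((C + 1) * (2 * ((K : ℝ) ^ 2 / κ))) := by
    have h1 : (p : ℝ) ^ (r + 1) ≤ (p : ℝ) ^ 2 * (C * W + 1) := by exact_mod_cast hr1
    refine h1.trans ?_
    have hWr : (1 : ℝ) ≤ W := by exact_mod_cast hWpos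
    gcongr
    have hC0 : (0 : ℝ) ≤ C := Nat.cast_nonneg C
    nlinarith
  have hρ8 : 8 * ρ * (p : ℝ) ^ (r + 1) ≤ 1 := by
    rcases le_or_gt ρ 0 with h | h
    · have : 8 * ρ * (p : ℝ) ^ (r + 1) ≤ 0 :=
        mul_nonpos_of_nonpos_of_nonneg (by linarith) (by positivity)
      linarith
    · calc 8 * ρ * (p : ℝ) ^ (r + 1) ≤
          8 * ρ * ((p : ℝ) ^ 2 * ((C + 1) * (2 * ((K : ℝ) ^ 2 / κ)))) := by gcongr
        _ = ρ * (K : ℝ) ^ 2 * (16 * (p : ℝ) ^ 2 * (C + 1)) / κ := by ring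
        _ ≤ c * κ * (16 * (p : ℝ) ^ 2 * (C + 1)) / κ := by gcongr
        _ = 1 := by rw [hc]; field_simp
  set G : ℕ → Set X := fun k => {y | (out q (U cen ρ) (k / B) y : ℝ) <
    (1 / 2 - κ) * ((k / B : ℕ) : ℝ)} with hG
  set D : ℕ := 8 * p ^ (r + 1) with hD
  have hgr := growth p D hp.two_le
  obtain ⟨k1, hk1⟩ := eventually_atTop.1 hgr
  obtain ⟨L0, hL0⟩ := exists_nat_gt ((W : ℝ) / κ)
  refine chain p hp.two_le μ hip hna G (fun k => ?_) (fun _ => r) (fun a b _ => le_rfl) ?_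
    (max k1 ((L0 + 1) * B)) (fun k hk y hy z hz hyz => ?_) ?_
  · exact measurableSet_lt (measurable_out q (measurableSet_U _ _) _) measurable_const
  · have h1 : Tendsto (fun k : ℕ => (1 / (p : ℝ)) ^ k) atTop (𝓝 0) := by
      apply tendsto_pow_atTop_nhds_zero_of_lt_one (by positivity)
      rw [div_lt_one hp0]
      exact_mod_cast hp.one_lt
    have h2 := h1.const_mul ((p : ℝ) ^ r)
    rw [mul_zero] at h2
    refine h2.congr fun k => ?_
    rw [one_div, inv_pow, div_eq_mul_inv]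
  · set L := k / B with hL
    have hkB : (L0 + 1) * B ≤ k := (le_max_right _ _).trans hk
    have hLL : L0 + 1 ≤ L := by
      rw [hL, Nat.le_div_iff_mul_le (by omega)]; exact hkB
    have hLB : B * L ≤ k := Nat.mul_div_le k B
    have hWL : (W : ℝ) < κ * L := by
      have h1 : (L0 : ℝ) ≤ L := by exact_mod_cast (by omega : L0 ≤ L)
      rw [div_lt_iff₀ hκ0] at hL0
      nlinarith
    have hnat : out q (U cen ρ) L y + out q (U cen ρ) L z + (L / W) * K ^ 2 + W < L := by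
      have h1 : (out q (U cen ρ) L y : ℝ) < (1 / 2 - κ) * L := hy
      have h2 : (out q (U cen ρ) L z : ℝ) < (1 / 2 - κ) * L := hz
      have h3 : ((L / W : ℕ) : ℝ) * (K : ℝ) ^ 2 ≤ κ * L := by
        have h4 : ((L / W : ℕ) : ℝ) * W ≤ L := by exact_mod_cast Nat.div_mul_le_self L W
        have h5 : (K : ℝ) ^ 2 ≤ κ * W := by
          rw [div_le_iff₀ hκ0] at hW1; linarith
        calc ((L / W : ℕ) : ℝ) * (K : ℝ) ^ 2 ≤ ((L / W : ℕ) : ℝ) * (κ * W) := by gcongr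
          _ = κ * (((L / W : ℕ) : ℝ) * W) := by ring
          _ ≤ κ * L := mul_le_mul_of_nonneg_left h4 hκ0.le
      have h6 : ((out q (U cen ρ) L y + out q (U cen ρ) L z + (L / W) * K ^ 2 + W : ℕ) : ℝ) <
          (L : ℝ) := by
        push_cast
        linarith
      exact_mod_cast h6
    have hδ : 8 * ((q : ℝ) ^ L * ((p : ℝ) ^ (r + 1) / (p : ℝ) ^ k)) < 1 := by
      have h1 : (q ^ L) ^ 2 ≤ p ^ k := by
        calc (q ^ L) ^ 2 = (q ^ 2) ^ L := by rw [← pow_mul, ← pow_mul, mul_comm]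
          _ ≤ (p ^ B) ^ L := Nat.pow_le_pow_left hB _
          _ = p ^ (B * L) := by rw [← pow_mul]
          _ ≤ p ^ k := Nat.pow_le_pow_right hp.pos hLB
      have h2 : (8 * p ^ (r + 1)) ^ 2 < p ^ k :=
        lt_of_le_of_lt (Nat.pow_le_pow_left (Nat.le_mul_of_pos_right _ (by omega)) 2)
          (hk1 k ((le_max_left _ _).trans hk))
      have h3 : (q ^ L * (8 * p ^ (r + 1))) ^ 2 < (p ^ k) ^ 2 := by
        have hqpos : 0 < (q ^ L) ^ 2 := by positivity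
        calc (q ^ L * (8 * p ^ (r + 1))) ^ 2 = (q ^ L) ^ 2 * (8 * p ^ (r + 1)) ^ 2 := by
              rw [mul_pow]
          _ < (q ^ L) ^ 2 * p ^ k := Nat.mul_lt_mul_of_pos_left h2 hqpos
          _ ≤ p ^ k * p ^ k := Nat.mul_le_mul_right _ h1
          _ = (p ^ k) ^ 2 := by ring
      have h4 : q ^ L * (8 * p ^ (r + 1)) < p ^ k := lt_of_pow_lt_pow_left₀ 2 (Nat.zero_le _) h3
      have h5 : (q : ℝ) ^ L * (8 * (p : ℝ) ^ (r + 1)) < (p : ℝ) ^ k := by exact_mod_cast h4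
      have e : 8 * ((q : ℝ) ^ L * ((p : ℝ) ^ (r + 1) / (p : ℝ) ^ k)) =
          (q : ℝ) ^ L * (8 * (p : ℝ) ^ (r + 1)) / (p : ℝ) ^ k := by ring
      rw [e, div_lt_one (by positivity)]
      exact h5
    have hfin := sep p q r W K C L hp (by omega) hpq hC hWpos
      ((Nat.le_pow_clog hp.one_lt _).trans (Nat.pow_le_pow_right hp.pos (by omega))) cen ρ
      ((p : ℝ) ^ (r + 1) / (p : ℝ) ^ k) (by positivity) hρ8 hδ y z hnat hyz
    refine hfin.trans (le_of_eq ?_)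
    rw [pow_succ]
    field_simp
  · have h1 := summable_div (f := fun L : ℕ => μ.real {y | (1 / 2 - κ) * L ≤
      out q (U cen ρ) L y}) (fun n => measureReal_nonneg) hsum B hB1
    refine h1.congr fun k => ?_
    congr 1
    ext y
    simp only [hG, Set.mem_compl_iff, Set.mem_ofPred_eq, not_lt]

end Pool.Agent.H706R2.Ren
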