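import Pool.Agent.H706R2.Ren4

/-!
Rényi dimensions of `×p, ×q` invariant measures, part 5: the sums `∑ μ(I)^s`.
-/

set_option autoImplicit false

open MeasureTheory Finset Metric Filter
open scoped ENNReal Topology

namespace Pool.Agent.H706R2.Ren

/-- The arc `[j/n, (j+1)/n)` of the circle. -/
def arc (n j : ℕ) : Set X := (fun x : ℝ => (x : X)) '' Set.Ico ((j : ℝ) / n) (((j : ℝ) + 1) / n)

lemma arc_cover (n : ℕ) (hn : 1 ≤ n) (x : X) : ∃ j < n, x ∈ arc n j := by
  have hn0 : (0 : ℝ) < n := by exact_mod_cast hn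
  obtain ⟨y, hy, rfl⟩ : ∃ y : ℝ, y ∈ Set.Ico (0 : ℝ) 1 ∧ (y : X) = x := by
    have := (AddCircle.equivIco (1 : ℝ) 0 x)
    refine ⟨(AddCircle.equivIco (1 : ℝ) 0 x : ℝ), ?_, ?_⟩
    · have h := (AddCircle.equivIco (1 : ℝ) 0 x).2
      simpa using h
    · exact (AddCircle.equivIco (1 : ℝ) 0).symm_apply_apply x
  refine ⟨⌊y * n⌋₊, ?_, y, ⟨?_, ?_⟩, rfl⟩
  · rw [Nat.floor_lt (mul_nonneg hy.1 hn0.le)]
    nlinarith [hy.2]
  · rw [div_le_iff₀ hn0]
    exact Nat.floor_le (mul_nonneg hy.1 hn0.le)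
  · rw [lt_div_iff₀ hn0]
    exact Nat.lt_floor_add_one _

lemma arc_subset (n j : ℕ) (hn : 1 ≤ n) :
    arc n j ⊆ closedBall (((((j : ℝ) + 1 / 2) / n : ℝ)) : X) (1 / (2 * n)) := by
  have hn0 : (0 : ℝ) < n := by exact_mod_cast hn
  rintro _ ⟨x, hx, rfl⟩
  rw [mem_closedBall, dist_eq_norm, ← AddCircle.coe_sub, UnitAddCircle.norm_eq]
  refine (round_le _ 0).trans ?_
  rw [Int.cast_zero, sub_zero, abs_le]
  obtain ⟨h1, h2⟩ := hx
  rw [div_le_iff₀ hn0] at h1
  rw [lt_div_iff₀ hn0] at h2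
  have e1 : ((j : ℝ) + 1 / 2) / n = (j : ℝ) / n + 1 / (2 * n) := by field_simp
  have e2 : (j : ℝ) / n ≤ x := by rw [div_le_iff₀ hn0]; exact h1
  have e3 : x ≤ (j : ℝ) / n + 1 / n := by
    rw [← add_div, le_div_iff₀ hn0]; exact h2.le
  have e4 : 1 / (n : ℝ) = 1 / (2 * n) + 1 / (2 * n) := by field_simp; norm_num
  constructor <;> linarith

/-- **Lower bound for the Rényi sums.** -/
theorem renyi (p q : ℕ) (hp : p.Prime) (hq : 2 ≤ q) (hpq : ¬ p ∣ q)
    (μ : Measure X) [IsProbabilityMeasure μ] (hna : ∀ x, μ {x} = 0)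
    (hip : MeasurePreserving (fun x : X => p • x) μ μ)
    (hiq : MeasurePreserving (fun x : X => q • x) μ μ) (s t : ℝ) (hs : 0 < s) (hs3 : s < 1 / 3)
    (ht : t < (1 - 3 * s) / 2) :
    ∃ᶠ n : ℕ in atTop, (n : ℝ) ^ t ≤ ∑ j ∈ range n, μ.real (arc n j) ^ s := by
  classical
  obtain ⟨c, hc0, hcov⟩ := cover p q hp hq hpq
  rw [Filter.Frequently]
  intro hev
  simp only [not_le] at hev
  obtain ⟨n0, hn0⟩ := eventually_atTop.1 hev
  set A : ℕ := ⌈1 / (2 * c)⌉₊ with hA
  have hApos : 1 ≤ A := Nat.one_le_iff_ne_zero.2 (Nat.ceil_pos.2 (by positivity)).ne'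
  have hAr : 1 / (2 * c) ≤ A := Nat.le_ceil _
  have hA0 : (0 : ℝ) < A := by exact_mod_cast hApos
  -- heavy arcs
  set lam : ℕ → ℝ := fun k => (((A * k : ℕ) : ℝ) ^ t / (c * k) ^ (1 / 2 : ℝ)) ^ (1 / s) with hlam
  set H : ℕ → Finset ℕ := fun k => if n0 + 1 ≤ k then
    {j ∈ range (A * k) | lam k ≤ μ.real (arc (A * k) j)} else ∅ with hH
  set cen : ∀ k, Fin (H k).card → X := fun k a =>
    (((((((H k).equivFin.symm a : ℕ) : ℝ) + 1 / 2) / ((A * k : ℕ) : ℝ) : ℝ)) : X) with hcen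
  have hpow : ∀ k, 1 ≤ k → 0 < ((A * k : ℕ) : ℝ) ^ t := fun k hk =>
    Real.rpow_pos_of_pos (by exact_mod_cast Nat.mul_pos hApos hk) _
  have hsq : ∀ k : ℕ, 1 ≤ k → 0 < (c * k : ℝ) ^ (1 / 2 : ℝ) := fun k hk =>
    Real.rpow_pos_of_pos (mul_pos hc0 (by exact_mod_cast hk)) _
  have hlam0 : ∀ k, 1 ≤ k → 0 < lam k := fun k hk =>
    Real.rpow_pos_of_pos (div_pos (hpow k hk) (hsq k hk)) _
  have hlams : ∀ k, 1 ≤ k → lam k ^ s = ((A * k : ℕ) : ℝ) ^ t / (c * k) ^ (1 / 2 : ℝ) := by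
    intro k hk
    have e : (1 : ℝ) / s * s = 1 := one_div_mul_cancel hs.ne'
    change ((((A * k : ℕ) : ℝ) ^ t / (c * k) ^ (1 / 2 : ℝ)) ^ (1 / s)) ^ s = _
    rw [← Real.rpow_mul (div_pos (hpow k hk) (hsq k hk)).le, e, Real.rpow_one]
  have hsumk : ∀ k, n0 + 1 ≤ k → ∑ j ∈ range (A * k), μ.real (arc (A * k) j) ^ s <
      ((A * k : ℕ) : ℝ) ^ t := by
    intro k hk
    refine hn0 _ ?_
    calc n0 ≤ k := by omega
      _ ≤ A * k := Nat.le_mul_of_pos_left _ hApos
  have h0 : ∀ k j, 0 ≤ μ.real (arc (A * k) j) ^ s := fun k j =>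
    Real.rpow_nonneg measureReal_nonneg _
  refine hcov μ inferInstance hna hip hiq (fun k => (H k).card) cen
    (fun k => 1 / (2 * ((A * k : ℕ) : ℝ))) (fun k => ?_) (fun k hk => ?_) ?_
  · by_cases hk : n0 + 1 ≤ k
    · have hk1 : 1 ≤ k := by omega
      have hHk : H k = {j ∈ range (A * k) | lam k ≤ μ.real (arc (A * k) j)} := by
        rw [hH]; simp only [if_pos hk]
      have h1 : ((H k).card : ℝ) * lam k ^ s ≤ ∑ j ∈ range (A * k), μ.real (arc (A * k) j) ^ s := by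
        calc ((H k).card : ℝ) * lam k ^ s = ∑ j ∈ H k, lam k ^ s := by
              rw [sum_const, nsmul_eq_mul]
          _ ≤ ∑ j ∈ H k, μ.real (arc (A * k) j) ^ s := by
              refine sum_le_sum fun j hj => ?_
              rw [hHk, mem_filter] at hj
              exact Real.rpow_le_rpow (hlam0 k hk1).le hj.2 hs.le
          _ ≤ ∑ j ∈ range (A * k), μ.real (arc (A * k) j) ^ s := by
              refine sum_le_sum_of_subset_of_nonneg ?_ fun j _ _ => h0 k j
              rw [hHk]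
              exact filter_subset _ _
      have h2 : ((H k).card : ℝ) * lam k ^ s < ((A * k : ℕ) : ℝ) ^ t := h1.trans_lt (hsumk k hk)
      rw [hlams k hk1, ← mul_div_assoc, div_lt_iff₀ (hsq k hk1), mul_comm] at h2
      have h3 : ((H k).card : ℝ) < (c * k : ℝ) ^ (1 / 2 : ℝ) := by
        exact lt_of_mul_lt_mul_left h2 (hpow k hk1).le
      have h4 : ((H k).card : ℝ) ^ 2 < ((c * k : ℝ) ^ (1 / 2 : ℝ)) ^ 2 := by
        exact pow_lt_pow_left₀ h3 (Nat.cast_nonneg _) (by norm_num)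
      have h5 : ((c * k : ℝ) ^ (1 / 2 : ℝ)) ^ 2 = c * k := by
        rw [← Real.rpow_natCast, ← Real.rpow_mul (by positivity)]
        norm_num
      rw [h5] at h4
      exact h4.le
    · have hHk : H k = ∅ := by rw [hH]; simp only [if_neg hk]
      have e : (H k).card = 0 := by rw [hHk, card_empty]
      rw [e]
      have : (0 : ℝ) ≤ c * k := by positivity
      simpa using this
  · have hk0 : (0 : ℝ) < k := by exact_mod_cast hk
    rw [div_le_div_iff₀ (by positivity) hk0]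
    rw [div_le_iff₀ (by positivity)] at hAr
    push_cast
    nlinarith
  · -- summability
    set e : ℝ := t / s - (1 - s) / (2 * s) with he
    have he1 : e < -1 := by
      rw [he, div_sub_div _ _ hs.ne' (by positivity), div_lt_iff₀ (by positivity)]
      nlinarith
    have hsume : Summable fun k : ℕ => (A : ℝ) ^ (t / s) * c ^ (-((1 - s) / (2 * s))) *
        (k : ℝ) ^ e := (Real.summable_nat_rpow.2 he1).mul_left _
    rw [← summable_nat_add_iff (n0 + 1)]
    rw [← summable_nat_add_iff (n0 + 1)] at hsume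
    refine Summable.of_nonneg_of_le (fun k => measureReal_nonneg) (fun k' => ?_) hsume
    set k := k' + (n0 + 1) with hkdef
    have hk : n0 + 1 ≤ k := by omega
    have hk1 : 1 ≤ k := by omega
    have hk0 : (0 : ℝ) < k := by exact_mod_cast hk1
    have hAk : 1 ≤ A * k := Nat.mul_pos hApos hk1
    have hHk : H k = {j ∈ range (A * k) | lam k ≤ μ.real (arc (A * k) j)} := by
      rw [hH]; simp only [if_pos hk]
    have hsub : (U (cen k) (1 / (2 * ((A * k : ℕ) : ℝ))))ᶜ ⊆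
        ⋃ j ∈ (range (A * k)).filter (fun j => ¬ lam k ≤ μ.real (arc (A * k) j)),
          arc (A * k) j := by
      intro x hx
      obtain ⟨j, hj, hxj⟩ := arc_cover (A * k) hAk x
      rw [Set.mem_iUnion₂]
      refine ⟨j, ?_, hxj⟩
      rw [mem_filter, mem_range]
      refine ⟨hj, fun hl => hx ?_⟩
      have hjH : j ∈ H k := by rw [hHk, mem_filter, mem_range]; exact ⟨hj, hl⟩
      rw [U, Set.mem_iUnion]
      refine ⟨(H k).equivFin ⟨j, hjH⟩, ?_⟩
      have := arc_subset (A * k) j hAk hxj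
      rw [hcen]
      simp only [Equiv.symm_apply_apply]
      exact this
    have h1 : μ.real (U (cen k) (1 / (2 * ((A * k : ℕ) : ℝ))))ᶜ ≤
        ∑ j ∈ (range (A * k)).filter (fun j => ¬ lam k ≤ μ.real (arc (A * k) j)),
          μ.real (arc (A * k) j) :=
      (measureReal_mono hsub (measure_ne_top _ _)).trans (measureReal_biUnion_finset_le _ _)
    have h2 : ∀ j ∈ (range (A * k)).filter (fun j => ¬ lam k ≤ μ.real (arc (A * k) j)),
        μ.real (arc (A * k) j) ≤ lam k ^ (1 - s) * μ.real (arc (A * k) j) ^ s := by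
      intro j hj
      rw [mem_filter, not_le] at hj
      rcases eq_or_lt_of_le (measureReal_nonneg (μ := μ) (s := arc (A * k) j)) with h | h
      · rw [← h, Real.zero_rpow hs.ne', mul_zero]
      · calc μ.real (arc (A * k) j) = μ.real (arc (A * k) j) ^ (1 - s) *
              μ.real (arc (A * k) j) ^ s := by
              rw [← Real.rpow_add h, sub_add_cancel, Real.rpow_one]
          _ ≤ lam k ^ (1 - s) * μ.real (arc (A * k) j) ^ s := by
              refine mul_le_mul_of_nonneg_right ?_ (h0 k j)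
              exact Real.rpow_le_rpow h.le hj.2.le (by linarith)
    have h3 : μ.real (U (cen k) (1 / (2 * ((A * k : ℕ) : ℝ))))ᶜ ≤
        lam k ^ (1 - s) * ((A * k : ℕ) : ℝ) ^ t := by
      refine h1.trans ((sum_le_sum h2).trans ?_)
      rw [← mul_sum]
      refine mul_le_mul_of_nonneg_left ?_ (Real.rpow_nonneg (hlam0 k hk1).le _)
      refine le_trans ?_ (hsumk k hk).le
      exact sum_le_sum_of_subset_of_nonneg (filter_subset _ _) fun j _ _ => h0 k j
    refine h3.trans (le_of_eq ?_)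
    have hAkr : (0 : ℝ) < ((A * k : ℕ) : ℝ) := by exact_mod_cast hAk
    have hck : (0 : ℝ) < c * k := mul_pos hc0 hk0
    have e1 : lam k ^ (1 - s) = ((A * k : ℕ) : ℝ) ^ (t * ((1 - s) / s)) *
        (c * k) ^ (-((1 - s) / (2 * s))) := by
      rw [hlam]
      simp only
      rw [← Real.rpow_mul (div_pos (hpow k hk1) (hsq k hk1)).le,
        Real.div_rpow (hpow k hk1).le (hsq k hk1).le, ← Real.rpow_mul hAkr.le,
        ← Real.rpow_mul hck.le, div_eq_mul_inv, ← Real.rpow_neg hck.le]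
      congr 2
      · ring
      · ring
    rw [e1, Nat.cast_mul]
    have hAkr' : (0 : ℝ) < (A : ℝ) * k := mul_pos hA0 hk0
    calc ((A : ℝ) * k) ^ (t * ((1 - s) / s)) * (c * k) ^ (-((1 - s) / (2 * s))) *
          ((A : ℝ) * k) ^ t
        = (((A : ℝ) * k) ^ (t * ((1 - s) / s)) * ((A : ℝ) * k) ^ t) *
          (c * k) ^ (-((1 - s) / (2 * s))) := by ring
      _ = ((A : ℝ) * k) ^ (t / s) * (c * k) ^ (-((1 - s) / (2 * s))) := by
          rw [← Real.rpow_add hAkr']
          congr 2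
          field_simp
          ring
      _ = ((A : ℝ) ^ (t / s) * (k : ℝ) ^ (t / s)) *
          (c ^ (-((1 - s) / (2 * s))) * (k : ℝ) ^ (-((1 - s) / (2 * s)))) := by
          rw [Real.mul_rpow hA0.le hk0.le, Real.mul_rpow hc0.le hk0.le]
      _ = (A : ℝ) ^ (t / s) * c ^ (-((1 - s) / (2 * s))) * ((k : ℝ) ^ (t / s) *
          (k : ℝ) ^ (-((1 - s) / (2 * s)))) := by ring
      _ = (A : ℝ) ^ (t / s) * c ^ (-((1 - s) / (2 * s))) * (k : ℝ) ^ e := by
          rw [← Real.rpow_add hk0, he, sub_eq_add_neg (t / s)]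

end Pool.Agent.H706R2.Ren
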